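import Mathlib

/-! # H72V, part C0: chains of small simplices: definitions -/

set_option autoImplicit false


noncomputable section

namespace H72V

/-- Points. -/
abbrev V (n : ℕ) : Type := Fin n → ℝ

/-- Chains mod 2 of ordered simplices, given by the lists of their vertices; the empty list is the
simplex of dimension `-1` (augmented chain complex). -/
abbrev Ch (n : ℕ) : Type := List (V n) →₀ ZMod 2

variable {n : ℕ}

/-- The boundary of a list: the sum of the lists with one entry deleted. -/
def bdL : List (V n) → Ch n
  | [] => 0
  | a :: l => Finsupp.single l 1 + Finsupp.mapDomain (List.cons a) (bdL l)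

/-- The boundary. -/
def bd : Ch n →ₗ[ZMod 2] Ch n := Finsupp.linearCombination (ZMod 2) bdL

/-- The cone with apex `a`. -/
def cone (a : V n) : Ch n →ₗ[ZMod 2] Ch n := Finsupp.lmapDomain (ZMod 2) (ZMod 2) (List.cons a)

/-- The antipodal map. -/
def ant : Ch n →ₗ[ZMod 2] Ch n :=
  Finsupp.lmapDomain (ZMod 2) (ZMod 2) (List.map (fun x : V n => -x))

/-- The barycentre. -/
def bary (l : List (V n)) : V n := (l.length : ℝ)⁻¹ • l.sum

/-- Barycentric subdivision of chains of lists of length `k`. -/
def sd : ℕ → (Ch n →ₗ[ZMod 2] Ch n)
  | 0 => LinearMap.id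
  | (k + 1) => Finsupp.linearCombination (ZMod 2) (fun l => cone (bary l) (sd k (bdL l)))

/-- All lists of the chain have length `k`. -/
def Len (k : ℕ) (c : Ch n) : Prop := ∀ l ∈ c.support, l.length = k

end H72V
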