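import Mathlib
import Pool.Agent.Lib.H72V.C0

/-! # H72V, part C1: chain algebra -/

set_option autoImplicit false


noncomputable section

namespace H72V

variable {n : ℕ}

private theorem c1_bd_single (l : List (V n)) (b : ZMod 2) : bd (Finsupp.single l b) = b • bdL l := by
  unfold bd
  rw [Finsupp.linearCombination_single]

private theorem c1_cone_single (a : V n) (l : List (V n)) (b : ZMod 2) :
    cone a (Finsupp.single l b) = Finsupp.single (a :: l) b := by
  unfold cone
  rw [Finsupp.lmapDomain_apply, Finsupp.mapDomain_single]

private theorem c1_ant_single (l : List (V n)) (b : ZMod 2) :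
    ant (Finsupp.single l b) = Finsupp.single (l.map (fun x : V n => -x)) b := by
  unfold ant
  rw [Finsupp.lmapDomain_apply, Finsupp.mapDomain_single]

private theorem c1_bdL_cons (a : V n) (l : List (V n)) :
    bdL (a :: l) = Finsupp.single l 1 + cone a (bdL l) := rfl

private theorem c1_smul_single (l : List (V n)) (b : ZMod 2) :
    b • (Finsupp.single l (1 : ZMod 2)) = Finsupp.single l b := by
  rw [Finsupp.smul_single, smul_eq_mul, mul_one]

/-- By linearity for `c = single l 1`: definition of `bdL`. -/
theorem bd_cone (a : V n) (c : Ch n) : bd (cone a c) = c + cone a (bd c) := by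
  induction c using Finsupp.induction_linear with
  | zero => simp
  | add f g hf hg =>
    rw [map_add, map_add, hf, hg, map_add, map_add]
    abel
  | single l b =>
    rw [c1_cone_single, c1_bd_single, c1_bdL_cons, c1_bd_single, map_smul, smul_add, c1_smul_single]

private theorem c1_bd_bdL (l : List (V n)) : bd (bdL l) = 0 := by
  induction l with
  | nil => exact map_zero _
  | cons a l ih =>
    rw [c1_bdL_cons, map_add, bd_cone, ih, map_zero, add_zero, c1_bd_single, one_smul]
    exact ZModModule.add_self _

/-- By linearity and induction on the list: `bd (bdL (a :: l)) = bdL l + (bdL l + cone a (bd (bdL l)))`,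
characteristic 2. -/
theorem bd_bd (c : Ch n) : bd (bd c) = 0 := by
  induction c using Finsupp.induction_linear with
  | zero => simp
  | add f g hf hg => rw [map_add, map_add, hf, hg, add_zero]
  | single l b => rw [c1_bd_single, map_smul, c1_bd_bdL, smul_zero]

theorem ant_cone (a : V n) (c : Ch n) : ant (cone a c) = cone (-a) (ant c) := by
  induction c using Finsupp.induction_linear with
  | zero => simp
  | add f g hf hg => rw [map_add, map_add, hf, hg, map_add, map_add]
  | single l b => rw [c1_cone_single, c1_ant_single, c1_ant_single, c1_cone_single, List.map_cons]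

private theorem c1_bdL_map (l : List (V n)) : bdL (l.map (fun x : V n => -x)) = ant (bdL l) := by
  induction l with
  | nil => exact (map_zero _).symm
  | cons a l ih => rw [List.map_cons, c1_bdL_cons, c1_bdL_cons, ih, map_add, c1_ant_single, ant_cone]

/-- Linearity, induction on the list. -/
theorem bd_ant (c : Ch n) : bd (ant c) = ant (bd c) := by
  induction c using Finsupp.induction_linear with
  | zero => simp
  | add f g hf hg => rw [map_add, map_add, hf, hg, map_add, map_add]
  | single l b => rw [c1_ant_single, c1_bd_single, c1_bd_single, c1_bdL_map, map_smul]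

theorem ant_ant (c : Ch n) : ant (ant c) = c := by
  induction c using Finsupp.induction_linear with
  | zero => simp
  | add f g hf hg => rw [map_add, map_add, hf, hg]
  | single l b =>
    rw [c1_ant_single, c1_ant_single, List.map_map]
    have h : ((fun x : V n => -x) ∘ fun x : V n => -x) = id := by
      funext x
      simp
    rw [h, List.map_id]

/-- Lists in the boundary of a chain are obtained by deleting one entry. -/
theorem mem_bdL (l m : List (V n)) (h : m ∈ (bdL l).support) :
    m.length + 1 = l.length ∧ ∀ x ∈ m, x ∈ l := by
  classical
  induction l generalizing m with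
  | nil =>
    have h1 : (bdL ([] : List (V n))).support = ∅ := Finsupp.support_zero
    rw [h1] at h
    exact absurd h (Finset.notMem_empty m)
  | cons a l ih =>
    rw [c1_bdL_cons] at h
    rcases Finset.mem_union.1 (Finsupp.support_add h) with h1 | h1
    · have h2 := Finset.mem_singleton.1 (Finsupp.support_single_subset h1)
      rw [h2]
      exact ⟨rfl, fun x hx => List.mem_cons_of_mem a hx⟩
    · have h2 : m ∈ (Finsupp.mapDomain (List.cons a) (bdL l)).support := h1
      obtain ⟨m', hm', rfl⟩ := Finset.mem_image.1 (Finsupp.mapDomain_support h2)
      obtain ⟨h3, h4⟩ := ih m' hm'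
      refine ⟨?_, fun x hx => ?_⟩
      · rw [List.length_cons, List.length_cons, h3]
      · rcases List.mem_cons.1 hx with h5 | h5
        · rw [h5]
          exact List.mem_cons_self
        · exact List.mem_cons_of_mem a (h4 x h5)

theorem len_bd (k : ℕ) (c : Ch n) (h : Len (k + 1) c) : Len k (bd c) := by
  classical
  intro m hm
  rw [Finsupp.mem_support_iff] at hm
  by_contra hcon
  apply hm
  unfold bd
  rw [Finsupp.linearCombination_apply, Finsupp.sum, Finsupp.finsetSum_apply]
  refine Finset.sum_eq_zero fun l hl => ?_
  rw [Finsupp.smul_apply]
  by_contra h1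
  have h2 : bdL l m ≠ 0 := by
    intro h3
    apply h1
    rw [h3, smul_zero]
  have h3 := (mem_bdL l m (Finsupp.mem_support_iff.2 h2)).1
  have h4 := h l hl
  omega

theorem len_cone (k : ℕ) (a : V n) (c : Ch n) (h : Len k c) : Len (k + 1) (cone a c) := by
  classical
  intro m hm
  have h2 : m ∈ (Finsupp.mapDomain (List.cons a) c).support := hm
  obtain ⟨m', hm', rfl⟩ := Finset.mem_image.1 (Finsupp.mapDomain_support h2)
  rw [List.length_cons, h m' hm']

theorem len_ant (k : ℕ) (c : Ch n) (h : Len k c) : Len k (ant c) := by
  classical
  intro m hm
  have h2 : m ∈ (Finsupp.mapDomain (List.map (fun x : V n => -x)) c).support := hm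
  obtain ⟨m', hm', rfl⟩ := Finset.mem_image.1 (Finsupp.mapDomain_support h2)
  rw [List.length_map, h m' hm']

theorem len_add (k : ℕ) (c c' : Ch n) (h : Len k c) (h' : Len k c') : Len k (c + c') := by
  classical
  intro m hm
  rcases Finset.mem_union.1 (Finsupp.support_add hm) with h1 | h1
  · exact h m h1
  · exact h' m h1

end H72V
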