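import Mathlib
import Pool.Agent.Lib.H72V.C1

/-! # H72V, part C2: subdivision is a chain map -/

set_option autoImplicit false


noncomputable section

namespace H72V

variable {n : ℕ}

private theorem c2_bd_single (l : List (V n)) : bd (Finsupp.single l 1) = bdL l := by
  unfold bd
  rw [Finsupp.linearCombination_single, one_smul]

private theorem c2_sd_single (k : ℕ) (l : List (V n)) (r : ZMod 2) :
    sd (k + 1) (Finsupp.single l r) = r • cone (bary l) (sd k (bdL l)) := by
  show Finsupp.linearCombination (ZMod 2) (fun l => cone (bary l) (sd k (bdL l)))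
    (Finsupp.single l r) = _
  rw [Finsupp.linearCombination_single]

private theorem c2_len_zero (k : ℕ) : Len k (0 : Ch n) := by
  intro l hl
  simp at hl

private theorem c2_len_smul (k : ℕ) (a : ZMod 2) (c : Ch n) (h : Len k c) : Len k (a • c) := by
  intro l hl
  exact h l (Finsupp.support_smul hl)

private theorem c2_len_sum (k : ℕ) (s : Finset (List (V n))) (f : List (V n) → Ch n)
    (h : ∀ l ∈ s, Len k (f l)) : Len k (∑ l ∈ s, f l) := by
  classical
  induction s using Finset.induction_on with
  | empty =>
    rw [Finset.sum_empty]
    exact c2_len_zero k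
  | insert a s ha ih =>
    rw [Finset.sum_insert ha]
    exact len_add k _ _ (h a (Finset.mem_insert_self a s))
      (ih fun l hl => h l (Finset.mem_insert_of_mem hl))

private theorem c2_len_bdL (k : ℕ) (l : List (V n)) (hl : l.length = k + 1) : Len k (bdL l) := by
  intro m hm
  have h1 := (mem_bdL l m hm).1
  omega

private theorem c2_sd_eq (k : ℕ) (c : Ch n) :
    sd (k + 1) c = ∑ l ∈ c.support, c l • cone (bary l) (sd k (bdL l)) := by
  show Finsupp.linearCombination (ZMod 2) (fun l => cone (bary l) (sd k (bdL l))) c = _
  rw [Finsupp.linearCombination_apply]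
  rfl

private theorem c2_bd_eq (c : Ch n) : bd c = ∑ l ∈ c.support, c l • bdL l := by
  show Finsupp.linearCombination (ZMod 2) bdL c = _
  rw [Finsupp.linearCombination_apply]
  rfl

theorem len_sd (k : ℕ) (c : Ch n) (h : Len k c) : Len k (sd k c) := by
  induction k generalizing c with
  | zero => exact h
  | succ k ih =>
    rw [c2_sd_eq]
    apply c2_len_sum
    intro l hl
    apply c2_len_smul
    apply len_cone
    apply ih
    exact c2_len_bdL k l (h l hl)

/-- Proof. By induction on `k`, for `c = single l 1` with `l` of length `k + 1` (a chain with `Len` is a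
sum of such): `bd (sd (k+1) l) = bd (cone b (sd k (bdL l))) = sd k (bdL l) + cone b (bd (sd k (bdL l)))`
(`bd_cone`), and `bd (sd k (bdL l)) = 0`: for `k = 0` the chain is a multiple of the empty list, whose
boundary is `0`; for `k = j + 1` it is `sd j (bd (bdL l)) = 0` by induction (`len_bd`) and `bd_bd`. -/
theorem bd_sd (k : ℕ) (c : Ch n) (h : Len (k + 1) c) : bd (sd (k + 1) c) = sd k (bd c) := by
  induction k generalizing c with
  | zero =>
    rw [c2_sd_eq, c2_bd_eq c, map_sum, map_sum]
    refine Finset.sum_congr rfl fun l hl => ?_
    rw [map_smul, map_smul, bd_cone]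
    have h1 : bd (sd 0 (bdL l)) = 0 := by
      have h2 := h l hl
      show bd (bdL l) = 0
      rw [← c2_bd_single, bd_bd]
    rw [h1, map_zero, add_zero]
  | succ k ih =>
    rw [c2_sd_eq, c2_bd_eq c, map_sum, map_sum]
    refine Finset.sum_congr rfl fun l hl => ?_
    rw [map_smul, map_smul, bd_cone]
    have h1 : bd (sd (k + 1) (bdL l)) = 0 := by
      rw [ih (bdL l) (c2_len_bdL (k + 1) l (h l hl)), ← c2_bd_single l, bd_bd, map_zero]
    rw [h1, map_zero, add_zero]

private theorem c2_bary_neg (l : List (V n)) : bary (l.map fun x => -x) = - bary l := by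
  unfold bary
  rw [List.length_map]
  have h1 : (l.map fun x => -x).sum = - l.sum := by
    induction l with
    | nil => simp
    | cons a l ih => rw [List.map_cons, List.sum_cons, List.sum_cons, ih, neg_add]
  rw [h1, smul_neg]

private theorem c2_ant_single (l : List (V n)) (r : ZMod 2) :
    ant (Finsupp.single l r) = Finsupp.single (l.map fun x => -x) r := by
  show Finsupp.mapDomain _ (Finsupp.single l r) = _
  rw [Finsupp.mapDomain_single]

private theorem c2_bdL_ant (l : List (V n)) : bdL (l.map fun x => -x) = ant (bdL l) := by
  have h1 := bd_ant (Finsupp.single l 1)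
  rw [c2_ant_single, c2_bd_single, c2_bd_single] at h1
  exact h1

/-- Induction on `k`: `bary (-l) = -bary l`, `bd_ant`, `ant_cone`. -/
theorem sd_ant (k : ℕ) (c : Ch n) : sd k (ant c) = ant (sd k c) := by
  induction k generalizing c with
  | zero => rfl
  | succ k ih =>
    induction c using Finsupp.induction_linear with
    | zero => rw [map_zero, map_zero, map_zero]
    | add f g hf hg => rw [map_add, map_add, map_add, map_add, hf, hg]
    | single l r =>
      rw [c2_ant_single, c2_sd_single, c2_sd_single, map_smul, c2_bary_neg, c2_bdL_ant, ih,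
        ant_cone]

end H72V
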