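import Mathlib
import Pool.Agent.Lib.H72V.C1

/-! # H72V, part C3: subdivision makes simplices small and keeps them in convex sets -/

set_option autoImplicit false


noncomputable section

namespace H72V

variable {n : ℕ}

private theorem c3_mem_cone (a : V n) (e : Ch n) (l : List (V n)) (h : l ∈ (cone a e).support) :
    ∃ m ∈ e.support, l = a :: m := by
  classical
  have h1 : (cone a e) = Finsupp.mapDomain (List.cons a) e := rfl
  rw [h1] at h
  have h2 := Finsupp.mapDomain_support h
  rw [Finset.mem_image] at h2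
  obtain ⟨m, hm, hml⟩ := h2
  exact ⟨m, hm, hml.symm⟩

private theorem c3_mem_sd (k : ℕ) (c : Ch n) (l' : List (V n))
    (h : l' ∈ (sd (k + 1) c).support) :
    ∃ l ∈ c.support, ∃ m ∈ (sd k (bdL l)).support, l' = bary l :: m := by
  classical
  have h1 : sd (k + 1) c = c.sum fun l a => a • cone (bary l) (sd k (bdL l)) := by
    show Finsupp.linearCombination (ZMod 2) (fun l => cone (bary l) (sd k (bdL l))) c = _
    rw [Finsupp.linearCombination_apply]
  rw [h1] at h
  have h2 := Finsupp.support_sum h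
  rw [Finset.mem_biUnion] at h2
  obtain ⟨l, hl, h3⟩ := h2
  have h4 := Finsupp.support_smul h3
  obtain ⟨m, hm, hml⟩ := c3_mem_cone _ _ _ h4
  exact ⟨l, hl, m, hm, hml⟩

private theorem c3_bary_mem (K : Set (V n)) (hK : Convex ℝ K) :
    ∀ l : List (V n), l ≠ [] → (∀ x ∈ l, x ∈ K) → bary l ∈ K := by
  intro l
  induction l with
  | nil => intro h; exact absurd rfl h
  | cons a l ih =>
    intro _ hl
    by_cases h0 : l = []
    · subst h0
      have : bary [a] = a := by simp [bary]
      rw [this]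
      exact hl a (by simp)
    · have hb := ih h0 (fun x hx => hl x (List.mem_cons_of_mem _ hx))
      have ha := hl a (by simp)
      have hpos : (0 : ℝ) < (l.length : ℝ) := by
        exact_mod_cast List.length_pos_iff.2 h0
      have h1 : bary (a :: l) = ((l.length : ℝ) + 1)⁻¹ • a
          + ((l.length : ℝ) / ((l.length : ℝ) + 1)) • bary l := by
        unfold bary
        rw [List.length_cons, List.sum_cons, smul_smul]
        push_cast
        rw [smul_add]
        congr 2
        field_simp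
      rw [h1]
      apply hK ha hb
      · positivity
      · positivity
      · field_simp
        ring

/-- Proof. Induction on `k`. A list in `sd (k+1) l` is `bary l :: m` with `m` in the support of
`sd k (bdL l)`, and the lists of `bdL l` are contained in `l` (`mem_bdL`). The barycentre is in `K`
(`K` convex, `l` of length `k + 1 > 0`; `Convex.sum_mem` or induction on the list). -/
theorem sd_conv (F : Set (Set (V n))) (hF : ∀ K ∈ F, Convex ℝ K) (k : ℕ) (c : Ch n) (hc : Len k c)
    (h : ∀ l ∈ c.support, ∃ K ∈ F, ∀ x ∈ l, x ∈ K) :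
    ∀ l ∈ (sd k c).support, ∃ K ∈ F, ∀ x ∈ l, x ∈ K := by
  induction k generalizing c F with
  | zero =>
    intro l hl
    exact h l hl
  | succ k ih =>
    intro l' hl'
    obtain ⟨l, hl, m, hm, hml⟩ := c3_mem_sd k c l' hl'
    obtain ⟨K, hK, hlK⟩ := h l hl
    have hlen : l.length = k + 1 := hc l hl
    have h1 : ∀ l₂ ∈ (bdL l).support, l₂.length + 1 = l.length ∧ ∀ x ∈ l₂, x ∈ l :=
      fun l₂ hl₂ => mem_bdL l l₂ hl₂
    obtain ⟨K', hK', hmK⟩ := ih {K} (fun K' hK' => by
        rw [Set.mem_singleton_iff] at hK'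
        rw [hK']
        exact hF K hK) (bdL l) (fun l₂ hl₂ => by
        have := (h1 l₂ hl₂).1
        omega) (fun l₂ hl₂ => ⟨K, rfl, fun x hx => hlK x ((h1 l₂ hl₂).2 x hx)⟩) m hm
    rw [Set.mem_singleton_iff] at hK'
    subst hK'
    refine ⟨K', hK, ?_⟩
    intro x hx
    rw [hml] at hx
    rcases List.mem_cons.1 hx with hx | hx
    · rw [hx]
      apply c3_bary_mem K' (hF K' hK) l _ hlK
      intro h0
      rw [h0] at hlen
      simp at hlen
    · exact hmK x hx

private theorem c3_sum (x : V n) (d : ℝ) :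
    ∀ l : List (V n), (∀ y ∈ l, dist y x ≤ d) → ‖l.sum - (l.length : ℝ) • x‖ ≤ (l.length : ℝ) * d := by
  intro l
  induction l with
  | nil => intro _; simp
  | cons a l ih =>
    intro h
    have h1 := ih (fun y hy => h y (List.mem_cons_of_mem _ hy))
    have h2 := h a (by simp)
    rw [dist_eq_norm] at h2
    have h3 : (a :: l).sum - (((a :: l).length : ℕ) : ℝ) • x
        = (a - x) + (l.sum - (l.length : ℝ) • x) := by
      rw [List.sum_cons, List.length_cons]
      push_cast
      rw [add_smul, one_smul]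
      abel
    rw [h3]
    refine (norm_add_le _ _).trans ?_
    rw [List.length_cons]
    push_cast
    linarith

private theorem c3_bary_dist (l : List (V n)) (d : ℝ) (k : ℕ) (hk : l.length = k + 1)
    (h : ∀ x ∈ l, ∀ y ∈ l, dist x y ≤ d) (x : V n) (hx : x ∈ l) :
    dist x (bary l) ≤ ((k : ℝ) / ((k : ℝ) + 1)) * d := by
  obtain ⟨l₁, l₂, hl⟩ := List.append_of_mem hx
  have h1 := c3_sum x d l₁ (fun y hy => h y (by rw [hl]; simp [hy]) x hx)
  have h2 := c3_sum x d l₂ (fun y hy => h y (by rw [hl]; simp [hy]) x hx)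
  have hlen : l₁.length + l₂.length = k := by
    rw [hl] at hk
    simp at hk
    omega
  have hlen' : (l₁.length : ℝ) + (l₂.length : ℝ) = (k : ℝ) := by exact_mod_cast hlen
  have h3 : bary l - x = ((k : ℝ) + 1)⁻¹ •
      ((l₁.sum - (l₁.length : ℝ) • x) + (l₂.sum - (l₂.length : ℝ) • x)) := by
    have h4 : (l₁.sum - (l₁.length : ℝ) • x) + (l₂.sum - (l₂.length : ℝ) • x)
        = l.sum - ((k : ℝ) + 1) • x := by
      rw [hl, List.sum_append, List.sum_cons, ← hlen', add_smul, add_smul, one_smul]
      abel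
    rw [h4, smul_sub, smul_smul]
    unfold bary
    rw [hk]
    push_cast
    rw [inv_mul_cancel₀ (by positivity), one_smul]
  rw [dist_comm, dist_eq_norm, h3, norm_smul]
  have h5 : ‖(l₁.sum - (l₁.length : ℝ) • x) + (l₂.sum - (l₂.length : ℝ) • x)‖ ≤ (k : ℝ) * d := by
    refine (norm_add_le _ _).trans ?_
    rw [← hlen', add_mul]
    linarith
  have h6 : ‖((k : ℝ) + 1)⁻¹‖ = ((k : ℝ) + 1)⁻¹ := by
    rw [Real.norm_of_nonneg (by positivity)]
  rw [h6]
  calc ((k : ℝ) + 1)⁻¹ * ‖(l₁.sum - (l₁.length : ℝ) • x) + (l₂.sum - (l₂.length : ℝ) • x)‖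
      ≤ ((k : ℝ) + 1)⁻¹ * ((k : ℝ) * d) := by
        apply mul_le_mul_of_nonneg_left h5
        positivity
    _ = ((k : ℝ) / ((k : ℝ) + 1)) * d := by
        rw [div_eq_mul_inv]
        ring

/-- Proof. Induction on `k`, with `sd_conv` for `K = convexHull ℝ {x | x ∈ l}`. For `l` of length `k + 1` with
pairwise distances `≤ d`: every vertex `y` of a list of `sd (k+1) l` is in the convex hull of `l`,
and `‖bary l - x‖ ≤ (k / (k + 1)) d` for every `x` in `l`
(`bary l - x = (k+1)⁻¹ ∑ (x_j - x)`, one term is `0`), hence also `‖bary l - y‖ ≤ (k / (k + 1)) d` for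
`y` in the convex hull (closed balls are convex). Two vertices of `m`, `m` in `sd k (bdL l)`, have
distance `≤ ((k - 1) / k) d ≤ (k / (k + 1)) d` by induction. (The bound `(k - 1) / k` for lists of
length `k`; for `k = 0` the list is empty and for `k = 1` the distance is `0`.) -/
theorem sd_small (k : ℕ) (c : Ch n) (d : ℝ) (hd : 0 ≤ d) (hc : Len k c)
    (h : ∀ l ∈ c.support, ∀ x ∈ l, ∀ y ∈ l, dist x y ≤ d) :
    ∀ l ∈ (sd k c).support, ∀ x ∈ l, ∀ y ∈ l, dist x y ≤ (((k : ℝ) - 1) / k) * d := by
  induction k generalizing c with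
  | zero =>
    intro l hl x hx
    have h0 : l.length = 0 := hc l hl
    rw [List.length_eq_zero_iff] at h0
    rw [h0] at hx
    simp at hx
  | succ k ih =>
    intro l' hl'
    obtain ⟨l, hl, m, hm, hml⟩ := c3_mem_sd k c l' hl'
    have hlen : l.length = k + 1 := hc l hl
    have h1 : ∀ l₂ ∈ (bdL l).support, l₂.length + 1 = l.length ∧ ∀ x ∈ l₂, x ∈ l :=
      fun l₂ hl₂ => mem_bdL l l₂ hl₂
    have hLen : Len k (bdL l) := by
      intro l₂ hl₂
      have := (h1 l₂ hl₂).1
      omega
    have hbnd : ((((k + 1 : ℕ) : ℝ) - 1) / ((k + 1 : ℕ) : ℝ)) * d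
        = ((k : ℝ) / ((k : ℝ) + 1)) * d := by
      push_cast
      rw [add_sub_cancel_right]
    rw [hbnd]
    have hnn : 0 ≤ ((k : ℝ) / ((k : ℝ) + 1)) * d := by positivity
    -- distances to the barycentre
    have hbx : ∀ x ∈ l, x ∈ Metric.closedBall (bary l) (((k : ℝ) / ((k : ℝ) + 1)) * d) := by
      intro x hx
      rw [Metric.mem_closedBall]
      exact c3_bary_dist l d k hlen (h l hl) x hx
    have hsub : convexHull ℝ {x | x ∈ l}
        ⊆ Metric.closedBall (bary l) (((k : ℝ) / ((k : ℝ) + 1)) * d) :=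
      convexHull_min (fun x hx => hbx x hx) (convex_closedBall _ _)
    obtain ⟨K', hK', hmK⟩ := sd_conv {convexHull ℝ {x | x ∈ l}} (fun K hK => by
        rw [Set.mem_singleton_iff] at hK
        rw [hK]
        exact convex_convexHull ℝ _) k (bdL l) hLen
      (fun l₂ hl₂ => ⟨_, rfl, fun x hx => subset_convexHull ℝ _ ((h1 l₂ hl₂).2 x hx)⟩) m hm
    rw [Set.mem_singleton_iff] at hK'
    have hmb : ∀ y ∈ m, dist y (bary l) ≤ ((k : ℝ) / ((k : ℝ) + 1)) * d := by
      intro y hy
      have := hmK y hy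
      rw [hK'] at this
      exact Metric.mem_closedBall.1 (hsub this)
    have hmm : ∀ x ∈ m, ∀ y ∈ m, dist x y ≤ ((k : ℝ) / ((k : ℝ) + 1)) * d := by
      intro x hx y hy
      have h2 := ih (bdL l) hLen (fun l₂ hl₂ x hx y hy =>
        h l hl x ((h1 l₂ hl₂).2 x hx) y ((h1 l₂ hl₂).2 y hy)) m hm x hx y hy
      refine h2.trans ?_
      apply mul_le_mul_of_nonneg_right _ hd
      rcases Nat.eq_zero_or_pos k with hk0 | hk0
      · subst hk0
        simp
      · have hk1 : (0 : ℝ) < (k : ℝ) := by exact_mod_cast hk0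
        rw [div_le_div_iff₀ hk1 (by positivity)]
        nlinarith
    intro x hx y hy
    rw [hml] at hx hy
    rcases List.mem_cons.1 hx with hx | hx
    · rcases List.mem_cons.1 hy with hy | hy
      · rw [hx, hy, dist_self]
        exact hnn
      · rw [hx, dist_comm]
        exact hmb y hy
    · rcases List.mem_cons.1 hy with hy | hy
      · rw [hy]
        exact hmb x hx
      · exact hmm x hx y hy

end H72V
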