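import Mathlib
import Pool.Agent.Lib.H72V.C1

/-! # H72V, part C4: the cross-polytope -/

set_option autoImplicit false


noncomputable section

namespace H72V

variable {n : ℕ}

/-- The `k`-th basis vector for `k < n`, and `0` for `k = n`. -/
def vert (k : ℕ) : V n := if h : k < n then Pi.single ⟨k, h⟩ 1 else 0

/-- The sphere of dimension `k - 1`: all sign patterns of the first `k` basis vectors. -/
def A : ℕ → Ch n
  | 0 => Finsupp.single [] 1
  | (k + 1) => cone (vert k) (A k) + cone (-vert k) (A k)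

/-- The half sphere of dimension `k`; for `k = n` the ball. -/
def E (k : ℕ) : Ch n := cone (vert k) (A k)

/-- A face of the cross-polytope. -/
def face (s : V n) : Set (V n) := {x | (∀ i, 0 ≤ s i * x i) ∧ ∑ i, s i * x i = 1}

private theorem C4_add_self (c : Ch n) : c + c = 0 := by
  ext l
  rw [Finsupp.add_apply, Finsupp.zero_apply]
  exact CharTwo.add_self_eq_zero _

private theorem C4_cone_zero (a : V n) : cone a (0 : Ch n) = 0 := map_zero _

private theorem C4_mem_cone {a : V n} {c : Ch n} {l : List (V n)} (h : l ∈ (cone a c).support) :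
    ∃ l' ∈ c.support, l = a :: l' := by
  classical
  have h1 : cone a c = Finsupp.mapDomain (List.cons a) c := rfl
  rw [h1] at h
  obtain ⟨l', hl', h2⟩ := Finset.mem_image.1 (Finsupp.mapDomain_support h)
  exact ⟨l', hl', h2.symm⟩

private theorem C4_mem_add {c c' : Ch n} {l : List (V n)} (h : l ∈ (c + c').support) :
    l ∈ c.support ∨ l ∈ c'.support := by
  classical
  exact Finset.mem_union.1 (Finsupp.support_add h)

private theorem C4_mem_nil {l : List (V n)} (h : l ∈ (Finsupp.single ([] : List (V n)) (1 : ZMod 2)).support) :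
    l = [] := Finset.mem_singleton.1 (Finsupp.support_single_subset h)

private theorem C4_len_A (k : ℕ) : Len k (A k : Ch n) := by
  induction k with
  | zero =>
    intro l hl
    rw [C4_mem_nil hl]
    rfl
  | succ k ih => exact len_add (k + 1) _ _ (len_cone k _ _ ih) (len_cone k _ _ ih)

private theorem C4_desc (k : ℕ) (hk : k ≤ n) : ∀ l ∈ (A k : Ch n).support,
    ∃ s : V n, (∀ i, s i = 1 ∨ s i = -1) ∧ (∀ i : Fin n, k ≤ (i : ℕ) → s i = 1) ∧
      ∀ x ∈ l, ∃ i : Fin n, (i : ℕ) < k ∧ x = Pi.single i (s i) := by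
  induction k with
  | zero =>
    intro l hl
    rw [C4_mem_nil hl]
    exact ⟨fun _ => 1, fun _ => Or.inl rfl, fun _ _ => rfl, fun x hx => absurd hx (List.not_mem_nil)⟩
  | succ k ih =>
    intro l hl
    have hk' : k < n := hk
    have hv : (vert k : V n) = Pi.single ⟨k, hk'⟩ 1 := by
      unfold vert
      rw [dif_pos hk']
    rcases C4_mem_add hl with h | h
    · obtain ⟨l', hl', rfl⟩ := C4_mem_cone h
      obtain ⟨s, h1, h2, h3⟩ := ih (by omega) l' hl'
      refine ⟨s, h1, fun i hi => h2 i (by omega), fun x hx => ?_⟩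
      rcases List.mem_cons.1 hx with h4 | h4
      · refine ⟨⟨k, hk'⟩, Nat.lt_succ_self k, ?_⟩
        rw [h4, hv, h2 ⟨k, hk'⟩ le_rfl]
      · obtain ⟨i, hi, h5⟩ := h3 x h4
        exact ⟨i, by omega, h5⟩
    · obtain ⟨l', hl', rfl⟩ := C4_mem_cone h
      obtain ⟨s, h1, h2, h3⟩ := ih (by omega) l' hl'
      refine ⟨Function.update s ⟨k, hk'⟩ (-1), fun i => ?_, fun i hi => ?_, fun x hx => ?_⟩
      · by_cases h4 : i = ⟨k, hk'⟩
        · rw [h4, Function.update_self]
          exact Or.inr rfl
        · rw [Function.update_of_ne h4]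
          exact h1 i
      · have h4 : i ≠ ⟨k, hk'⟩ := by
          intro h5
          rw [h5] at hi
          exact absurd hi (by simp)
        rw [Function.update_of_ne h4]
        exact h2 i (by omega)
      · rcases List.mem_cons.1 hx with h4 | h4
        · refine ⟨⟨k, hk'⟩, Nat.lt_succ_self k, ?_⟩
          rw [h4, hv, Function.update_self, Pi.single_neg]
        · obtain ⟨i, hi, h5⟩ := h3 x h4
          have h6 : i ≠ ⟨k, hk'⟩ := by
            intro h7
            rw [h7] at hi
            exact absurd hi (by simp)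
          refine ⟨i, by omega, ?_⟩
          rw [Function.update_of_ne h6]
          exact h5

private theorem C4_single_face {s : V n} (hs : ∀ i, s i = 1 ∨ s i = -1) (i : Fin n) :
    (Pi.single i (s i) : V n) ∈ face s := by
  have h1 : ∀ j, s j * (Pi.single i (s i) : V n) j = if j = i then 1 else 0 := by
    intro j
    by_cases h : j = i
    · rw [h, Pi.single_eq_same, if_pos rfl]
      rcases hs i with h2 | h2 <;> rw [h2] <;> norm_num
    · rw [Pi.single_eq_of_ne h, mul_zero, if_neg h]
  refine ⟨fun j => ?_, ?_⟩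
  · rw [h1]
    split_ifs
    · exact zero_le_one
    · exact le_rfl
  · rw [Finset.sum_congr rfl fun j _ => h1 j, Finset.sum_ite_eq' Finset.univ i (fun _ => (1 : ℝ)),
      if_pos (Finset.mem_univ _)]

private theorem C4_norm (s : V n) (hs : ∀ i, s i = 1 ∨ s i = -1) (x : V n) (hx : x ∈ face s) :
    ∑ i, |x i| = 1 := by
  rw [← hx.2]
  refine Finset.sum_congr rfl fun i _ => ?_
  rw [← abs_of_nonneg (hx.1 i), abs_mul]
  have : |s i| = 1 := by
    rcases hs i with h2 | h2 <;> rw [h2] <;> norm_num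
  rw [this, one_mul]

theorem bd_A (k : ℕ) : bd (A k : Ch n) = 0 := by
  induction k with
  | zero =>
    show bd (Finsupp.single ([] : List (V n)) (1 : ZMod 2)) = 0
    unfold bd
    rw [Finsupp.linearCombination_single, one_smul]
    rfl
  | succ k ih =>
    show bd (cone (vert k) (A k) + cone (-vert k) (A k)) = 0
    rw [map_add, bd_cone, bd_cone, ih, C4_cone_zero, C4_cone_zero, add_zero, C4_add_self]

theorem ant_A (k : ℕ) : ant (A k : Ch n) = A k := by
  induction k with
  | zero =>
    show ant (Finsupp.single ([] : List (V n)) (1 : ZMod 2)) = Finsupp.single [] 1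
    unfold ant
    rw [Finsupp.lmapDomain_apply, Finsupp.mapDomain_single]
    rfl
  | succ k ih =>
    show ant (cone (vert k) (A k) + cone (-vert k) (A k)) = cone (vert k) (A k) + cone (-vert k) (A k)
    rw [map_add, ant_cone, ant_cone, ih, neg_neg, add_comm]

theorem bd_E_zero : bd (E 0 : Ch n) = Finsupp.single [] 1 := by
  show bd (cone (vert 0) (A 0)) = _
  rw [bd_cone, bd_A, C4_cone_zero, add_zero]
  rfl

theorem bd_E_succ (k : ℕ) : bd (E (k + 1) : Ch n) = E k + ant (E k) := by
  show bd (cone (vert (k + 1)) (A (k + 1))) = cone (vert k) (A k) + ant (cone (vert k) (A k))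
  rw [bd_cone, bd_A, C4_cone_zero, add_zero, ant_cone, ant_A]
  rfl

theorem len_E (k : ℕ) : Len (k + 1) (E k : Ch n) := by
  exact len_cone k _ _ (C4_len_A k)

/-- For `k < n` every list of `E k` consists of vectors `± vert i`, `i ≤ k`, with one sign for each `i`; so
it lies in a face with `s i = ±1`. -/
theorem E_face (k : ℕ) (hk : k < n) : ∀ l ∈ (E k : Ch n).support,
    ∃ s : V n, (∀ i, s i = 1 ∨ s i = -1) ∧ ∀ x ∈ l, x ∈ face s := by
  intro l hl
  obtain ⟨l', hl', rfl⟩ := C4_mem_cone hl
  obtain ⟨s, h1, h2, h3⟩ := C4_desc k hk.le l' hl'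
  refine ⟨s, h1, fun x hx => ?_⟩
  rcases List.mem_cons.1 hx with h4 | h4
  · have hv : (vert k : V n) = Pi.single ⟨k, hk⟩ (s ⟨k, hk⟩) := by
      unfold vert
      rw [dif_pos hk, h2 ⟨k, hk⟩ le_rfl]
    rw [h4, hv]
    exact C4_single_face h1 _
  · obtain ⟨i, -, h5⟩ := h3 x h4
    rw [h5]
    exact C4_single_face h1 _

theorem E_ball (k : ℕ) (hk : k ≤ n) : ∀ l ∈ (E k : Ch n).support, ∀ x ∈ l, ∑ i, |x i| ≤ 1 := by
  intro l hl x hx
  obtain ⟨l', hl', rfl⟩ := C4_mem_cone hl
  obtain ⟨s, h1, h2, h3⟩ := C4_desc k hk l' hl'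
  rcases List.mem_cons.1 hx with h4 | h4
  · rcases Nat.lt_or_eq_of_le hk with h5 | h5
    · have hv : (vert k : V n) = Pi.single ⟨k, h5⟩ (s ⟨k, h5⟩) := by
        unfold vert
        rw [dif_pos h5, h2 ⟨k, h5⟩ le_rfl]
      rw [h4, hv]
      exact (C4_norm s h1 _ (C4_single_face h1 _)).le
    · have hv : (vert k : V n) = 0 := by
        unfold vert
        rw [dif_neg (by omega)]
      rw [h4, hv]
      simp
  · obtain ⟨i, -, h5⟩ := h3 x h4
    rw [h5]
    exact (C4_norm s h1 _ (C4_single_face h1 _)).le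

theorem face_convex (s : V n) : Convex ℝ (face s) := by
  intro x hx y hy a b ha hb hab
  have h1 : ∀ i, s i * (a • x + b • y) i = a * (s i * x i) + b * (s i * y i) := by
    intro i
    rw [Pi.add_apply, Pi.smul_apply, Pi.smul_apply, smul_eq_mul, smul_eq_mul]
    ring
  refine ⟨fun i => ?_, ?_⟩
  · rw [h1]
    exact add_nonneg (mul_nonneg ha (hx.1 i)) (mul_nonneg hb (hy.1 i))
  · rw [Finset.sum_congr rfl fun i _ => h1 i, Finset.sum_add_distrib, ← Finset.mul_sum, ← Finset.mul_sum, hx.2, hy.2,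
      mul_one, mul_one, hab]

theorem face_norm (s : V n) (hs : ∀ i, s i = 1 ∨ s i = -1) (x : V n) (hx : x ∈ face s) :
    ∑ i, |x i| = 1 := by
  exact C4_norm s hs x hx

theorem ball_convex : Convex ℝ {x : V n | ∑ i, |x i| ≤ 1} := by
  intro x hx y hy a b ha hb hab
  have hx' : ∑ i, |x i| ≤ 1 := hx
  have hy' : ∑ i, |y i| ≤ 1 := hy
  show ∑ i, |(a • x + b • y) i| ≤ 1
  have h1 : ∀ i ∈ (Finset.univ : Finset (Fin n)), |(a • x + b • y) i| ≤ a * |x i| + b * |y i| := by
    intro i _
    rw [Pi.add_apply, Pi.smul_apply, Pi.smul_apply, smul_eq_mul, smul_eq_mul]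
    refine (abs_add_le _ _).trans ?_
    rw [abs_mul, abs_mul, abs_of_nonneg ha, abs_of_nonneg hb]
  refine (Finset.sum_le_sum h1).trans ?_
  rw [Finset.sum_add_distrib, ← Finset.mul_sum, ← Finset.mul_sum]
  nlinarith [mul_le_mul_of_nonneg_left hx' ha, mul_le_mul_of_nonneg_left hy' hb]

end H72V
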