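import Mathlib
import Pool.Agent.Lib.H72V.C2
import Pool.Agent.Lib.H72V.C3
import Pool.Agent.Lib.H72V.C4

/-! # H72V, part C5: fine half spheres -/

set_option autoImplicit false


noncomputable section

namespace H72V

/-- The `N`-fold subdivision of the half sphere of dimension `k`. -/
private def hh (n N k : ℕ) : Ch n := (fun c : Ch n => sd (k + 1) c)^[N] (E k)

private theorem hh_zero (n k : ℕ) : hh n 0 k = E k := rfl

private theorem hh_succ (n N k : ℕ) : hh n (N + 1) k = sd (k + 1) (hh n N k) := by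
  unfold hh
  rw [Function.iterate_succ_apply']

private theorem hh_len (n N k : ℕ) : Len (k + 1) (hh n N k) := by
  induction N with
  | zero => rw [hh_zero]; exact len_E k
  | succ N ih => rw [hh_succ]; exact len_sd _ _ ih

private theorem hh_conv (n N k : ℕ) (F : Set (Set (V n))) (hF : ∀ K ∈ F, Convex ℝ K)
    (h : ∀ l ∈ (E k : Ch n).support, ∃ K ∈ F, ∀ x ∈ l, x ∈ K) :
    ∀ l ∈ (hh n N k).support, ∃ K ∈ F, ∀ x ∈ l, x ∈ K := by
  induction N with
  | zero => rw [hh_zero]; exact h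
  | succ N ih => rw [hh_succ]; exact sd_conv F hF (k + 1) _ (hh_len n N k) ih

private theorem hh_small (n N k : ℕ) (hk : k ≤ n) :
    ∀ l ∈ (hh n N k).support, ∀ x ∈ l, ∀ y ∈ l, dist x y ≤ ((n : ℝ) / (n + 1)) ^ N * 2 := by
  induction N with
  | zero =>
    rw [hh_zero]
    intro l hl x hx y hy
    have h1 := E_ball k hk l hl x hx
    have h2 := E_ball k hk l hl y hy
    rw [pow_zero, one_mul, dist_pi_le_iff (by norm_num)]
    intro i
    have h3 : |x i| ≤ ∑ i, |x i| :=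
      Finset.single_le_sum (f := fun i => |x i|) (fun i _ => abs_nonneg _) (Finset.mem_univ i)
    have h4 : |y i| ≤ ∑ i, |y i| :=
      Finset.single_le_sum (f := fun i => |y i|) (fun i _ => abs_nonneg _) (Finset.mem_univ i)
    rw [Real.dist_eq]
    calc |x i - y i| ≤ |x i| + |y i| := abs_sub _ _
      _ ≤ 2 := by linarith
  | succ N ih =>
    rw [hh_succ]
    intro l hl x hx y hy
    have hr0 : (0 : ℝ) ≤ (n : ℝ) / (n + 1) := by positivity
    have hd : (0 : ℝ) ≤ ((n : ℝ) / (n + 1)) ^ N * 2 := by positivity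
    have h1 := sd_small (k + 1) (hh n N k) _ hd (hh_len n N k) ih l hl x hx y hy
    refine h1.trans ?_
    have hkn : (k : ℝ) ≤ n := by exact_mod_cast hk
    have h2 : ((((k + 1 : ℕ) : ℝ) - 1) / ((k + 1 : ℕ) : ℝ)) ≤ (n : ℝ) / (n + 1) := by
      push_cast
      rw [div_le_div_iff₀ (by positivity) (by positivity)]
      nlinarith
    calc ((((k + 1 : ℕ) : ℝ) - 1) / ((k + 1 : ℕ) : ℝ)) * (((n : ℝ) / (n + 1)) ^ N * 2)
        ≤ (n : ℝ) / (n + 1) * (((n : ℝ) / (n + 1)) ^ N * 2) :=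
          mul_le_mul_of_nonneg_right h2 hd
      _ = ((n : ℝ) / (n + 1)) ^ (N + 1) * 2 := by ring

private theorem hh_bd_zero (n N : ℕ) : bd (hh n N 0) = Finsupp.single [] 1 := by
  induction N with
  | zero => rw [hh_zero]; exact bd_E_zero
  | succ N ih =>
    rw [hh_succ, bd_sd 0 _ (hh_len n N 0), ih]
    rfl

private theorem hh_bd_succ (n N k : ℕ) :
    bd (hh n N (k + 1)) = hh n N k + ant (hh n N k) := by
  induction N with
  | zero => rw [hh_zero, hh_zero]; exact bd_E_succ k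
  | succ N ih =>
    rw [hh_succ, bd_sd (k + 1) _ (hh_len n N (k + 1)), ih, map_add, sd_ant, hh_succ]

/-- Proof. `h k = (sd (k + 1))^[N] (E k)` with `N` large. By `len_E`, `len_sd` lengths are `k + 1`. The
pairwise distances in `E k` are `≤ 2` (coordinates in `[-1, 1]`), so by `sd_small` they are
`≤ 2 (n / (n + 1)) ^ N < δ` after `N` steps (`k ≤ n`, `((k + 1) - 1)/(k + 1) ≤ n / (n + 1)`). `sd_conv`
with the family `{face s}` (`E_face`, `face_convex`, `face_norm`) gives (b), with the ball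
(`E_ball`, `ball_convex`) gives `∑ |x i| ≤ 1`. (c): `bd_sd` `N` times, `bd_E_zero`, and `sd 0 = id`.
(d): `bd_sd`, `bd_E_succ`, `sd_ant` and linearity. -/
theorem fine (n : ℕ) (δ : ℝ) (hδ : 0 < δ) : ∃ h : ℕ → Ch n,
    (∀ k ≤ n, ∀ l ∈ (h k).support, l.length = k + 1 ∧ (∀ x ∈ l, ∀ y ∈ l, dist x y < δ) ∧
      ∀ x ∈ l, ∑ i, |x i| ≤ 1) ∧
    (∀ k < n, ∀ l ∈ (h k).support, ∀ x ∈ l, ∑ i, |x i| = 1) ∧
    bd (h 0) = Finsupp.single [] 1 ∧
    ∀ k < n, bd (h (k + 1)) = h k + ant (h k) := by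
  have hr1 : (n : ℝ) / (n + 1) < 1 := by
    rw [div_lt_one (by positivity)]
    linarith
  obtain ⟨N, hN⟩ := exists_pow_lt_of_lt_one (half_pos hδ) hr1
  refine ⟨fun k => hh n N k, ?_, ?_, hh_bd_zero n N, fun k _ => hh_bd_succ n N k⟩
  · intro k hk l hl
    refine ⟨hh_len n N k l hl, ?_, ?_⟩
    · intro x hx y hy
      have := hh_small n N k hk l hl x hx y hy
      linarith
    · obtain ⟨K, hK, hKl⟩ := hh_conv n N k {{x : V n | ∑ i, |x i| ≤ 1}}
        (fun K hK => by rw [Set.mem_singleton_iff.mp hK]; exact ball_convex)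
        (fun l hl => ⟨_, rfl, E_ball k hk l hl⟩) l hl
      rw [Set.mem_singleton_iff.mp hK] at hKl
      exact hKl
  · intro k hk l hl
    obtain ⟨K, ⟨s, hs, rfl⟩, hKl⟩ := hh_conv n N k
      {K : Set (V n) | ∃ s : V n, (∀ i, s i = 1 ∨ s i = -1) ∧ K = face s}
      (fun K hK => by obtain ⟨s, -, rfl⟩ := hK; exact face_convex s)
      (fun l hl => by
        obtain ⟨s, hs, hl⟩ := E_face k hk l hl
        exact ⟨face s, ⟨s, hs, rfl⟩, hl⟩) l hl
    exact fun x hx => face_norm s hs x (hKl x hx)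

end H72V
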