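import Mathlib

/-! # H72V, part F1: Fan's lemma, words -/

set_option autoImplicit false


noncomputable section

namespace H72V

/-- The letters which are not `none` alternate, beginning with `b`. -/
def alt : Bool → List (Option Bool) → Bool
  | _, [] => true
  | b, none :: w => alt b w
  | b, some s :: w => (s == b) && alt (!b) w

/-- The number mod 2 of the letters of `w` (not `none`) whose replacement by `none` gives a word which
alternates beginning with `b`. -/
def del : Bool → List (Option Bool) → ZMod 2
  | _, [] => 0
  | b, none :: w => del b w
  | b, some s :: w => (if alt b w then 1 else 0) + (if s = b then del (!b) w else 0)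

/-- Induction on `w` (all `b`): for `some s :: w` with `s = b` the left side is
`alt b w + (alt b w + alt !b w) = alt !b w`, for `s ≠ b` it is `alt b w`. -/
theorem del_eq (b : Bool) (w : List (Option Bool)) :
    del b w = (if alt b w then 1 else 0) + (if alt (!b) w then 1 else 0) := by
  have h2 : ∀ x : ZMod 2, x + x = 0 := by decide
  induction w generalizing b with
  | nil =>
    simp only [del, alt, if_true]
    exact (h2 1).symm
  | cons a w ih =>
    rcases a with _ | s
    · simp only [del, alt]
      exact ih b
    · by_cases hs : s = b
      · subst hs
        have e1 : alt s (some s :: w) = alt (!s) w := by simp [alt]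
        have e2 : alt (!s) (some s :: w) = false := by cases s <;> simp [alt]
        have e3 : del s (some s :: w) = (if alt s w then 1 else 0) + del (!s) w := by simp [del]
        rw [e1, e2, e3, ih (!s), Bool.not_not]
        simp only [Bool.false_eq_true, if_false, add_zero]
        rw [add_comm, add_assoc, h2, add_zero]
      · have hs' : s = !b := by
          cases s <;> cases b <;> simp_all
        subst hs'
        have e1 : alt b ((some !b) :: w) = false := by cases b <;> simp [alt]
        have e2 : alt (!b) ((some !b) :: w) = alt b w := by simp [alt]
        have e3 : del b ((some !b) :: w) = (if alt b w then 1 else 0) := by simp [del]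
        rw [e1, e2, e3]
        simp only [Bool.false_eq_true, if_false, zero_add]

/-- Induction on `w`. -/
theorem alt_map_not (b : Bool) (w : List (Option Bool)) :
    alt b (w.map (Option.map (fun s => !s))) = alt (!b) w := by
  induction w generalizing b with
  | nil => rfl
  | cons a w ih =>
    rcases a with _ | s
    · simp only [List.map_cons, Option.map_none, alt]
      exact ih b
    · simp only [List.map_cons, Option.map_some, alt]
      rw [ih]
      cases s <;> cases b <;> rfl

/-- `del` as a sum over the positions. Induction on `w`. -/
theorem del_sum (b : Bool) (w : List (Option Bool)) :
    del b w = ∑ j ∈ Finset.range w.length,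
      if w[j]?.join.isSome ∧ alt b (w.set j none) then (1 : ZMod 2) else 0 := by
  induction w generalizing b with
  | nil => simp [del]
  | cons a w ih =>
    rw [List.length_cons, Finset.sum_range_succ']
    rcases a with _ | s
    · simp only [del]
      rw [ih b]
      simp [alt]
    · simp only [del]
      rw [ih (!b), add_comm]
      congr 1
      · by_cases hs : s = b
        · subst hs
          simp [alt]
        · have e1 : (s == b) = false := by simpa using hs
          simp [alt, hs, e1]
      · simp [alt]

end H72V
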