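import Mathlib
import Pool.Agent.Lib.H72V.F1

/-! # H72V, part F2: Fan's lemma, lists of labels -/

set_option autoImplicit false


noncomputable section

namespace H72V

variable {n : ℕ}

/-- The word of a list of labels: for every `j` the sign with which `j` occurs (`none` if it does not). -/
def word (L : List (Fin n × Bool)) : List (Option Bool) :=
  List.ofFn (fun j : Fin n => if (j, true) ∈ L then some true else
    if (j, false) ∈ L then some false else none)

/-- The indicator of the lists without repetition whose signs alternate (in the order of the absolute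
values), beginning with `true`. -/
def chi (L : List (Fin n × Bool)) : ZMod 2 := if L.Nodup ∧ alt true (word L) then 1 else 0

/-- The opposite label. -/
def op (a : Fin n × Bool) : Fin n × Bool := (a.1, !a.2)

private theorem f2_alt_none (k : ℕ) (b : Bool) : alt b (List.replicate k none) = true := by
  induction k with
  | zero => simp [alt]
  | succ k ih =>
    rw [List.replicate_succ]
    show alt b (List.replicate k none) = true
    exact ih

theorem chi_nil : chi ([] : List (Fin n × Bool)) = 1 := by
  have h1 : word ([] : List (Fin n × Bool)) = List.replicate n none := by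
    unfold word
    rw [← List.ofFn_const]
    simp
  unfold chi
  rw [h1, if_pos ⟨List.nodup_nil, f2_alt_none n true⟩]

private theorem f2_op_inj : Function.Injective (op : Fin n × Bool → Fin n × Bool) := by
  rintro ⟨a, b⟩ ⟨c, d⟩ h
  unfold op at h
  rw [Prod.mk.injEq] at h
  obtain ⟨h1, h2⟩ := h
  have h3 : b = d := Bool.not_inj h2
  have h4 : a = c := h1
  rw [h3, h4]

private theorem f2_op_op (a : Fin n × Bool) : op (op a) = a := by
  obtain ⟨a, b⟩ := a
  unfold op
  simp

private theorem f2_fst {L : List (Fin n × Bool)} (h : ∀ a ∈ L, op a ∉ L) {a b : Fin n × Bool}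
    (ha : a ∈ L) (hb : b ∈ L) (hab : a.1 = b.1) : a = b := by
  by_contra hne
  have h1 : a.2 ≠ b.2 := fun h2 => hne (Prod.ext hab h2)
  have h2 : op b = a := by
    unfold op
    refine Prod.ext hab.symm ?_
    show (!b.2) = a.2
    cases hb2 : b.2 <;> cases ha2 : a.2 <;> simp_all
  exact h b hb (h2 ▸ ha)

private theorem f2_not_nodup (L : List (Fin n × Bool)) (h : ∀ a ∈ L, op a ∉ L)
    (hl : n < L.length) : ¬ L.Nodup := by
  intro hn
  have h1 : (L.map Prod.fst).Nodup := by
    refine hn.map_on ?_
    intro a ha b hb hab
    exact f2_fst h ha hb hab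
  have h2 := h1.length_le_card
  rw [List.length_map, Fintype.card_fin] at h2
  omega

/-- A list without opposite labels and of length `> n` has a repetition. -/
theorem chi_long (L : List (Fin n × Bool)) (h : ∀ a ∈ L, op a ∉ L) (hl : n < L.length) :
    chi L = 0 ∧ chi (L.map op) = 0 := by
  have h1 := f2_not_nodup L h hl
  constructor
  · unfold chi
    rw [if_neg fun h2 => h1 h2.1]
  · unfold chi
    rw [if_neg fun h2 => h1 ((List.nodup_map_iff f2_op_inj).1 h2.1)]

private theorem f2_word_congr {L L' : List (Fin n × Bool)} (h : ∀ a, a ∈ L ↔ a ∈ L') :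
    word L = word L' := by
  unfold word
  refine congrArg List.ofFn (funext fun j => ?_)
  rw [if_congr (h (j, true)) rfl (if_congr (h (j, false)) rfl rfl)]

private theorem f2_chi_perm {L L' : List (Fin n × Bool)} (h : L.Perm L') : chi L = chi L' := by
  unfold chi
  rw [f2_word_congr fun a => h.mem_iff]
  exact if_congr (and_congr h.nodup_iff Iff.rfl) rfl rfl

private theorem f2_erase_perm (L : List (Fin n × Bool)) (i : ℕ) (hi : i < L.length) :
    (L.eraseIdx i).Perm (L.erase L[i]) := by
  have h1 : (L[i] :: L.eraseIdx i).Perm L := List.getElem_cons_eraseIdx_perm hi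
  have h2 : L.Perm (L[i] :: L.erase L[i]) := List.perm_cons_erase (List.getElem_mem hi)
  exact (h1.trans h2).cons_inv

private theorem f2_sum (L : List (Fin n × Bool)) :
    ∑ i ∈ Finset.range L.length, chi (L.eraseIdx i) =
      ∑ a ∈ L.toFinset, L.count a • chi (L.erase a) := by
  have h0 : (instBEqOfDecidableEq : BEq (Fin n × Bool)) = instBEqProd :=
    lawful_beq_subsingleton _ _
  have h := Finset.sum_list_map_count L fun a => chi (L.erase a)
  rw [h0] at h
  refine Eq.trans ?_ h
  rw [Finset.sum_range, ← Fin.sum_univ_fun_getElem]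
  refine Finset.sum_congr rfl fun i _ => ?_
  exact f2_chi_perm (f2_erase_perm L i.1 i.2)

private theorem f2_word_len (L : List (Fin n × Bool)) : (word L).length = n := by
  unfold word
  rw [List.length_ofFn]

private theorem f2_get (L : List (Fin n × Bool)) {j : ℕ} (h : j < (word L).length) (h1 : j < n) :
    (word L)[j] = if ((⟨j, h1⟩ : Fin n), true) ∈ L then some true else
      if ((⟨j, h1⟩ : Fin n), false) ∈ L then some false else none :=
  List.getElem_ofFn h

private theorem f2_word_erase {L : List (Fin n × Bool)} (h : ∀ a ∈ L, op a ∉ L) (hn : L.Nodup)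
    {a : Fin n × Bool} (ha : a ∈ L) : word (L.erase a) = (word L).set a.1 none := by
  have hm : ∀ b, b ∈ L.erase a ↔ b ≠ a ∧ b ∈ L := fun b => hn.mem_erase_iff
  refine List.ext_getElem ?_ ?_
  · rw [List.length_set, f2_word_len, f2_word_len]
  · intro j h1 h2
    rw [f2_word_len] at h1
    rw [List.getElem_set]
    by_cases hj : (a.1 : ℕ) = j
    · rw [if_pos hj]
      have hja : (⟨j, h1⟩ : Fin n) = a.1 := Fin.ext hj.symm
      rw [f2_get _ _ h1]
      have h3 : ∀ b : Bool, ((⟨j, h1⟩ : Fin n), b) ∉ L.erase a := by
        intro b hb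
        obtain ⟨h4, h5⟩ := (hm _).1 hb
        exact h4 (f2_fst h h5 ha hja)
      rw [if_neg (h3 true), if_neg (h3 false)]
    · rw [if_neg hj, f2_get _ _ h1, f2_get _ _ h1]
      have h3 : ∀ b : Bool, ((⟨j, h1⟩ : Fin n), b) ∈ L.erase a ↔ ((⟨j, h1⟩ : Fin n), b) ∈ L := by
        intro b
        rw [hm]
        refine ⟨fun h4 => h4.2, fun h4 => ⟨fun h5 => hj ?_, h4⟩⟩
        rw [← h5]
      rw [if_congr (h3 true) rfl (if_congr (h3 false) rfl rfl)]

private theorem f2_word_op {L : List (Fin n × Bool)} (h : ∀ a ∈ L, op a ∉ L) :
    word (L.map op) = (word L).map (Option.map (fun s => !s)) := by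
  have hm : ∀ b : Fin n × Bool, b ∈ L.map op ↔ op b ∈ L := by
    intro b
    rw [List.mem_map]
    constructor
    · rintro ⟨c, hc, rfl⟩
      rw [f2_op_op]
      exact hc
    · intro hb
      exact ⟨op b, hb, f2_op_op b⟩
  unfold word
  rw [List.map_ofFn]
  refine congrArg List.ofFn (funext fun j => ?_)
  have h1 : (j, true) ∈ L.map op ↔ (j, false) ∈ L := hm (j, true)
  have h2 : (j, false) ∈ L.map op ↔ (j, true) ∈ L := hm (j, false)
  show (if (j, true) ∈ L.map op then some true else
    if (j, false) ∈ L.map op then some false else none) =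
      Option.map (fun s => !s) (if (j, true) ∈ L then some true else
        if (j, false) ∈ L then some false else none)
  rw [if_congr h1 rfl (if_congr h2 rfl rfl)]
  by_cases h3 : (j, true) ∈ L
  · have h4 : (j, false) ∉ L := h (j, true) h3
    rw [if_neg h4, if_pos h3, if_pos h3]
    rfl
  · by_cases h4 : (j, false) ∈ L
    · rw [if_pos h4, if_neg h3, if_pos h4]
      rfl
    · rw [if_neg h4, if_neg h3, if_neg h3, if_neg h4]
      rfl

private theorem f2_del {L : List (Fin n × Bool)} (h : ∀ a ∈ L, op a ∉ L) :
    del true (word L) = ∑ a ∈ L.toFinset,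
      if alt true ((word L).set a.1 none) then (1 : ZMod 2) else 0 := by
  have h1 : ∑ a ∈ L.toFinset, (if alt true ((word L).set a.1 none) then (1 : ZMod 2) else 0) =
      ∑ a : Fin n × Bool, if a ∈ L then
        (if alt true ((word L).set a.1 none) then (1 : ZMod 2) else 0) else 0 := by
    refine Eq.trans (Finset.sum_congr ?_ fun _ _ => rfl) (Finset.sum_filter (fun a => a ∈ L) _)
    ext a
    rw [List.mem_toFinset, Finset.mem_filter]
    exact ⟨fun h2 => ⟨Finset.mem_univ a, h2⟩, fun h2 => h2.2⟩
  rw [h1, Fintype.sum_prod_type, del_sum, f2_word_len, Finset.sum_range]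
  refine Finset.sum_congr rfl fun j _ => ?_
  rw [Fintype.sum_bool]
  have h2 : (word L)[(j : ℕ)]?.join = (if (j, true) ∈ L then some true else
      if (j, false) ∈ L then some false else none) := by
    unfold word
    rw [List.getElem?_ofFn]
    simp
  rw [h2]
  by_cases h3 : (j, true) ∈ L
  · have h4 : (j, false) ∉ L := h (j, true) h3
    rw [if_pos h3, if_pos h3, if_neg h4, add_zero]
    simp
  · by_cases h4 : (j, false) ∈ L
    · rw [if_neg h3, if_pos h4, if_neg h3, if_pos h4, zero_add]
      simp
    · rw [if_neg h3, if_neg h4, if_neg h3, if_neg h4, zero_add]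
      simp

/-- Fan's lemma. Proof. `chi` is invariant under permutations, so `chi (L.eraseIdx i) = chi (L.erase a)`
for `a = L[i]`. If `L` has no repetition: `word (L.erase a) = (word L).set a.1 none` (the opposite
label is not in `L`), and the sum over the positions `i` of `L` is the sum over the `j` with
`word L [j]` not `none`, that is `del true (word L)` (`del_sum`); then `del_eq`, and
`word (L.map op)` is `word L` with all signs changed (`alt_map_not`). If `L` has a repetition, the
right side is `0`; if some `L.eraseIdx i` has no repetition, then exactly the two positions with the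
label `L[i]` give a list without repetition and they give the same value; so the sum is `0`. -/
theorem fan (L : List (Fin n × Bool)) (h : ∀ a ∈ L, op a ∉ L) :
    ∑ i ∈ Finset.range L.length, chi (L.eraseIdx i) = chi L + chi (L.map op) := by
  rw [f2_sum]
  by_cases hn : L.Nodup
  · have h1 : chi L = if alt true (word L) then 1 else 0 := by
      unfold chi
      exact if_congr ⟨fun h2 => h2.2, fun h2 => ⟨hn, h2⟩⟩ rfl rfl
    have h2 : chi (L.map op) = if alt (!true) (word L) then 1 else 0 := by
      unfold chi
      rw [f2_word_op h, alt_map_not]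
      exact if_congr ⟨fun h2 => h2.2, fun h2 => ⟨(List.nodup_map_iff f2_op_inj).2 hn, h2⟩⟩ rfl rfl
    rw [h1, h2, ← del_eq, f2_del h]
    refine Finset.sum_congr rfl fun a ha => ?_
    rw [List.mem_toFinset] at ha
    rw [List.count_eq_one_of_mem hn ha, one_smul]
    unfold chi
    rw [f2_word_erase h hn ha]
    exact if_congr ⟨fun h2 => h2.2, fun h2 => ⟨hn.erase a, h2⟩⟩ rfl rfl
  · have h1 : chi L = 0 := by
      unfold chi
      rw [if_neg fun h2 => hn h2.1]
    have h2 : chi (L.map op) = 0 := by
      unfold chi
      rw [if_neg fun h2 => hn ((List.nodup_map_iff f2_op_inj).1 h2.1)]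
    rw [h1, h2, add_zero]
    refine Finset.sum_eq_zero fun a ha => ?_
    rw [List.mem_toFinset] at ha
    by_cases h3 : (L.erase a).Nodup
    · have h4 : a ∈ L.erase a := by
        by_contra h5
        exact hn ((List.perm_cons_erase ha).nodup_iff.2 (List.nodup_cons.2 ⟨h5, h3⟩))
      have h5 : (L.erase a).count a = 1 := List.count_eq_one_of_mem h3 h4
      have h6 : L.count a = 2 := by
        rw [List.count_erase_self] at h5
        omega
      rw [h6, two_nsmul]
      exact CharTwo.add_self_eq_zero _
    · have h4 : chi (L.erase a) = 0 := by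
        unfold chi
        rw [if_neg fun h5 => h3 h5.1]
      rw [h4, smul_zero]

end H72V
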