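import Mathlib
import Pool.Agent.Lib.H72V.C1
import Pool.Agent.Lib.H72V.F2

/-! # H72V, part G1: Tucker's lemma for chains -/

set_option autoImplicit false


noncomputable section

namespace H72V

/-- A linear functional on the boundary of a list. -/
private theorem g1_bdL {n : ℕ} (l : List (V n)) : ∀ f : List (V n) → ZMod 2,
    Finsupp.linearCombination (ZMod 2) f (bdL l) = ∑ i ∈ Finset.range l.length, f (l.eraseIdx i) := by
  induction l with
  | nil =>
    intro f
    rw [bdL, map_zero, List.length_nil, Finset.range_zero, Finset.sum_empty]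
  | cons a l ih =>
    intro f
    rw [bdL, map_add, Finsupp.linearCombination_single, one_smul, Finsupp.linearCombination_mapDomain, ih,
      List.length_cons, Finset.sum_range_succ', add_comm]
    rfl

private theorem g1_bd {n : ℕ} (f : List (V n) → ZMod 2) (c : Ch n) :
    Finsupp.linearCombination (ZMod 2) f (bd c) =
      c.sum fun l a => a • Finsupp.linearCombination (ZMod 2) f (bdL l) := by
  show Finsupp.linearCombination (ZMod 2) f (Finsupp.linearCombination (ZMod 2) bdL c) = _
  rw [Finsupp.linearCombination_apply (ZMod 2) (v := bdL) c, map_finsuppSum]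
  refine Finset.sum_congr rfl fun l _ => ?_
  exact map_smul (Finsupp.linearCombination (ZMod 2) f) (c l) (bdL l)

private theorem g1_fan {n : ℕ} (lab : V n → Fin n × Bool) (l : List (V n))
    (h : ∀ x ∈ l, ∀ y ∈ l, lab x ≠ op (lab y)) :
    Finsupp.linearCombination (ZMod 2) (fun l : List (V n) => chi (l.map lab)) (bdL l) =
      chi (l.map lab) + chi ((l.map lab).map op) := by
  rw [g1_bdL, ← fan (l.map lab), List.length_map]
  · refine Finset.sum_congr rfl fun i _ => ?_
    rw [List.eraseIdx_map]
  · intro a ha hb
    rw [List.mem_map] at ha hb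
    obtain ⟨y, hy, rfl⟩ := ha
    obtain ⟨x, hx, hxy⟩ := hb
    exact h x hx y hy hxy

/-- Proof. Let `P c = c.sum (fun l a => a * chi (l.map lab))`, a linear map `Ch n → ZMod 2`. For a list `l`
without opposite labels `P (bdL l) = chi (l.map lab) + chi ((l.map lab).map op)` by `fan`
(`bdL l` is the sum of `single (l.eraseIdx i) 1`, and `map` commutes with `eraseIdx`). For `k < n` and
`l` in `h k` the labels are odd (`hodd`), so `chi ((l.map lab).map op) = chi ((l.map (-·)).map lab)`, so
`P (bd (h k)) = P (h k) + P (ant (h k))`. Hence `P (bd (h (k+1))) = P (bd (h k))` for `k < n`, and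
`P (bd (h 0)) = chi [] = 1`, so `P (bd (h n)) = 1`. But the lists of `h n` have length `n + 1`, so
`P (bd (h n)) = 0` by `fan` and `chi_long`. -/
theorem tucker_chain {n : ℕ} (h : ℕ → Ch n) (lab : V n → Fin n × Bool)
    (hlen : ∀ l ∈ (h n).support, l.length = n + 1)
    (hno : ∀ k ≤ n, ∀ l ∈ (h k).support, ∀ x ∈ l, ∀ y ∈ l, lab x ≠ op (lab y))
    (hodd : ∀ k < n, ∀ l ∈ (h k).support, ∀ x ∈ l, lab (-x) = op (lab x))
    (h0 : bd (h 0) = Finsupp.single [] 1) (hs : ∀ k < n, bd (h (k + 1)) = h k + ant (h k)) :
    False := by
  set f : List (V n) → ZMod 2 := fun l => chi (l.map lab) with hf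
  have h1 : ∀ k ≤ n, Finsupp.linearCombination (ZMod 2) f (bd (h k)) =
      (h k).sum fun l a => a • (chi (l.map lab) + chi ((l.map lab).map op)) := by
    intro k hk
    rw [g1_bd]
    refine Finset.sum_congr rfl fun l hl => ?_
    show _ • Finsupp.linearCombination (ZMod 2) (fun l : List (V n) => chi (l.map lab)) (bdL l) = _
    rw [g1_fan lab l (hno k hk l hl)]
  have h2 : ∀ k < n, Finsupp.linearCombination (ZMod 2) f (bd (h (k + 1))) =
      Finsupp.linearCombination (ZMod 2) f (bd (h k)) := by
    intro k hk
    rw [h1 k hk.le, hs k hk, map_add]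
    have h3 : Finsupp.linearCombination (ZMod 2) f (ant (h k)) =
        (h k).sum fun l a => a • chi ((l.map (fun x : V n => -x)).map lab) := by
      show Finsupp.linearCombination (ZMod 2) f
        (Finsupp.mapDomain (List.map (fun x : V n => -x)) (h k)) = _
      rw [Finsupp.linearCombination_mapDomain, Finsupp.linearCombination_apply]
      rfl
    rw [h3, Finsupp.linearCombination_apply]
    rw [Finsupp.sum, Finsupp.sum, Finsupp.sum, ← Finset.sum_add_distrib]
    refine Finset.sum_congr rfl fun l hl => ?_
    have h4 : (l.map (fun x : V n => -x)).map lab = (l.map lab).map op := by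
      rw [List.map_map, List.map_map]
      refine List.map_congr_left fun x hx => ?_
      exact hodd k hk l hl x hx
    rw [h4, smul_add]
  have h5 : ∀ k ≤ n, Finsupp.linearCombination (ZMod 2) f (bd (h k)) = 1 := by
    intro k
    induction k with
    | zero =>
      intro _
      rw [h0, Finsupp.linearCombination_single, one_smul]
      exact chi_nil
    | succ k ih =>
      intro hk
      rw [h2 k (by omega), ih (by omega)]
  have h6 : Finsupp.linearCombination (ZMod 2) f (bd (h n)) = 0 := by
    rw [h1 n le_rfl]
    refine Finset.sum_eq_zero fun l hl => ?_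
    have h7 := chi_long (l.map lab) (fun a ha hb => by
      rw [List.mem_map] at ha hb
      obtain ⟨y, hy, rfl⟩ := ha
      obtain ⟨x, hx, hxy⟩ := hb
      exact hno n le_rfl l hl x hx y hy hxy) (by
        rw [List.length_map, hlen l hl]
        exact Nat.lt_succ_self n)
    show _ • (chi (l.map lab) + chi ((l.map lab).map op)) = 0
    rw [h7.1, h7.2, add_zero, smul_zero]
  rw [h5 n le_rfl] at h6
  exact absurd h6 one_ne_zero

end H72V
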