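import Mathlib
import Pool.Agent.Lib.H72V.C5
import Pool.Agent.Lib.H72V.G1

/-! # H72V, part G2: the Borsuk-Ulam theorem on the ball -/

set_option autoImplicit false


noncomputable section

namespace H72V

/-- Borsuk - Ulam: a continuous map of `ℝⁿ` to itself which is odd on the boundary of the cross-polytope
has a zero. Proof. `n = 0`: `V 0` has one point. `n > 0`: the ball `K = {∑ |x i| ≤ 1}` is compact and
`y ↦ max_i |G y i|` (the norm of `G y` in `Fin n → ℝ`) is continuous and positive, so `‖G y‖ ≥ c > 0` on `K`;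
`G` is uniformly continuous on `K`: `δ` with `dist x y < δ → dist (G x) (G y) < c`. Label
`lab y = (j, decide (0 < G y j))`, `j` the least (or any, chosen as a function of `|G y|` only) index with
`|G y j| = ‖G y‖`. If `∑ |y i| = 1`, then `G (-y) = -G y`, so `lab (-y) = op (lab y)`. If
`lab x = op (lab y)` and `dist x y < δ`, then `|G x j - G y j| ≥ 2 c`, a contradiction. Apply
`tucker_chain` to the chains of `fine n δ`. -/
theorem borsuk_ulam (n : ℕ) (G : (Fin n → ℝ) → (Fin n → ℝ)) (hG : Continuous G)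
    (hodd : ∀ y, ∑ i, |y i| = 1 → G (-y) = -G y) : ∃ y, ∑ i, |y i| ≤ 1 ∧ G y = 0 := by
  rcases Nat.eq_zero_or_pos n with rfl | hn
  · exact ⟨0, by simp, Subsingleton.elim _ _⟩
  by_contra hcon
  have hG0 : ∀ y, ∑ i, |y i| ≤ 1 → G y ≠ 0 := fun y hy h => hcon ⟨y, hy, h⟩
  have : Nonempty (Fin n) := ⟨⟨0, hn⟩⟩
  -- the ball is compact
  have hK : IsCompact {x : Fin n → ℝ | ∑ i, |x i| ≤ 1} := by
    refine (isCompact_closedBall (0 : Fin n → ℝ) 1).of_isClosed_subset ?_ ?_
    · refine isClosed_le ?_ continuous_const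
      exact continuous_finsetSum _ fun i _ => (continuous_apply i).abs
    · intro x hx
      rw [mem_closedBall_zero_iff, pi_norm_le_iff_of_nonneg zero_le_one]
      intro i
      rw [Real.norm_eq_abs]
      exact (Finset.single_le_sum (f := fun i => |x i|) (fun i _ => abs_nonneg _)
        (Finset.mem_univ i)).trans hx
  obtain ⟨y0, hy0, hmin⟩ := hK.exists_isMinOn (f := fun y => ‖G y‖) ⟨0, by simp⟩ hG.norm.continuousOn
  have hc : 0 < ‖G y0‖ := norm_pos_iff.2 (hG0 y0 hy0)
  have hcK : ∀ y, ∑ i, |y i| ≤ 1 → ‖G y0‖ ≤ ‖G y‖ := fun y hy => hmin hy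
  obtain ⟨δ, hδ, hδG⟩ := Metric.uniformContinuousOn_iff.1
    (hK.uniformContinuousOn_of_continuous hG.continuousOn) ‖G y0‖ hc
  -- the labels
  choose J hJ using fun w : Fin n → ℝ => Finite.exists_max w
  obtain ⟨jj, hjj⟩ : ∃ jj : (Fin n → ℝ) → Fin n, ∀ y, jj y = J (fun i => |G y i|) :=
    ⟨_, fun _ => rfl⟩
  have hnorm : ∀ y, ‖G y‖ ≤ |G y (jj y)| := by
    intro y
    rw [pi_norm_le_iff_of_nonneg (abs_nonneg _)]
    intro i
    rw [Real.norm_eq_abs, hjj]
    exact hJ (fun i => |G y i|) i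
  obtain ⟨lab, hlab⟩ : ∃ lab : (Fin n → ℝ) → Fin n × Bool,
      ∀ y, lab y = (jj y, decide (0 < G y (jj y))) := ⟨_, fun _ => rfl⟩
  obtain ⟨h, h1, h2, h3, h4⟩ := fine n δ hδ
  refine tucker_chain h lab (fun l hl => (h1 n le_rfl l hl).1) (fun k hk l hl x hx y hy hxy => ?_)
    (fun k hk l hl x hx => ?_) h3 h4
  · obtain ⟨-, hd, hb⟩ := h1 k hk l hl
    have hdist := hδG x (hb x hx) y (hb y hy) (hd x hx y hy)
    rw [hlab, hlab] at hxy
    have e1 : jj x = jj y := congrArg Prod.fst hxy
    have e2 : decide (0 < G x (jj x)) = !decide (0 < G y (jj y)) := congrArg Prod.snd hxy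
    rw [e1] at e2
    have n1 : ‖G y0‖ ≤ |G x (jj y)| := by
      rw [← e1]
      exact (hcK x (hb x hx)).trans (hnorm x)
    have n2 : ‖G y0‖ ≤ |G y (jj y)| := (hcK y (hb y hy)).trans (hnorm y)
    have n3 : |G x (jj y) - G y (jj y)| < ‖G y0‖ := by
      refine lt_of_le_of_lt ?_ hdist
      rw [← Real.dist_eq]
      exact dist_le_pi_dist (G x) (G y) (jj y)
    by_cases hx0 : 0 < G x (jj y)
    · have hy0' : ¬ 0 < G y (jj y) := by
        intro h
        simp [hx0, h] at e2
      rw [abs_of_pos hx0] at n1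
      rw [abs_of_nonpos (not_lt.1 hy0')] at n2
      have := (abs_lt.1 n3).2
      linarith
    · have hy0' : 0 < G y (jj y) := by
        by_contra h
        simp [hx0, h] at e2
      rw [abs_of_nonpos (not_lt.1 hx0)] at n1
      rw [abs_of_pos hy0'] at n2
      have := (abs_lt.1 n3).1
      linarith
  · have hx1 := h2 k hk l hl x hx
    have hGx := hodd x hx1
    have e1 : jj (-x) = jj x := by
      rw [hjj, hjj]
      congr 1
      funext i
      rw [hGx, Pi.neg_apply, abs_neg]
    rw [hlab, hlab]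
    show (jj (-x), decide (0 < G (-x) (jj (-x)))) = (jj x, !decide (0 < G x (jj x)))
    rw [e1, hGx, Pi.neg_apply]
    have hne : G x (jj x) ≠ 0 := by
      intro h0
      have h5 := (hcK x hx1.le).trans (hnorm x)
      rw [h0, abs_zero] at h5
      exact absurd hc (not_lt.2 h5)
    refine Prod.ext rfl ?_
    show decide (0 < -G x (jj x)) = !decide (0 < G x (jj x))
    rcases lt_or_gt_of_ne hne with h6 | h6
    · have h7 : ¬ 0 < G x (jj x) := not_lt.2 h6.le
      have h8 : 0 < -G x (jj x) := neg_pos.2 h6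
      rw [decide_eq_true h8, decide_eq_false h7]
      rfl
    · have h8 : ¬ 0 < -G x (jj x) := by
        rw [not_lt]
        linarith
      rw [decide_eq_true h6, decide_eq_false h8]
      rfl

end H72V
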