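import Mathlib
import Pool.Agent.Lib.H72R.E

/-! # H72V, definitions: the group `S` of unit quaternions (the 3-sphere), its pure elements (the
2-sphere), polar coordinates -/

set_option autoImplicit false

open scoped Quaternion unitInterval

noncomputable section

namespace H72V

/-- The topological group of unit quaternions. Group operations, `-x`, the topology and the metric
are those of Mathlib; `x⁻¹` is the conjugate. -/
abbrev S : Type := Metric.sphere (0 : ℍ[ℝ]) 1

theorem qi_norm : ‖H72R.qi‖ = 1 := by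
  have h4 : ‖H72R.qi * H72R.qi‖ = 1 := by rw [H72R.qi_sq]; simp
  rw [norm_mul] at h4
  nlinarith [norm_nonneg H72R.qi]

theorem qj_norm : ‖H72R.qj‖ = 1 := by
  have h4 : ‖H72R.qj * H72R.qj‖ = 1 := by rw [H72R.qj_sq]; simp
  rw [norm_mul] at h4
  nlinarith [norm_nonneg H72R.qj]

/-- The unit `i`. -/
def si : S := ⟨H72R.qi, mem_sphere_zero_iff_norm.2 qi_norm⟩

/-- The unit `j`. -/
def sj : S := ⟨H72R.qj, mem_sphere_zero_iff_norm.2 qj_norm⟩

theorem S_norm (x : S) : ‖x.1‖ = 1 := mem_sphere_zero_iff_norm.1 x.2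

theorem coe_inv (x : S) : (x⁻¹ : S).1 = star x.1 := by
  have h : x.1 * star x.1 = 1 := H72R.mul_star_one (S_norm x)
  have h1 : (x⁻¹ : S).1 = x.1⁻¹ := rfl
  rw [h1]
  exact inv_eq_of_mul_eq_one_right h

theorem coe_mul (x y : S) : (x * y : S).1 = x.1 * y.1 := rfl
theorem coe_neg (x : S) : (-x : S).1 = -x.1 := rfl
theorem coe_one : ((1 : S) : ℍ[ℝ]) = 1 := rfl

/-- The 2-sphere of pure unit quaternions. -/
abbrev S2 : Type := {p : S // p * p = -1}

instance : CompactSpace S2 := by
  have hc : IsClosed {p : S | p * p = -1} :=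
    isClosed_eq (continuous_id.mul continuous_id) continuous_const
  exact isCompact_iff_compactSpace.1 hc.isCompact

theorem star_pure (v : S2) : star v.1.1 = -v.1.1 :=
  H72R.star_of_sq (congrArg Subtype.val v.2)

theorem re_pure (v : S2) : v.1.1.re = 0 := by
  have h := congrArg (fun z : ℍ[ℝ] => z.re) (star_pure v)
  simp at h
  linarith

theorem pol_mem (s : ℝ) (v : S2) :
    Real.cos (Real.pi * s) • (1 : ℍ[ℝ]) + Real.sin (Real.pi * s) • v.1.1
      ∈ Metric.sphere (0 : ℍ[ℝ]) 1 := by
  rw [mem_sphere_zero_iff_norm]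
  have hv : Quaternion.normSq v.1.1 = 1 := by
    rw [Quaternion.normSq_eq_norm_mul_self, S_norm, one_mul]
  rw [Quaternion.normSq_def', re_pure] at hv
  have h : Quaternion.normSq
      (Real.cos (Real.pi * s) • (1 : ℍ[ℝ]) + Real.sin (Real.pi * s) • v.1.1) = 1 := by
    rw [Quaternion.normSq_def']
    simp only [Quaternion.re_add, Quaternion.re_smul, Quaternion.imI_add, Quaternion.imI_smul,
      Quaternion.imJ_add, Quaternion.imJ_smul, Quaternion.imK_add, Quaternion.imK_smul,
      Quaternion.re_one, Quaternion.imI_one, Quaternion.imJ_one, Quaternion.imK_one, re_pure,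
      smul_eq_mul, mul_zero, mul_one, add_zero, zero_add]
    have h2 := Real.cos_sq_add_sin_sq (Real.pi * s)
    have e : Real.cos (Real.pi * s) ^ 2 + (Real.sin (Real.pi * s) * v.1.1.imI) ^ 2
        + (Real.sin (Real.pi * s) * v.1.1.imJ) ^ 2 + (Real.sin (Real.pi * s) * v.1.1.imK) ^ 2
        = Real.cos (Real.pi * s) ^ 2 + Real.sin (Real.pi * s) ^ 2
          * (0 ^ 2 + v.1.1.imI ^ 2 + v.1.1.imJ ^ 2 + v.1.1.imK ^ 2) := by ring
    rw [e, hv, mul_one, h2]
  rw [Quaternion.normSq_eq_norm_mul_self] at h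
  nlinarith [norm_nonneg (Real.cos (Real.pi * s) • (1 : ℍ[ℝ]) + Real.sin (Real.pi * s) • v.1.1)]

/-- Polar coordinates around `1`: `cos (π s) + sin (π s) v`. -/
def pol (s : ℝ) (v : S2) : S := ⟨_, pol_mem s v⟩

theorem pol_val (s : ℝ) (v : S2) :
    (pol s v).1 = Real.cos (Real.pi * s) • (1 : ℍ[ℝ]) + Real.sin (Real.pi * s) • v.1.1 := rfl

theorem pol_continuous : Continuous fun z : ℝ × S2 => pol z.1 z.2 := by
  refine Continuous.subtype_mk ?_ _
  have h1 : Continuous fun z : ℝ × S2 => z.2.1.1 :=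
    continuous_subtype_val.comp (continuous_subtype_val.comp continuous_snd)
  exact ((Real.continuous_cos.comp (continuous_const.mul continuous_fst)).smul
    continuous_const).add ((Real.continuous_sin.comp (continuous_const.mul continuous_fst)).smul h1)

/-- `x ↦ -x`. -/
def negC : C(S, S) := ⟨fun x => -x, continuous_neg⟩

/-- `x ↦ x⁻¹`, the conjugation. -/
def invC : C(S, S) := ⟨fun x => x⁻¹, continuous_inv⟩

/-- `x ↦ -x⁻¹`, the reflection of the real axis. -/
def rho : C(S, S) := ⟨fun x => -x⁻¹, continuous_neg.comp continuous_inv⟩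

/-- The map which doubles the angle on the upper half sphere and is `-1` on the lower one. -/
def dblFun (x : S) : S := if 0 ≤ x.1.re then x * x else -1

end H72V
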