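import Mathlib
import Pool.Agent.Lib.H72V.D

/-! # H72V, part DS: functions of the polar coordinates -/

set_option autoImplicit false

open scoped Quaternion unitInterval

noncomputable section

namespace H72V

private theorem ds_re (s : ℝ) (v : S2) : (pol s v).1.re = Real.cos (Real.pi * s) := by
  rw [pol_val]
  simp only [Quaternion.re_add, Quaternion.re_smul, Quaternion.re_one, re_pure, smul_eq_mul, mul_zero, mul_one,
    add_zero]

private theorem ds_fib {s s' : I} {v v' : S2} (h : pol s v = pol s' v') :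
    s = s' ∧ (v = v' ∨ s = 0 ∨ s = 1) := by
  have h1 : Real.cos (Real.pi * s) = Real.cos (Real.pi * s') := by
    rw [← ds_re, ← ds_re, h]
  have hpi := Real.pi_pos
  have hb : ∀ u : I, Real.pi * (u : ℝ) ∈ Set.Icc 0 Real.pi := fun u =>
    ⟨mul_nonneg hpi.le u.2.1, by nlinarith [u.2.2]⟩
  have h2 := Real.injOn_cos (hb s) (hb s') h1
  have h3 : (s : ℝ) = s' := mul_left_cancel₀ hpi.ne' h2
  have h4 : s = s' := Subtype.ext h3
  refine ⟨h4, ?_⟩
  by_cases hs0 : s = 0
  · exact Or.inr (Or.inl hs0)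
  by_cases hs1 : s = 1
  · exact Or.inr (Or.inr hs1)
  left
  have h5 : (0 : ℝ) < s := lt_of_le_of_ne s.2.1 fun h6 => hs0 (Subtype.ext h6.symm)
  have h6 : (s : ℝ) < 1 := lt_of_le_of_ne s.2.2 fun h7 => hs1 (Subtype.ext h7)
  have h7 : 0 < Real.sin (Real.pi * s) :=
    Real.sin_pos_of_pos_of_lt_pi (mul_pos hpi h5) (by nlinarith)
  have h8 := congrArg Subtype.val h
  rw [pol_val, pol_val, ← h3] at h8
  have h9 := add_left_cancel h8
  have h10 : v.1.1 = v'.1.1 := smul_right_injective ℍ[ℝ] h7.ne' h9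
  exact Subtype.ext (Subtype.ext h10)

private theorem ds_surj (x : S) : ∃ z : I × S2, pol z.1 z.2 = x := by
  have hn : Quaternion.normSq x.1 = 1 := by
    rw [Quaternion.normSq_eq_norm_mul_self, S_norm, one_mul]
  have hn' := hn
  rw [Quaternion.normSq_def'] at hn'
  have hr : x.1.re ^ 2 ≤ 1 := by
    nlinarith [sq_nonneg x.1.imI, sq_nonneg x.1.imJ, sq_nonneg x.1.imK]
  have hr1 : -1 ≤ x.1.re := by nlinarith
  have hr2 : x.1.re ≤ 1 := by nlinarith
  have hpi := Real.pi_pos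
  have hI : Real.arccos x.1.re / Real.pi ∈ I :=
    ⟨div_nonneg (Real.arccos_nonneg _) hpi.le, (div_le_one hpi).2 (Real.arccos_le_pi _)⟩
  have hs : Real.pi * (Real.arccos x.1.re / Real.pi) = Real.arccos x.1.re := by
    field_simp
  by_cases hc : x.1.re ^ 2 = 1
  · refine ⟨(⟨_, hI⟩, ⟨si, Subtype.ext H72R.qi_sq⟩), ?_⟩
    apply Subtype.ext
    rw [pol_val]
    show Real.cos (Real.pi * (Real.arccos x.1.re / Real.pi)) • (1 : ℍ[ℝ]) +
      Real.sin (Real.pi * (Real.arccos x.1.re / Real.pi)) • si.1 = x.1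
    rw [hs, Real.cos_arccos hr1 hr2, Real.sin_arccos, hc, sub_self, Real.sqrt_zero, zero_smul, add_zero]
    have h1 : x.1.imI = 0 := by nlinarith [sq_nonneg x.1.imI, sq_nonneg x.1.imJ, sq_nonneg x.1.imK]
    have h2 : x.1.imJ = 0 := by nlinarith [sq_nonneg x.1.imI, sq_nonneg x.1.imJ, sq_nonneg x.1.imK]
    have h3 : x.1.imK = 0 := by nlinarith [sq_nonneg x.1.imI, sq_nonneg x.1.imJ, sq_nonneg x.1.imK]
    ext <;> simp [h1, h2, h3]
  · have hpos : 0 < 1 - x.1.re ^ 2 := by
      rcases lt_or_eq_of_le hr with h | h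
      · linarith
      · exact absurd h hc
    have hsq : 0 < Real.sqrt (1 - x.1.re ^ 2) := Real.sqrt_pos.2 hpos
    set c : ℝ := Real.sqrt (1 - x.1.re ^ 2) with hcdef
    have hc2 : c ^ 2 = 1 - x.1.re ^ 2 := Real.sq_sqrt hpos.le
    set w : ℍ[ℝ] := c⁻¹ • x.1.im with hw
    have hwre : w.re = 0 := by simp [hw]
    have hwn : Quaternion.normSq w = 1 := by
      rw [Quaternion.normSq_def', hw]
      simp only [Quaternion.re_smul, Quaternion.imI_smul, Quaternion.imJ_smul, Quaternion.imK_smul, Quaternion.re_im,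
        Quaternion.imI_im, Quaternion.imJ_im, Quaternion.imK_im, smul_eq_mul, mul_zero]
      have e : (0 : ℝ) ^ 2 + (c⁻¹ * x.1.imI) ^ 2 + (c⁻¹ * x.1.imJ) ^ 2 + (c⁻¹ * x.1.imK) ^ 2
          = (x.1.imI ^ 2 + x.1.imJ ^ 2 + x.1.imK ^ 2) / c ^ 2 := by
        field_simp
        ring
      rw [e, hc2, div_eq_one_iff_eq hpos.ne']
      linarith
    have hw1 : ‖w‖ = 1 := by
      have h := hwn
      rw [Quaternion.normSq_eq_norm_mul_self] at h
      nlinarith [norm_nonneg w]
    have hww : w * w = -1 := by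
      have h := (Quaternion.sq_eq_neg_normSq (a := w)).2 hwre
      rw [sq, hwn] at h
      simpa using h
    refine ⟨(⟨_, hI⟩, ⟨⟨w, mem_sphere_zero_iff_norm.2 hw1⟩, Subtype.ext hww⟩), ?_⟩
    apply Subtype.ext
    rw [pol_val]
    show Real.cos (Real.pi * (Real.arccos x.1.re / Real.pi)) • (1 : ℍ[ℝ]) +
      Real.sin (Real.pi * (Real.arccos x.1.re / Real.pi)) • w = x.1
    rw [hs, Real.cos_arccos hr1 hr2, Real.sin_arccos, ← hcdef, hw, smul_smul, mul_inv_cancel₀ hsq.ne', one_smul]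
    ext <;> simp

/-- Proof. The map `Φ : I × S2 → S`, `(s, v) ↦ pol s v`, is continuous and onto (for `x` of norm `1` take
`s = arccos (re x) / π` and `v = im x / ‖im x‖`, any `v` if `im x = 0`), from a compact to a
Hausdorff space, so it is a quotient map. Fibres: `pol s v = pol s' v'` gives `s = s'`
(`cos (π s)` is injective on `[0, 1]`), and `v = v'` unless `s = 0` or `s = 1` (`sin (π s) ≠ 0`). So `g`
is constant on the fibres and descends. -/
theorem desc (g : I × S2 → S) (hg : Continuous g) (h0 : ∀ v v', g (0, v) = g (0, v'))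
    (h1 : ∀ v v', g (1, v) = g (1, v')) : ∃ G : C(S, S), ∀ (s : I) (v : S2),
      G (pol s v) = g (s, v) := by
  have hΦ0 : Continuous fun z : I × S2 => ((z.1 : ℝ), z.2) :=
    (continuous_subtype_val.comp continuous_fst).prodMk continuous_snd
  have hΦ1 : (fun z : I × S2 => pol z.1 z.2) = (fun z : ℝ × S2 => pol z.1 z.2) ∘ fun z : I × S2 => ((z.1 : ℝ), z.2) :=
    rfl
  have hΦc : Continuous fun z : I × S2 => pol z.1 z.2 := by
    rw [hΦ1]
    exact pol_continuous.comp hΦ0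
  let Φ : C(I × S2, S) := ⟨fun z => pol z.1 z.2, hΦc⟩
  have hq : Topology.IsQuotientMap Φ :=
    (hΦc.isClosedMap).isQuotientMap hΦc ds_surj
  have hfac : Function.FactorsThrough (⟨g, hg⟩ : C(I × S2, S)) Φ := by
    rintro ⟨s, v⟩ ⟨s', v'⟩ h
    obtain ⟨h2, h3⟩ := ds_fib (s := s) (s' := s') (v := v) (v' := v') h
    subst h2
    show g (s, v) = g (s, v')
    rcases h3 with h3 | h3 | h3
    · rw [h3]
    · rw [h3]
      exact h0 v v'
    · rw [h3]
      exact h1 v v'
  refine ⟨hq.lift ⟨g, hg⟩ hfac, fun s v => ?_⟩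
  have h5 := congrArg (fun F : C(I × S2, S) => F (s, v)) (hq.lift_comp ⟨g, hg⟩ hfac)
  exact h5

end H72V
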