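import Mathlib
import Pool.Agent.Lib.H72V.G2
import Pool.Agent.Lib.H72V.D

/-! # H72V, part G3: odd maps of the 3-sphere are not null homotopic -/

set_option autoImplicit false

open scoped Quaternion unitInterval

noncomputable section

namespace H72V

private def g3L : ℍ[ℝ] ≃L[ℝ] (Fin 4 → ℝ) :=
  ContinuousLinearEquiv.ofFinrankEq (by rw [Quaternion.finrank_eq_four, Module.finrank_fin_fun])

private theorem g3_norm {y : Fin 4 → ℝ} (hy : y ≠ 0) :
    ‖g3L.symm y‖⁻¹ • g3L.symm y ∈ Metric.sphere (0 : ℍ[ℝ]) 1 := by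
  rw [mem_sphere_zero_iff_norm, norm_smul, norm_inv, norm_norm]
  refine inv_mul_cancel₀ ?_
  rw [norm_ne_zero_iff]
  exact fun h => hy (by simpa using h)

open Classical in
private def g3b (y : Fin 4 → ℝ) : S :=
  if h : y ≠ 0 then ⟨‖g3L.symm y‖⁻¹ • g3L.symm y, g3_norm h⟩ else 1

private theorem g3b_val {y : Fin 4 → ℝ} (hy : y ≠ 0) :
    (g3b y).1 = ‖g3L.symm y‖⁻¹ • g3L.symm y := by
  unfold g3b
  rw [dif_pos hy]

private theorem g3b_neg {y : Fin 4 → ℝ} (hy : y ≠ 0) : g3b (-y) = -g3b y := by
  apply Subtype.ext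
  rw [coe_neg, g3b_val hy, g3b_val (neg_ne_zero.2 hy), map_neg, norm_neg, smul_neg]

private theorem g3b_cont {y : Fin 4 → ℝ} (hy : y ≠ 0) : ContinuousAt g3b y := by
  rw [Topology.IsInducing.subtypeVal.continuousAt_iff]
  have h1 : ContinuousAt (fun y : Fin 4 → ℝ => ‖g3L.symm y‖⁻¹ • g3L.symm y) y := by
    have i1 : ContinuousAt (fun y : Fin 4 → ℝ => ‖g3L.symm y‖) y :=
      (continuous_norm.comp g3L.symm.continuous).continuousAt
    have i2 : ‖g3L.symm y‖ ≠ 0 := by
      rw [norm_ne_zero_iff]
      exact fun h => hy (by simpa using h)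
    exact (i1.inv₀ i2).smul g3L.symm.continuous.continuousAt
  refine h1.congr ?_
  filter_upwards [(isOpen_ne (x := (0 : Fin 4 → ℝ))).mem_nhds hy] with z hz
  exact (g3b_val hz).symm

private def g3s (y : Fin 4 → ℝ) : I := Set.projIcc 0 1 zero_le_one (2 - 2 * ∑ i, |y i|)

private theorem g3s_cont : Continuous g3s := by
  unfold g3s
  exact continuous_projIcc.comp (by fun_prop)

private theorem g3s_one {y : Fin 4 → ℝ} (h : ∑ i, |y i| ≤ 1 / 2) : g3s y = 1 :=
  Set.projIcc_of_right_le zero_le_one (by linarith)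

private theorem g3s_zero {y : Fin 4 → ℝ} (h : ∑ i, |y i| = 1) : g3s y = 0 :=
  Set.projIcc_of_le_left zero_le_one (by linarith)

/-- Proof. Let `H` be the homotopy, `H (0, x) = u x`, `H (1, x) = 1`. For `y : Fin 4 → ℝ`, `y ≠ 0`, let
`b y : S` be `y` (as a quaternion with the four coordinates) divided by its norm. Put
`G y = ` the four coordinates of `H (max 0 (1 - ∑ |y i|), b y)` for `y ≠ 0` and of `1` for `y = 0`.
It is continuous: away from `0` clear; at `0`: `H` is uniformly continuous (compact space), and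
`H (1, x) = 1`. For `∑ |y i| = 1` it is `u (b y)`, and `b (-y) = -b y`, so `G (-y) = -G y`. `G` has no
zero (its values are unit quaternions). `borsuk_ulam 4` gives a zero: contradiction. -/
theorem odd_not_null (u : C(S, S)) (hu : ∀ x, u (-x) = -u x) (h : u.Homotopic 1) : False := by
  obtain ⟨H⟩ := h
  have hG : Continuous fun y : Fin 4 → ℝ => g3L (H (g3s y, g3b y)).1 := by
    rw [continuous_iff_continuousAt]
    intro y
    by_cases hy : y = 0
    · have hev : (fun _ : Fin 4 → ℝ => g3L (1 : S).1) =ᶠ[nhds y]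
          fun y : Fin 4 → ℝ => g3L (H (g3s y, g3b y)).1 := by
        have hopen : IsOpen {z : Fin 4 → ℝ | ∑ i, |z i| < 1 / 2} :=
          isOpen_lt (by fun_prop) continuous_const
        have hmem : y ∈ {z : Fin 4 → ℝ | ∑ i, |z i| < 1 / 2} := by
          rw [hy]
          simp
        filter_upwards [hopen.mem_nhds hmem] with z hz
        have hz' : ∑ i, |z i| < 1 / 2 := hz
        rw [g3s_one hz'.le, H.apply_one]
        rfl
      exact continuousAt_const.congr hev
    · have h1 : ContinuousAt (fun y : Fin 4 → ℝ => H (g3s y, g3b y)) y :=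
        H.continuous.continuousAt.comp (g3s_cont.continuousAt.prodMk (g3b_cont hy))
      exact (g3L.continuous.comp continuous_subtype_val).continuousAt.comp h1
  obtain ⟨y, -, hy⟩ := borsuk_ulam 4 _ hG (by
    intro y hy
    have hy0 : y ≠ 0 := by
      rintro rfl
      simp at hy
    have hy' : ∑ i, |(-y) i| = 1 := by simpa using hy
    simp only [g3s_zero hy, g3s_zero hy', H.apply_zero, g3b_neg hy0, hu, coe_neg, map_neg])
  have h2 : (H (g3s y, g3b y)).1 = 0 := by simpa using hy
  have h3 := S_norm (H (g3s y, g3b y))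
  rw [h2, norm_zero] at h3
  exact zero_ne_one h3

end H72V
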