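import Mathlib
import Pool.Agent.Lib.H72V.D

/-! # H72V, part L1: circle valued functions on the 2-sphere have a logarithm -/

set_option autoImplicit false

open scoped Quaternion unitInterval

noncomputable section

namespace H72V

private theorem l1_V_sq (s t : ℝ) : H72R.V s t * H72R.V s t = -1 := by
  have h1 := Real.cos_sq_add_sin_sq s
  have h2 := Real.cos_sq_add_sin_sq t
  ext
  · simp [H72R.V]
    nlinarith [mul_comm (Real.sin s ^ 2) (Real.cos t ^ 2)]
  all_goals
    simp [H72R.V]
    try ring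

/-- Spherical coordinates. -/
private def l1V (x : ℝ × ℝ) : S2 :=
  ⟨⟨H72R.V x.1 x.2, mem_sphere_zero_iff_norm.2 (H72R.V_norm _ _)⟩, by
    apply Subtype.ext
    exact l1_V_sq _ _⟩

private theorem l1V_cont : Continuous l1V := by
  refine Continuous.subtype_mk (Continuous.subtype_mk ?_ _) _
  unfold H72R.V
  fun_prop

private theorem l1V_comp (x : ℝ × ℝ) : (l1V x).1.1.imI = Real.sin x.1 * Real.cos x.2 ∧
    (l1V x).1.1.imJ = Real.sin x.1 * Real.sin x.2 ∧ (l1V x).1.1.imK = Real.cos x.1 := by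
  refine ⟨?_, ?_, ?_⟩ <;> simp [l1V, H72R.V]

private theorem l1_surj (v : S2) : ∃ s ∈ Set.Icc 0 Real.pi, ∃ t ∈ Set.Icc (-Real.pi) Real.pi,
    l1V (s, t) = v := by
  have hre := re_pure v
  obtain ⟨a, ha⟩ : ∃ a, a = v.1.1.imI := ⟨_, rfl⟩
  obtain ⟨b, hb⟩ : ∃ b, b = v.1.1.imJ := ⟨_, rfl⟩
  obtain ⟨k, hk⟩ : ∃ k, k = v.1.1.imK := ⟨_, rfl⟩
  have hn : a ^ 2 + b ^ 2 + k ^ 2 = 1 := by
    have h : Quaternion.normSq v.1.1 = 1 := by
      rw [Quaternion.normSq_eq_norm_mul_self, S_norm, one_mul]
    rw [Quaternion.normSq_def', hre, ← ha, ← hb, ← hk] at h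
    linarith
  have hk3 : |k| ≤ 1 := by
    rw [abs_le_one_iff_mul_self_le_one]
    nlinarith [sq_nonneg a, sq_nonneg b]
  have hk2 := abs_le.1 hk3
  have hzn : ‖(⟨a, b⟩ : ℂ)‖ = Real.sin (Real.arccos k) := by
    rw [Real.sin_arccos, Complex.norm_def, Complex.normSq_mk]
    congr 1
    linarith
  have e1 : Real.sin (Real.arccos k) * Real.cos (Complex.arg ⟨a, b⟩) = a := by
    rw [← hzn]
    exact Complex.norm_mul_cos_arg _
  have e2 : Real.sin (Real.arccos k) * Real.sin (Complex.arg ⟨a, b⟩) = b := by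
    rw [← hzn]
    exact Complex.norm_mul_sin_arg _
  have e3 : Real.cos (Real.arccos k) = k := Real.cos_arccos hk2.1 hk2.2
  refine ⟨Real.arccos k, ⟨Real.arccos_nonneg _, Real.arccos_le_pi _⟩, Complex.arg ⟨a, b⟩,
    ⟨(Complex.neg_pi_lt_arg _).le, Complex.arg_le_pi _⟩, ?_⟩
  apply Subtype.ext
  apply Subtype.ext
  obtain ⟨h1, h2, h3⟩ := l1V_comp (Real.arccos k, Complex.arg ⟨a, b⟩)
  apply Quaternion.ext
  · rw [hre]
    exact re_pure _
  · rw [h1, ← ha]
    exact e1
  · rw [h2, ← hb]
    exact e2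
  · rw [h3, ← hk]
    exact e3

/-- The rectangle. -/
private abbrev L1K : Type := Set.Icc (0 : ℝ) Real.pi × Set.Icc (-Real.pi) Real.pi

/-- Proof. Let `Vm (s, t) : S2` be the spherical coordinates (the quaternion
`sin s cos t i + sin s sin t j + cos s k` = `H72R.V s t`, which has square `-1`). `e (s, t) = c (Vm (s, t))`
commutes with `i`, so `H72R.ce_lift` on the plane `ℝ × ℝ` gives a continuous `α : ℝ × ℝ → ℝ` with
`e = ce ∘ α`. `H72R.periodic_lift` gives `α (s, t + 2π) = α (s, t)`; `α (0, t)` and `α (π, t)` do not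
depend on `t` (`H72R.const_of_cos` in one variable). The map `[0, π] × [0, 2π] → S2`,
`(s, t) ↦ V s t`, is continuous and onto from a compact to a Hausdorff space, so it is a quotient
map, and `α` is constant on its fibres (`V s t = V s' t'` with both in the rectangle implies `s = s'`
and [`sin s = 0` or `t = t'` or `{t, t'} = {0, 2π}`]); so `α` descends to a continuous `β`. -/
theorem log_S2 (c : C(S2, S)) (hc : ∀ v, c v * si = si * c v) :
    ∃ β : C(S2, ℝ), ∀ v, (c v).1 = H72R.ce (β v) := by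
  have hpi := Real.pi_pos
  obtain ⟨α, hα, he⟩ := H72R.ce_lift (X := ℝ × ℝ) (fun x => (c (l1V x)).1)
    (continuous_subtype_val.comp (c.continuous.comp l1V_cont)) (fun x => S_norm _) (fun x => by
      have h := congrArg Subtype.val (hc (l1V x))
      exact h.symm)
  have hVp : ∀ s t, l1V (s, t + 2 * Real.pi) = l1V (s, t) := by
    intro s t
    apply Subtype.ext
    apply Subtype.ext
    show H72R.V s (t + 2 * Real.pi) = H72R.V s t
    unfold H72R.V
    rw [Real.cos_add_two_pi, Real.sin_add_two_pi]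
  have hV0 : ∀ s, Real.sin s = 0 → ∀ t, l1V (s, t) = l1V (s, 0) := by
    intro s hs t
    apply Subtype.ext
    apply Subtype.ext
    show H72R.V s t = H72R.V s 0
    unfold H72R.V
    rw [hs]
    simp
  have hper := H72R.periodic_lift α hα (fun s t => (c (l1V (s, t))).1) (fun s t => he (s, t))
    (fun s t => by simp only [hVp]) (fun t => by rw [hV0 0 Real.sin_zero t])
  have hpole : ∀ s, Real.sin s = 0 → ∀ t, α (s, t) = α (s, 0) := by
    intro s hs t
    have h := H72R.const_of_cos (fun t : ℝ => α (s, t) - α (s, 0)) (by fun_prop) 1 (by norm_num)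
      (fun t => by
        apply H72R.ce_inj
        rw [← he (s, t), ← he (s, 0), hV0 s hs t]) t 0
    simp only [sub_self] at h
    linarith
  let φ : C(L1K, S2) := ⟨fun x => l1V (x.1.1, x.2.1), l1V_cont.comp (by fun_prop)⟩
  have hsurj : Function.Surjective φ := by
    intro v
    obtain ⟨s, hs, t, ht, h⟩ := l1_surj v
    exact ⟨(⟨s, hs⟩, ⟨t, ht⟩), h⟩
  have hq : Topology.IsQuotientMap φ :=
    φ.continuous.isClosedMap.isQuotientMap φ.continuous hsurj
  let A : C(L1K, ℝ) := ⟨fun x => α (x.1.1, x.2.1), hα.comp (by fun_prop)⟩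
  have hfac : Function.FactorsThrough A φ := by
    rintro ⟨⟨s, hs⟩, ⟨t, ht⟩⟩ ⟨⟨s', hs'⟩, ⟨t', ht'⟩⟩ h
    show α (s, t) = α (s', t')
    have hv : l1V (s, t) = l1V (s', t') := h
    obtain ⟨a1, a2, a3⟩ := l1V_comp (s, t)
    obtain ⟨b1, b2, b3⟩ := l1V_comp (s', t')
    rw [hv] at a1 a2 a3
    have hcos : Real.cos s = Real.cos s' := a3.symm.trans b3
    have hss : s = s' := Real.injOn_cos hs hs' hcos
    subst hss
    by_cases h0 : Real.sin s = 0
    · rw [hpole s h0 t, hpole s h0 t']
    have c1 : Real.cos t = Real.cos t' := mul_left_cancel₀ h0 (a1.symm.trans b1)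
    have c2 : Real.sin t = Real.sin t' := mul_left_cancel₀ h0 (a2.symm.trans b2)
    have c3 : Real.cos (t - t') = 1 := by
      rw [Real.cos_sub, c1, c2]
      have := Real.cos_sq_add_sin_sq t'
      nlinarith
    obtain ⟨n, hn⟩ := (Real.cos_eq_one_iff _).1 c3
    have hn1 : (n : ℝ) ≤ 1 := by
      by_contra hcon
      rw [not_le] at hcon
      nlinarith [ht.2, ht'.1]
    have hn2 : (-1 : ℝ) ≤ n := by
      by_contra hcon
      rw [not_le] at hcon
      nlinarith [ht.1, ht'.2]
    have hn1' : n ≤ 1 := by exact_mod_cast hn1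
    have hn2' : -1 ≤ n := by exact_mod_cast hn2
    have hcases : n = -1 ∨ n = 0 ∨ n = 1 := by omega
    rcases hcases with rfl | rfl | rfl
    · have : t' = t + 2 * Real.pi := by
        push_cast at hn
        linarith
      rw [this, hper]
    · have : t' = t := by
        push_cast at hn
        linarith
      rw [this]
    · have : t = t' + 2 * Real.pi := by
        push_cast at hn
        linarith
      rw [this, hper]
  refine ⟨hq.lift A hfac, fun v => ?_⟩
  obtain ⟨x, rfl⟩ := hsurj v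
  have h1 : (hq.lift A hfac) (φ x) = A x := by
    have := DFunLike.congr_fun (hq.lift_comp A hfac) x
    exact this
  rw [h1]
  exact he _

end H72V
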