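import Mathlib
import Pool.Agent.Lib.H72V.D

/-! # H72V, part N1: maps which are never antipodal are homotopic -/

set_option autoImplicit false

open scoped Quaternion unitInterval

noncomputable section

namespace H72V

private theorem n1_ne (a b : S) (h : a ≠ -b) (s : ℝ) (h0 : 0 ≤ s) (h1 : s ≤ 1) :
    (1 - s) • a.1 + s • b.1 ≠ 0 := by
  intro h2
  have h3 : (1 - s) • a.1 = -(s • b.1) := eq_neg_of_add_eq_zero_left h2
  have h4 := congrArg norm h3
  rw [norm_neg, norm_smul, norm_smul, S_norm, S_norm, mul_one, mul_one, Real.norm_eq_abs,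
    Real.norm_eq_abs, abs_of_nonneg (by linarith), abs_of_nonneg h0] at h4
  have h5 : s = 1 / 2 := by linarith
  apply h
  apply Subtype.ext
  rw [coe_neg]
  rw [h5] at h3
  have h6 : ((1 : ℝ) - 1 / 2) = 1 / 2 := by norm_num
  rw [h6, ← smul_neg] at h3
  have h7 := congrArg (fun z : ℍ[ℝ] => (2 : ℝ) • z) h3
  simp only [smul_smul] at h7
  norm_num at h7
  exact h7

/-- Proof. The map `(s, y) ↦ (1 - s) f y + s g y` (in the quaternions, `s` in `[0, 1]`) has no zero:
if `(1 - s) f y = -s g y`, then the norms give `1 - s = s`, `s = 1/2`, and `f y = -g y`, excluded.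
Divide by its norm. This is a homotopy from `f` to `g`. (Build a `ContinuousMap.Homotopy`; the values
lie in `S` by `mem_sphere_zero_iff_norm`.) -/
theorem nonanti {Y : Type*} [TopologicalSpace Y] (f g : C(Y, S)) (h : ∀ y, f y ≠ -g y) :
    f.Homotopic g := by
  let r : I × Y → ℍ[ℝ] := fun q => (1 - (q.1 : ℝ)) • (f q.2).1 + (q.1 : ℝ) • (g q.2).1
  have hr : Continuous r := by
    have hf : Continuous fun q : I × Y => (f q.2).1 :=
      continuous_subtype_val.comp (f.continuous.comp continuous_snd)
    have hg : Continuous fun q : I × Y => (g q.2).1 :=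
      continuous_subtype_val.comp (g.continuous.comp continuous_snd)
    have hs : Continuous fun q : I × Y => (q.1 : ℝ) :=
      continuous_subtype_val.comp continuous_fst
    exact ((continuous_const.sub hs).smul hf).add (hs.smul hg)
  have hr0 : ∀ q, r q ≠ 0 := fun q => n1_ne (f q.2) (g q.2) (h q.2) q.1 q.1.2.1 q.1.2.2
  refine ⟨{ toFun := fun q => ⟨‖r q‖⁻¹ • r q, by
              rw [mem_sphere_zero_iff_norm, norm_smul, norm_inv, norm_norm]
              exact inv_mul_cancel₀ (norm_ne_zero_iff.2 (hr0 q))⟩
            continuous_toFun := by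
              refine Continuous.subtype_mk ?_ _
              exact (hr.norm.inv₀ fun q => norm_ne_zero_iff.2 (hr0 q)).smul hr
            map_zero_left := fun y => ?_
            map_one_left := fun y => ?_ }⟩
  · apply Subtype.ext
    show ‖r (0, y)‖⁻¹ • r (0, y) = (f y).1
    have h1 : r (0, y) = (f y).1 := by
      show (1 - ((0 : I) : ℝ)) • (f y).1 + ((0 : I) : ℝ) • (g y).1 = (f y).1
      simp
    rw [h1, S_norm, inv_one, one_smul]
  · apply Subtype.ext
    show ‖r (1, y)‖⁻¹ • r (1, y) = (g y).1
    have h1 : r (1, y) = (g y).1 := by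
      show (1 - ((1 : I) : ℝ)) • (f y).1 + ((1 : I) : ℝ) • (g y).1 = (g y).1
      simp
    rw [h1, S_norm, inv_one, one_smul]

private theorem n1_si : si ≠ -1 := by
  intro h
  have h1 : H72R.qi = -1 := by
    have h2 := congrArg Subtype.val h
    rw [coe_neg, coe_one] at h2
    exact h2
  have h3 := H72R.qi_sq
  rw [h1] at h3
  have h4 : (1 : ℍ[ℝ]) = -1 := by
    rw [← h3]
    simp
  have h5 := congrArg (fun z : ℍ[ℝ] => z.re) h4
  simp at h5
  linarith

/-- Constant maps are homotopic to the constant `1`. Proof: if `c ≠ -1` use `nonanti`; if `c = -1` go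
through the constant `si` (`-1 ≠ -si`, `si ≠ -1`, compare real parts or coordinates). -/
theorem const_hom {Y : Type*} [TopologicalSpace Y] (c : S) :
    (ContinuousMap.const Y c).Homotopic (1 : C(Y, S)) := by
  by_cases hc : c = -1
  · have h1 : (ContinuousMap.const Y c).Homotopic (ContinuousMap.const Y si) := by
      apply nonanti
      intro y
      show c ≠ -si
      rw [hc]
      intro h
      have h2 : si = 1 := (neg_injective h).symm
      have h3 : H72R.qi = 1 := by
        have h4 := congrArg Subtype.val h2
        exact h4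
      have h5 := H72R.qi_sq
      rw [h3] at h5
      have h6 := congrArg (fun z : ℍ[ℝ] => z.re) h5
      simp at h6
      linarith
    refine h1.trans ?_
    apply nonanti
    intro y
    show si ≠ -1
    exact n1_si
  · apply nonanti
    intro y
    show c ≠ -1
    exact hc

end H72V
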