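import Mathlib
import Pool.Agent.Lib.H72V.N1

/-! # H72V, part N3: doubling the angle -/

set_option autoImplicit false

open scoped Quaternion unitInterval

noncomputable section

namespace H72V

private theorem n3_sq {x : S} (h : x.1.re = 0) : x * x = -1 := by
  have h1 : star x.1 = -x.1 := Quaternion.star_eq_neg.2 h
  have h2 : x.1 * star x.1 = 1 := H72R.mul_star_one (S_norm x)
  rw [h1, mul_neg] at h2
  apply Subtype.ext
  rw [coe_mul, coe_neg, coe_one, ← h2, neg_neg]

private theorem n3_re (s : ℝ) (v : S2) : (pol s v).1.re = Real.cos (Real.pi * s) := by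
  rw [pol_val, Quaternion.re_add, Quaternion.re_smul, Quaternion.re_smul, re_pure,
    Quaternion.re_one]
  simp

/-- Continuity. On `re x ≥ 0` the map is `x ↦ x * x`, on `re x ≤ 0` it is `-1`; for `re x = 0`,
`‖x‖ = 1` one has `star x = -x`, so `x * x = -x * star x = -1` and the two agree
(`Continuous.if_le` or `Continuous.piecewise`). -/
theorem dbl_continuous : Continuous dblFun := by
  have hre : Continuous fun x : S => x.1.re :=
    Quaternion.continuous_re.comp continuous_subtype_val
  exact Continuous.if_le (continuous_id.mul continuous_id) continuous_const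
    continuous_const hre (fun x hx => n3_sq hx.symm)

/-- The doubling map. -/
def dbl : C(S, S) := ⟨dblFun, dbl_continuous⟩

/-- The doubling map is homotopic to the identity: `x ≠ -dblFun x` (if `re x ≥ 0`, `x = -x * x` gives
`x = -1`; if `re x < 0`, `x = 1` is excluded), then `nonanti`. -/
theorem id_dbl : (ContinuousMap.id S).Homotopic dbl := by
  refine nonanti _ _ fun y hy => ?_
  have h1 : y = -dblFun y := hy
  by_cases h : 0 ≤ y.1.re
  · have h2 : dblFun y = y * y := if_pos h
    rw [h2] at h1
    have h3 : y * 1 = y * (-y) := by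
      rw [mul_one]
      apply Subtype.ext
      rw [coe_mul, coe_neg, mul_neg]
      have := congrArg Subtype.val h1
      rw [coe_neg, coe_mul] at this
      exact this
    have h4 : (1 : S) = -y := mul_left_cancel h3
    have h5 := congrArg (fun z : S => z.1.re) h4
    simp only [coe_neg, coe_one, Quaternion.re_neg, Quaternion.re_one] at h5
    linarith
  · have h2 : dblFun y = -1 := if_neg h
    rw [h2] at h1
    have h5 := congrArg (fun z : S => z.1.re) h1
    simp only [coe_neg, coe_one, Quaternion.re_neg, Quaternion.re_one] at h5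
    exact h (by rw [h5]; norm_num)

/-- For `0 ≤ s ≤ 1/2`: `cos (π s) ≥ 0` and `(cos a + sin a v) ^ 2 = cos 2a + sin 2a v` as
`v * v = -1`. -/
theorem dbl_pol_le (s : ℝ) (v : S2) (h0 : 0 ≤ s) (h1 : s ≤ 1 / 2) :
    dbl (pol s v) = pol (2 * s) v := by
  have hc : 0 ≤ Real.cos (Real.pi * s) := by
    apply Real.cos_nonneg_of_neg_pi_div_two_le_of_le
    · nlinarith [Real.pi_pos]
    · nlinarith [Real.pi_pos]
  have h2 : dbl (pol s v) = pol s v * pol s v := if_pos (by rw [n3_re]; exact hc)
  rw [h2]
  apply Subtype.ext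
  have hv : v.1.1 * v.1.1 = -1 := congrArg Subtype.val v.2
  rw [coe_mul, pol_val, pol_val]
  have e : Real.pi * (2 * s) = 2 * (Real.pi * s) := by ring
  rw [e, Real.cos_two_mul', Real.sin_two_mul]
  set c := Real.cos (Real.pi * s)
  set d := Real.sin (Real.pi * s)
  have h3 : (c • (1 : ℍ[ℝ]) + d • v.1.1) * (c • (1 : ℍ[ℝ]) + d • v.1.1)
      = (c * c) • (1 : ℍ[ℝ]) + (2 * d * c) • v.1.1 + (d * d) • (v.1.1 * v.1.1) := by
    simp only [add_mul, mul_add, smul_mul_assoc, mul_smul_comm, one_mul, mul_one, smul_smul]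
    module
  rw [h3, hv]
  module

/-- For `1/2 ≤ s ≤ 1`: `cos (π s) ≤ 0` (for `s = 1/2` both definitions of `dblFun` give `-1`). -/
theorem dbl_pol_ge (s : ℝ) (v : S2) (h0 : 1 / 2 ≤ s) (h1 : s ≤ 1) : dbl (pol s v) = -1 := by
  have hc : Real.cos (Real.pi * s) ≤ 0 := by
    apply Real.cos_nonpos_of_pi_div_two_le_of_le
    · nlinarith [Real.pi_pos]
    · nlinarith [Real.pi_pos]
  by_cases h : 0 ≤ (pol s v).1.re
  · have h2 : dbl (pol s v) = pol s v * pol s v := if_pos h
    rw [h2]
    apply n3_sq
    rw [n3_re] at h ⊢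
    linarith
  · exact if_neg h

end H72V
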