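import Mathlib
import Pool.Agent.Lib.H72V.D

/-! # H72V, part T1: lifting a homotopy of pure quaternions -/

set_option autoImplicit false

open scoped Quaternion unitInterval

noncomputable section

namespace H72V

/-- The grid points `min k N / N`. -/
private def t1c (N k : ℕ) : I :=
  ⟨((min k N : ℕ) : ℝ) / N, by
    constructor
    · positivity
    · rcases Nat.eq_zero_or_pos N with h | h
      · rw [h]
        simp
      · rw [div_le_one (by exact_mod_cast h)]
        exact_mod_cast min_le_right k N⟩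

private theorem t1c_zero (N : ℕ) : t1c N 0 = 0 := by
  apply Subtype.ext
  change ((min 0 N : ℕ) : ℝ) / N = 0
  simp

private theorem t1c_self {N : ℕ} (hN : 0 < N) : t1c N N = 1 := by
  apply Subtype.ext
  change ((min N N : ℕ) : ℝ) / N = 1
  rw [min_self]
  have h : (N : ℝ) ≠ 0 := by
    have : (0 : ℝ) < N := by exact_mod_cast hN
    exact this.ne'
  exact div_self h

private theorem t1c_dist {N : ℕ} (hN : 0 < N) (k : ℕ) : |(t1c N k : ℝ) - (t1c N (k + 1) : ℝ)| ≤ 1 / N := by
  change |((min k N : ℕ) : ℝ) / N - ((min (k + 1) N : ℕ) : ℝ) / N| ≤ 1 / N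
  have hN' : (0 : ℝ) < N := by exact_mod_cast hN
  rcases lt_or_ge k N with h | h
  · rw [min_eq_left h.le, min_eq_left (Nat.succ_le_of_lt h)]
    push_cast
    rw [← sub_div, abs_div, abs_of_pos hN']
    have : (k : ℝ) - (k + 1) = -1 := by ring
    rw [this, abs_neg, abs_one]
  · rw [min_eq_right h, min_eq_right (by omega), sub_self, abs_zero]
    positivity

/-- Proof. `Q` is uniformly continuous (compact metric space). Take `N > 0` such that for `|s - s'| ≤ 1/N`
and all `y` the distance of `Q (s, y)` and `Q (s', y)` is `< 2`. Put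
`g s y k = Q (s * min k N / N, y)` (as a quaternion; `min` only makes all `k` admissible) and
`M (s, y) = H72R.tel (g s y) N`. By `H72R.tel_norm` the norm is `1`, by `H72R.tel_mul`
`M (s, y) * Q (0, y) = Q (s, y) * M (s, y)`, by `H72R.tel_const` `M (0, y) = 1`, and
`H72R.tel_continuous` gives continuity (compare `H72R.L`, `H72R.exists_good`, `L_norm`, `L_mul`,
`L_continuous` in Lib/H72R/C.lean, which do the same for a special `Q`). -/
theorem lift_homotopy {Y : Type*} [MetricSpace Y] [CompactSpace Y] (Q : C(I × Y, S))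
    (hQ : ∀ z, Q z * Q z = -1) : ∃ M : C(I × Y, S), (∀ y, M (0, y) = 1) ∧
      ∀ s y, M (s, y) * Q (0, y) = Q (s, y) * M (s, y) := by
  have hu := CompactSpace.uniformContinuous_of_continuous Q.continuous
  rw [Metric.uniformContinuous_iff] at hu
  obtain ⟨δ, hδ, hδQ⟩ := hu 2 (by norm_num)
  obtain ⟨N, hN⟩ := exists_nat_gt (1 / δ)
  have hN0 : (0 : ℝ) < N := lt_trans (by positivity) hN
  have hN1 : 0 < N := by exact_mod_cast hN0
  have hNδ : 1 / (N : ℝ) < δ := by
    rw [div_lt_iff₀ hδ] at hN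
    rw [div_lt_iff₀ hN0]
    linarith
  obtain ⟨g, hgdef⟩ : ∃ g : I × Y → ℕ → ℍ[ℝ], g = fun z k => (Q (z.1 * t1c N k, z.2)).1 := ⟨_, rfl⟩
  have hgsq : ∀ z k, g z k * g z k = -1 := by
    intro z k
    rw [hgdef]
    exact congrArg Subtype.val (hQ (z.1 * t1c N k, z.2))
  have hgd : ∀ z k, ‖g z k - g z (k + 1)‖ < 2 := by
    intro z k
    have h1 : dist ((z.1 * t1c N k, z.2) : I × Y) (z.1 * t1c N (k + 1), z.2) < δ := by
      rw [Prod.dist_eq, dist_self]
      apply max_lt _ hδ
      refine lt_of_le_of_lt ?_ hNδ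
      change |(z.1 : ℝ) * (t1c N k : ℝ) - (z.1 : ℝ) * (t1c N (k + 1) : ℝ)| ≤ 1 / (N : ℝ)
      rw [← mul_sub, abs_mul, abs_of_nonneg z.1.2.1]
      calc (z.1 : ℝ) * |(t1c N k : ℝ) - (t1c N (k + 1) : ℝ)| ≤ 1 * |(t1c N k : ℝ) - (t1c N (k + 1) : ℝ)| :=
            mul_le_mul_of_nonneg_right z.1.2.2 (abs_nonneg _)
        _ ≤ 1 / N := by
            rw [one_mul]
            exact t1c_dist hN1 k
    have h2 := hδQ h1
    rw [hgdef, ← dist_eq_norm]
    exact h2
  have hgc : ∀ k, Continuous fun z => g z k := by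
    intro k
    rw [hgdef]
    exact continuous_subtype_val.comp
      (Q.continuous.comp ((continuous_fst.mul continuous_const).prodMk continuous_snd))
  refine ⟨⟨fun z => ⟨H72R.tel (g z) N, mem_sphere_zero_iff_norm.2 (H72R.tel_norm _ (hgsq z) (hgd z) N)⟩,
    Continuous.subtype_mk (H72R.tel_continuous g hgsq hgd hgc N) _⟩, ?_, ?_⟩
  · intro y
    apply Subtype.ext
    change H72R.tel (g (0, y)) N = 1
    apply H72R.tel_const _ (hgsq _)
    intro k
    rw [hgdef]
    have h1 : ∀ k, ((0 : I) * t1c N k, y) = ((0 : I), y) := fun k => by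
      rw [zero_mul]
    change (Q ((0 : I) * t1c N k, y)).1 = (Q ((0 : I) * t1c N 0, y)).1
    rw [h1, h1]
  · intro s y
    apply Subtype.ext
    change H72R.tel (g (s, y)) N * (Q (0, y)).1 = (Q (s, y)).1 * H72R.tel (g (s, y)) N
    have h1 := H72R.tel_mul (g (s, y)) (hgsq _) N
    have h2 : g (s, y) 0 = (Q (0, y)).1 := by
      rw [hgdef]
      change (Q (s * t1c N 0, y)).1 = (Q (0, y)).1
      rw [t1c_zero, mul_zero]
    have h3 : g (s, y) N = (Q (s, y)).1 := by
      rw [hgdef]
      change (Q (s * t1c N N, y)).1 = (Q (s, y)).1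
      rw [t1c_self hN1, mul_one]
    rw [h2, h3] at h1
    exact h1

end H72V
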