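import Mathlib
import Pool.Agent.Lib.H72V.T1
import Pool.Agent.Lib.H72V.L1
import Pool.Agent.Lib.H72V.DS
import Pool.Agent.Lib.H72V.N3

/-! # H72V, part HL: every map to the 2-sphere is, up to doubling, conjugate to i -/

set_option autoImplicit false

open scoped Quaternion unitInterval

noncomputable section

namespace H72V

private theorem hl_star_im (p : ℍ[ℝ]) : star p.im = -p.im := by
  ext <;> simp

private theorem hl_surj (x : S) : ∃ (s : I) (v : S2), pol s v = x := by
  have hn : x.1.re ^ 2 + ‖x.1.im‖ ^ 2 = 1 := by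
    have h : Quaternion.normSq x.1 = 1 := by
      rw [Quaternion.normSq_eq_norm_mul_self, S_norm, one_mul]
    have h2 : Quaternion.normSq x.1.im = ‖x.1.im‖ ^ 2 := by
      rw [Quaternion.normSq_eq_norm_mul_self, sq]
    rw [← h2, Quaternion.normSq_def']
    rw [Quaternion.normSq_def'] at h
    simp only [Quaternion.re_im, Quaternion.imI_im, Quaternion.imJ_im, Quaternion.imK_im]
    linarith
  have hre : x.1.re ≤ 1 ∧ -1 ≤ x.1.re := by
    constructor <;> nlinarith [sq_nonneg ‖x.1.im‖, sq_nonneg (x.1.re)]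
  have hcos : Real.cos (Real.arccos x.1.re) = x.1.re := Real.cos_arccos hre.2 hre.1
  have hsin : Real.sin (Real.arccos x.1.re) = ‖x.1.im‖ := by
    rw [Real.sin_arccos]
    have : 1 - x.1.re ^ 2 = ‖x.1.im‖ ^ 2 := by linarith
    rw [this, Real.sqrt_sq (norm_nonneg _)]
  obtain ⟨v, hv⟩ : ∃ v : S2, ‖x.1.im‖ • v.1.1 = x.1.im := by
    by_cases h : x.1.im = 0
    · refine ⟨⟨si, Subtype.ext H72R.qi_sq⟩, ?_⟩
      rw [h, norm_zero, zero_smul]
    · have h1 : H72R.nrm x.1.im * H72R.nrm x.1.im = -1 := H72R.nrm_sq (hl_star_im _) h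
      have h2 : ‖H72R.nrm x.1.im‖ = 1 := by
        have h4 : ‖H72R.nrm x.1.im * H72R.nrm x.1.im‖ = 1 := by rw [h1]; simp
        rw [norm_mul] at h4
        nlinarith [norm_nonneg (H72R.nrm x.1.im)]
      refine ⟨⟨⟨H72R.nrm x.1.im, mem_sphere_zero_iff_norm.2 h2⟩, Subtype.ext h1⟩, ?_⟩
      show ‖x.1.im‖ • (‖x.1.im‖⁻¹ • x.1.im) = x.1.im
      rw [smul_smul, mul_inv_cancel₀ (norm_ne_zero_iff.2 h), one_smul]
  have hpi := Real.pi_pos
  refine ⟨⟨Real.arccos x.1.re / Real.pi, ?_, ?_⟩, v, ?_⟩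
  · exact div_nonneg (Real.arccos_nonneg _) hpi.le
  · rw [div_le_one hpi]
    exact Real.arccos_le_pi _
  · apply Subtype.ext
    rw [pol_val]
    show Real.cos (Real.pi * (Real.arccos x.1.re / Real.pi)) • (1 : ℍ[ℝ])
      + Real.sin (Real.pi * (Real.arccos x.1.re / Real.pi)) • v.1.1 = x.1
    rw [mul_div_cancel₀ _ hpi.ne', hcos, hsin, hv]
    ext <;> simp

private theorem hl_ce_norm (t : ℝ) : ‖H72R.ce t‖ = 1 := by
  have h : Quaternion.normSq (H72R.ce t) = 1 := by
    rw [Quaternion.normSq_def']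
    simp only [H72R.ce_re, H72R.ce_i, H72R.ce_j, H72R.ce_k]
    have := Real.cos_sq_add_sin_sq t
    nlinarith
  rw [Quaternion.normSq_eq_norm_mul_self] at h
  nlinarith [norm_nonneg (H72R.ce t)]

private def hlce (t : ℝ) : S := ⟨H72R.ce t, mem_sphere_zero_iff_norm.2 (hl_ce_norm t)⟩

private theorem hlce_cont : Continuous hlce := by
  refine Continuous.subtype_mk ?_ _
  have h : H72R.ce = fun t => Real.cos t • (1 : ℍ[ℝ]) + Real.sin t • H72R.qi := by
    funext t
    ext <;> simp
  rw [h]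
  exact (Real.continuous_cos.smul continuous_const).add
    (Real.continuous_sin.smul continuous_const)

private theorem hlce_zero : hlce 0 = 1 := by
  apply Subtype.ext
  show H72R.ce 0 = 1
  ext <;> simp

private theorem hlce_comm (t : ℝ) : hlce t * si = si * hlce t := by
  apply Subtype.ext
  show H72R.ce t * H72R.qi = H72R.qi * H72R.ce t
  ext <;> simp

private theorem hl_pol_zero (v : S2) : pol 0 v = 1 := by
  apply Subtype.ext
  rw [pol_val, mul_zero, Real.cos_zero, Real.sin_zero, one_smul, zero_smul, add_zero]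
  rfl

private theorem hl_pol_one (v : S2) : pol 1 v = -1 := by
  apply Subtype.ext
  rw [pol_val, mul_one, Real.cos_pi, Real.sin_pi, zero_smul, add_zero, neg_smul, one_smul]
  rfl

private def hlr (s : I) : I := Set.projIcc (0 : ℝ) 1 zero_le_one (2 * (s : ℝ))

private theorem hlr_cont : Continuous hlr :=
  continuous_projIcc.comp (continuous_const.mul continuous_subtype_val)

private theorem hlr_val {s : I} (h : (s : ℝ) ≤ 1 / 2) : ((hlr s : I) : ℝ) = 2 * (s : ℝ) := by
  unfold hlr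
  rw [Set.projIcc_of_mem zero_le_one ⟨by linarith [s.2.1], by linarith⟩]

private theorem hlr_one {s : I} (h : 1 / 2 ≤ (s : ℝ)) : hlr s = 1 := by
  unfold hlr
  rw [Set.projIcc_of_right_le zero_le_one (by linarith)]
  rfl

/-- Proof. Apply `lift_homotopy` with `Y = S2` to `Q (s, v) = q (pol s v)`: `M (0, v) = 1` and
`M (s, v) q(1) = q (pol s v) M (s, v)` (`pol 0 v = 1`). `H72R.exists_conj` gives a unit `u` with
`u i = q(1) u`. Put `W (s, v) = M (s, v) u`, so `W (s, v) i = q (pol s v) W (s, v)`. Fix `v0 : S2` and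
`w = W (1, v0)`; `pol 1 v = -1`, so `c v = w⁻¹ W (1, v)` commutes with `i`
(compare `H72R.comm_of`), and `log_S2` gives `c v = ce (β v)`. Define `g (s, v) = W (2 s, v)` for
`s ≤ 1/2` and `g (s, v) = w ce (β v (2 - 2 s))` for `s ≥ 1/2`; continuous (they agree at `1/2`),
`g (0, v) = u`, `g (1, v) = w ce 0 = w` do not depend on `v`. `desc` gives `f` with
`f (pol s v) = g (s, v)`. For `s ≤ 1/2`: `f i = q (pol (2 s) v) f = q (dbl (pol s v)) f` by
`dbl_pol_le`; for `s ≥ 1/2`: `g i = w i ce(..) = q(-1) g` (as `w i = q(-1) w` and `ce` commutes with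
`i`), and `dbl (pol s v) = -1` by `dbl_pol_ge`. Every `x : S` is `pol s v` with `s` in `[0, 1]`
(prove it here or take it from `DS`). -/
theorem hopf_lift (q : C(S, S)) (hq : ∀ x, q x * q x = -1) :
    ∃ f : C(S, S), ∀ x, f x * si = q (dbl x) * f x := by
  have hQc : Continuous fun z : I × S2 => q (pol z.1 z.2) := by
    refine q.continuous.comp ?_
    have h : Continuous fun z : I × S2 => ((z.1 : ℝ), z.2) :=
      (continuous_subtype_val.comp continuous_fst).prodMk continuous_snd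
    exact pol_continuous.comp h
  obtain ⟨M, hM0, hM⟩ := lift_homotopy (Y := S2) ⟨fun z : I × S2 => q (pol z.1 z.2), hQc⟩
    (fun z => hq _)
  have hM' : ∀ (s : I) (v : S2), M (s, v) * q 1 = q (pol s v) * M (s, v) := by
    intro s v
    have h := hM s v
    have h1 : (⟨fun z : I × S2 => q (pol z.1 z.2), hQc⟩ : C(I × S2, S)) (0, v) = q 1 := by
      show q (pol ((0 : I) : ℝ) v) = q 1
      rw [show ((0 : I) : ℝ) = 0 from rfl, hl_pol_zero]
    rw [h1] at h
    exact h
  obtain ⟨u, hu⟩ : ∃ u : S, u * si = q 1 * u := by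
    obtain ⟨u, h1, h2⟩ := H72R.exists_conj (q 1).1 (congrArg Subtype.val (hq 1))
    exact ⟨⟨u, mem_sphere_zero_iff_norm.2 h1⟩, Subtype.ext h2⟩
  have hW : ∀ (s : I) (v : S2), M (s, v) * u * si = q (pol s v) * (M (s, v) * u) := by
    intro s v
    rw [mul_assoc, hu, ← mul_assoc, hM', mul_assoc]
  have hW1 : ∀ v : S2, M (1, v) * u * si = q (-1) * (M (1, v) * u) := by
    intro v
    have h := hW 1 v
    rw [show ((1 : I) : ℝ) = 1 from rfl, hl_pol_one] at h
    exact h
  obtain ⟨w, hw, hwv⟩ : ∃ w : S, w * si = q (-1) * w ∧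
      ∀ v : S2, (w⁻¹ * (M (1, v) * u)) * si = si * (w⁻¹ * (M (1, v) * u)) := by
    refine ⟨M (1, ⟨si, Subtype.ext H72R.qi_sq⟩) * u, hW1 _, fun v => ?_⟩
    have h1 := hW1 ⟨si, Subtype.ext H72R.qi_sq⟩
    generalize M (1, ⟨si, Subtype.ext H72R.qi_sq⟩) * u = w at h1
    have h2 : w⁻¹ * q (-1) = si * w⁻¹ := by
      rw [eq_mul_inv_iff_mul_eq, mul_assoc, ← h1, inv_mul_cancel_left]
    rw [mul_assoc, hW1, ← mul_assoc, h2, mul_assoc]
  have hcc : Continuous fun v : S2 => w⁻¹ * (M (1, v) * u) := by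
    have h : Continuous fun v : S2 => M (1, v) :=
      M.continuous.comp (continuous_const.prodMk continuous_id)
    exact continuous_const.mul (h.mul continuous_const)
  obtain ⟨β, hβ⟩ := log_S2 ⟨fun v : S2 => w⁻¹ * (M (1, v) * u), hcc⟩ hwv
  have hβ' : ∀ v : S2, w * hlce (β v) = M (1, v) * u := by
    intro v
    have h : w⁻¹ * (M (1, v) * u) = hlce (β v) := Subtype.ext (hβ v)
    rw [← h, mul_inv_cancel_left]
  obtain ⟨g, hg⟩ : ∃ g : I × S2 → S, g = fun z => if (z.1 : ℝ) ≤ 1 / 2 then M (hlr z.1, z.2) * u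
      else w * hlce (β z.2 * (2 - 2 * (z.1 : ℝ))) := ⟨_, rfl⟩
  have hgc : Continuous g := by
    rw [hg]
    refine Continuous.if_le ?_ ?_ (continuous_subtype_val.comp continuous_fst)
      continuous_const ?_
    · have h : Continuous fun z : I × S2 => (hlr z.1, z.2) :=
        (hlr_cont.comp continuous_fst).prodMk continuous_snd
      exact (M.continuous.comp h).mul continuous_const
    · have h : Continuous fun z : I × S2 => β z.2 * (2 - 2 * (z.1 : ℝ)) :=
        (β.continuous.comp continuous_snd).mul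
          (continuous_const.sub (continuous_const.mul
            (continuous_subtype_val.comp continuous_fst)))
      exact continuous_const.mul (hlce_cont.comp h)
    · intro z hz
      have hz' : (z.1 : ℝ) = 1 / 2 := hz
      rw [hlr_one (le_of_eq hz'.symm), hz']
      have : β z.2 * (2 - 2 * (1 / 2 : ℝ)) = β z.2 := by ring
      rw [this, hβ']
  have hg0 : ∀ v v', g (0, v) = g (0, v') := by
    have h : ∀ v, g (0, v) = u := by
      intro v
      have h0 : ((0 : I) : ℝ) ≤ 1 / 2 := by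
        rw [show ((0 : I) : ℝ) = 0 from rfl]
        norm_num
      have h1 : hlr 0 = 0 := by
        apply Subtype.ext
        rw [hlr_val h0, show ((0 : I) : ℝ) = 0 from rfl, mul_zero]
      rw [hg]
      show (if ((0 : I) : ℝ) ≤ 1 / 2 then M (hlr 0, v) * u
        else w * hlce (β v * (2 - 2 * ((0 : I) : ℝ)))) = u
      rw [if_pos h0, h1, hM0, one_mul]
    intro v v'
    rw [h, h]
  have hg1 : ∀ v v', g (1, v) = g (1, v') := by
    have h : ∀ v, g (1, v) = w := by
      intro v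
      have h0 : ¬ ((1 : I) : ℝ) ≤ 1 / 2 := by
        rw [show ((1 : I) : ℝ) = 1 from rfl]
        norm_num
      rw [hg]
      show (if ((1 : I) : ℝ) ≤ 1 / 2 then M (hlr 1, v) * u
        else w * hlce (β v * (2 - 2 * ((1 : I) : ℝ)))) = w
      rw [if_neg h0, show ((1 : I) : ℝ) = 1 from rfl]
      have : β v * (2 - 2 * (1 : ℝ)) = 0 := by ring
      rw [this, hlce_zero, mul_one]
    intro v v'
    rw [h, h]
  obtain ⟨f, hf⟩ := desc g hgc hg0 hg1
  refine ⟨f, fun x => ?_⟩
  obtain ⟨s, v, rfl⟩ := hl_surj x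
  rw [hf, hg]
  show (if (s : ℝ) ≤ 1 / 2 then M (hlr s, v) * u else w * hlce (β v * (2 - 2 * (s : ℝ)))) * si
    = q (dbl (pol s v)) * (if (s : ℝ) ≤ 1 / 2 then M (hlr s, v) * u
      else w * hlce (β v * (2 - 2 * (s : ℝ))))
  by_cases hs : (s : ℝ) ≤ 1 / 2
  · rw [if_pos hs, dbl_pol_le s v s.2.1 hs, hW, hlr_val hs]
  · rw [if_neg hs, dbl_pol_ge s v (le_of_lt (not_le.1 hs)) s.2.2, mul_assoc, hlce_comm,
      ← mul_assoc, hw, mul_assoc]

end H72V
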