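import Mathlib
import Pool.Agent.Lib.H72V.D

/-! # H72V, part N2: homotopies and the group operations -/

set_option autoImplicit false

open scoped Quaternion unitInterval

noncomputable section

namespace H72V

/-- Multiply the homotopies. -/
theorem hom_mul {Y : Type*} [TopologicalSpace Y] {f f' g g' : C(Y, S)} (h1 : f.Homotopic f')
    (h2 : g.Homotopic g') : (f * g).Homotopic (f' * g') := by
  obtain ⟨H1⟩ := h1
  obtain ⟨H2⟩ := h2
  refine ⟨⟨⟨fun z => H1 z * H2 z, H1.continuous.mul H2.continuous⟩, fun x => ?_, fun x => ?_⟩⟩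
  · show H1 (0, x) * H2 (0, x) = f x * g x
    rw [H1.apply_zero, H2.apply_zero]
  · show H1 (1, x) * H2 (1, x) = f' x * g' x
    rw [H1.apply_one, H2.apply_one]

theorem hom_inv {Y : Type*} [TopologicalSpace Y] {f g : C(Y, S)} (h : f.Homotopic g) :
    f⁻¹.Homotopic g⁻¹ := by
  obtain ⟨H⟩ := h
  refine ⟨⟨⟨fun z => (H z)⁻¹, H.continuous.inv⟩, fun x => ?_, fun x => ?_⟩⟩
  · show (H (0, x))⁻¹ = (f x)⁻¹
    rw [H.apply_zero]
  · show (H (1, x))⁻¹ = (g x)⁻¹
    rw [H.apply_one]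

end H72V
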