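import Mathlib
import Pool.Agent.Lib.H72V.N2
import Pool.Agent.Lib.H72V.N3

/-! # H72V, part N4: pushing a map into the upper half sphere -/

set_option autoImplicit false

open scoped Quaternion unitInterval

noncomputable section

namespace H72V

/-- Proof. `a x = f (dbl x) * (f (-1))⁻¹`. `f ∘ dbl` is homotopic to `f` by `id_dbl`
(`ContinuousMap.Homotopic.comp`), the constant `(f (-1))⁻¹` to `1` by `const_hom`, use `hom_mul`
and `f * 1 = f`. For `re x ≤ 0`, `dbl x = -1`: for `re x < 0` by definition, for `re x = 0` as
`x * x = -1` (see `dbl_continuous`). -/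
theorem push (f : C(S, S)) : ∃ a : C(S, S), f.Homotopic a ∧ ∀ x : S, x.1.re ≤ 0 → a x = 1 := by
  refine ⟨f.comp dbl * ContinuousMap.const S (f (-1))⁻¹, ?_, ?_⟩
  · have h1 : f.Homotopic (f.comp dbl) := by
      have h := ContinuousMap.Homotopic.comp (ContinuousMap.Homotopic.refl f) id_dbl
      rwa [ContinuousMap.comp_id] at h
    have h2 : (1 : C(S, S)).Homotopic (ContinuousMap.const S (f (-1))⁻¹) := (const_hom _).symm
    have h3 := hom_mul h1 h2
    rwa [mul_one] at h3
  · intro x hx
    have hd : dbl x = -1 := by
      show dblFun x = -1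
      unfold dblFun
      split_ifs with h
      · have h0 : x.1.re = 0 := le_antisymm hx h
        have hs : star x.1 = -x.1 := by
          ext
          · simp [h0]
          · simp
          · simp
          · simp
        have h1 : x.1 * star x.1 = 1 := H72R.mul_star_one (S_norm x)
        apply Subtype.ext
        show x.1 * x.1 = -1
        rw [hs, mul_neg] at h1
        rw [← h1, neg_neg]
      · rfl
    show f (dbl x) * (f (-1))⁻¹ = 1
    rw [hd, mul_inv_cancel]

end H72V
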