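import Mathlib
import Pool.Agent.Lib.H72V.N4

/-! # H72V, part N5: the product of f(x) and f(-x) -/

set_option autoImplicit false

open scoped Quaternion unitInterval

noncomputable section

namespace H72V

/-- Proof. Take `a` from `push f` and `e = a * a.comp negC`. Homotopy: `hom_mul` and
`Homotopic.comp`. `e (-x) = a (-x) * a x` and `e x = a x * a (-x)` are equal because one of the two
factors is `1` (`re x ≤ 0` or `re (-x) ≤ 0`). -/
theorem even_form (f : C(S, S)) :
    ∃ e : C(S, S), (∀ x, e (-x) = e x) ∧ (f * f.comp negC).Homotopic e := by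
  obtain ⟨a, ha, h1⟩ := push f
  refine ⟨a * a.comp negC, ?_, hom_mul ha (ha.comp (ContinuousMap.Homotopic.refl negC))⟩
  intro x
  show a (-x) * a (- -x) = a x * a (-x)
  rw [neg_neg]
  rcases le_total x.1.re 0 with h | h
  · rw [h1 x h, one_mul, mul_one]
  · have h2 : (-x : S).1.re ≤ 0 := by
      rw [coe_neg, Quaternion.re_neg]
      linarith
    rw [h1 (-x) h2, one_mul, mul_one]

/-- Proof. Take `a` from `push f`. `f * f.comp rho` is homotopic to `b = a * a.comp rho`. Here
`re (rho x) = -re x`. Let `F x = x` for `re x ≥ 0` and `F x = rho x` for `re x ≤ 0` (continuous: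
`rho x = -star x = x` for `re x = 0`). For `re x ≥ 0`: `b x = a x * 1 = a (F x)` and for `re x ≤ 0`:
`b x = 1 * a (rho x) = a (F x)`. So `b = a ∘ F`. `re (F x) ≥ 0`, so `F x ≠ -1`, and `nonanti` gives
`F` homotopic to the constant `1`; so `b` is homotopic to the constant `a 1`, and this to `1` by
`const_hom`. -/
theorem susp (f : C(S, S)) : (f * f.comp rho).Homotopic 1 := by
  obtain ⟨a, ha, h1⟩ := push f
  have hb : (f * f.comp rho).Homotopic (a * a.comp rho) :=
    hom_mul ha (ha.comp (ContinuousMap.Homotopic.refl rho))
  have hre : ∀ x : S, (rho x).1.re = -x.1.re := by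
    intro x
    show ((-x⁻¹ : S)).1.re = -x.1.re
    rw [coe_neg, coe_inv, Quaternion.re_neg, Quaternion.re_star]
  have hc : Continuous fun x : S => if 0 ≤ x.1.re then x else rho x := by
    refine Continuous.if_le continuous_id rho.continuous continuous_const
      (Quaternion.continuous_re.comp continuous_subtype_val) ?_
    intro x hx
    have hx' : x.1.re = 0 := hx.symm
    apply Subtype.ext
    show x.1 = (-x⁻¹ : S).1
    rw [coe_neg, coe_inv]
    ext
    · simp [hx']
    · simp
    · simp
    · simp
  have hF1 : ∀ x : S, 0 ≤ ((if 0 ≤ x.1.re then x else rho x : S)).1.re := by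
    intro x
    split_ifs with h
    · exact h
    · rw [hre]
      linarith
  have hab : a * a.comp rho = a.comp ⟨fun x : S => if 0 ≤ x.1.re then x else rho x, hc⟩ := by
    ext1 x
    show a x * a (rho x) = a (if 0 ≤ x.1.re then x else rho x)
    split_ifs with h
    · rw [h1 (rho x) (by rw [hre]; linarith), mul_one]
    · rw [h1 x (not_le.1 h).le, one_mul]
  have hF : (⟨fun x : S => if 0 ≤ x.1.re then x else rho x, hc⟩ : C(S, S)).Homotopic
      (ContinuousMap.const S 1) := by
    apply nonanti
    intro x hx
    have h2 := hF1 x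
    have h3 : (if 0 ≤ x.1.re then x else rho x : S) = -1 := hx
    rw [h3, coe_neg, coe_one, Quaternion.re_neg, Quaternion.re_one] at h2
    linarith
  rw [hab] at hb
  refine hb.trans (((ContinuousMap.Homotopic.refl a).comp hF).trans ?_)
  have h4 : a.comp (ContinuousMap.const S 1) = ContinuousMap.const S (a 1) := rfl
  rw [h4]
  exact const_hom (a 1)

end H72V
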