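import Mathlib
import Pool.Agent.Lib.H72V.T1
import Pool.Agent.Lib.H72V.N2

/-! # H72V, part P0: pure maps conjugate by a null homotopic map -/

set_option autoImplicit false

open scoped Quaternion unitInterval

noncomputable section

namespace H72V

/-- Two pure maps `p, p'` are conjugate by a null homotopic map. -/
def PH (p p' : C(S, S)) : Prop := ∃ M : C(S, S), M.Homotopic 1 ∧ ∀ x, M x * p x = p' x * M x

/-- Multiply: `M' * M`, `hom_mul`. -/
theorem PH.trans {p p' p'' : C(S, S)} (h1 : PH p p') (h2 : PH p' p'') : PH p p'' := by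
  obtain ⟨M, hM, h⟩ := h1
  obtain ⟨M', hM', h'⟩ := h2
  refine ⟨M' * M, ?_, fun x => ?_⟩
  · have h3 := hom_mul hM' hM
    rw [one_mul] at h3
    exact h3
  · rw [ContinuousMap.mul_apply, mul_assoc, h x, ← mul_assoc, h' x, mul_assoc]

/-- Use `M⁻¹`, `hom_inv`. -/
theorem PH.symm {p p' : C(S, S)} (h1 : PH p p') : PH p' p := by
  obtain ⟨M, hM, h⟩ := h1
  refine ⟨M⁻¹, ?_, fun x => ?_⟩
  · have h3 := hom_inv hM
    rw [inv_one] at h3
    exact h3
  · have e : (M⁻¹ : C(S, S)) x = (M x)⁻¹ := rfl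
    rw [e, inv_mul_eq_iff_eq_mul, ← mul_assoc, h x, mul_assoc, mul_inv_cancel, mul_one]

/-- The same `M`. -/
theorem PH.neg {p p' : C(S, S)} (h1 : PH p p') : PH (negC.comp p) (negC.comp p') := by
  obtain ⟨M, hM, h⟩ := h1
  refine ⟨M, hM, fun x => ?_⟩
  have hx := congrArg Subtype.val (h x)
  rw [coe_mul, coe_mul] at hx
  show M x * (-(p x)) = (-(p' x)) * M x
  apply Subtype.ext
  rw [coe_mul, coe_mul, coe_neg, coe_neg, mul_neg, neg_mul, hx]

/-- `lift_homotopy` with `Y = S`; the homotopy from `1` to `M (1, ·)` is `M` itself. -/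
theorem PH.of_homotopy (Q : C(I × S, S)) (hQ : ∀ z, Q z * Q z = -1) (p p' : C(S, S))
    (h0 : ∀ x, Q (0, x) = p x) (h1 : ∀ x, Q (1, x) = p' x) : PH p p' := by
  obtain ⟨M, hM0, hM⟩ := lift_homotopy Q hQ
  let M1 : C(S, S) := ⟨fun y => M (1, y), M.continuous.comp (by fun_prop)⟩
  have hH : ContinuousMap.Homotopy (1 : C(S, S)) M1 :=
    { toContinuousMap := M
      map_zero_left := fun y => hM0 y
      map_one_left := fun y => rfl }
  refine ⟨M1, ⟨hH.symm⟩, fun x => ?_⟩
  rw [← h0 x, ← h1 x]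
  exact hM 1 x

end H72V
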