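import Mathlib
import Pool.Agent.Lib.H72V.HL
import Pool.Agent.Lib.H72V.P0

/-! # H72V, part P1: from pure maps to maps of the 3-sphere -/

set_option autoImplicit false

open scoped Quaternion unitInterval

noncomputable section

namespace H72V

private theorem m_neg (x y : S) : x * -y = -(x * y) := Subtype.ext (mul_neg x.1 y.1)

private theorem n_mul (x y : S) : -x * y = -(x * y) := Subtype.ext (neg_mul x.1 y.1)

private theorem n_neg (x : S) : - -x = x := Subtype.ext (neg_neg x.1)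

private theorem sq_conj {e : S} (he : e = 1 ∨ e = -1) (x y : S) (hy : y * y = -1) :
    (e * (x⁻¹ * y * x)) * (e * (x⁻¹ * y * x)) = -1 := by
  have h1 : (x⁻¹ * y * x) * (x⁻¹ * y * x) = -1 := by
    have h2 : (x⁻¹ * y * x) * (x⁻¹ * y * x) = x⁻¹ * (y * y) * x := by group
    rw [h2, hy, m_neg, mul_one, n_mul, inv_mul_cancel]
  rcases he with rfl | rfl
  · rw [one_mul]; exact h1
  · rw [n_mul, one_mul, m_neg, n_mul, n_neg]; exact h1

private theorem sj_si : sj * si = -(si * sj) := Subtype.ext H72R.qji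

/-- Proof. Let `f` be from `hopf_lift q`, so `f x i f(x)⁻¹ = q (dbl x)`. Let
`D` be the homotopy of `id_dbl` (`D (0, x) = x`, `D (1, x) = dbl x`). Then `PH (q ∘ dbl) q` by the
homotopy `q (D (1 - s, x))`, `PH q p1` by assumption, and `PH p1 p2` with
`p2 x = e x⁻¹ q (dbl x⁻¹) x` by the homotopy `e x⁻¹ q (D (s, x⁻¹)) x` (squares are `-1` because
`e * e = 1`, `e` central and `q y * q y = -1`). So there is `M` homotopic to `1` with
`M x q(dbl x) = p2 x M x`. Let `u = 1` if `e = 1` and `u = sj` if `e = -1`, and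
`g x = x⁻¹ f(x⁻¹) u`; then `g x i g(x)⁻¹ = p2 x` (for `e = -1` use `j i = -i j`, `H72R.qji`). So
`c x = g(x)⁻¹ M(x) f(x)` commutes with `si`, hence its `j`-coordinate is `0` (`H72R.comm_qi`), so
`c x ≠ sj = -(-sj)`, and `nonanti` with the constant `-sj`, then `const_hom`, give `c` homotopic to `1`.
With `hom_mul`, `hom_inv`: `f` is homotopic to `g`, and `g` to `invC * f.comp invC` (the constant `u`
is homotopic to `1`). -/
theorem top1 (q p1 : C(S, S)) (hq : ∀ x, q x * q x = -1) (e : S) (he : e = 1 ∨ e = -1)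
    (h1 : ∀ x, p1 x = e * (x⁻¹ * q x⁻¹ * x)) (h : PH q p1) :
    ∃ f : C(S, S), f.Homotopic (invC * f.comp invC) := by
  obtain ⟨f, hf⟩ := hopf_lift q hq
  obtain ⟨D⟩ := id_dbl
  have hD0 : ∀ x, D (0, x) = x := fun x => D.apply_zero x
  have hD1 : ∀ x, D (1, x) = dbl x := fun x => D.apply_one x
  -- the first conjugation
  have hA : PH (q.comp dbl) q := by
    refine PH.of_homotopy ⟨fun z : I × S => q (D (unitInterval.symm z.1, z.2)), by fun_prop⟩
      (fun z => hq _) _ _ (fun x => ?_) (fun x => ?_)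
    · change q (D (unitInterval.symm 0, x)) = q (dbl x)
      rw [unitInterval.symm_zero, hD1]
    · change q (D (unitInterval.symm 1, x)) = q x
      rw [unitInterval.symm_one, hD0]
  let p2 : C(S, S) := ⟨fun x => e * (x⁻¹ * q (dbl x⁻¹) * x), by fun_prop⟩
  have hC : PH p1 p2 := by
    refine PH.of_homotopy ⟨fun z : I × S => e * (z.2⁻¹ * q (D (z.1, z.2⁻¹)) * z.2), by fun_prop⟩
      (fun z => sq_conj he _ _ (hq _)) _ _ (fun x => ?_) (fun x => ?_)
    · change e * (x⁻¹ * q (D (0, x⁻¹)) * x) = p1 x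
      rw [hD0, h1]
    · change e * (x⁻¹ * q (D (1, x⁻¹)) * x) = e * (x⁻¹ * q (dbl x⁻¹) * x)
      rw [hD1]
  obtain ⟨M, hM1, hM⟩ := (hA.trans h).trans hC
  -- the map g
  obtain ⟨u, hu⟩ : ∃ u : S, u * si = e * (si * u) := by
    rcases he with rfl | rfl
    · exact ⟨1, by simp⟩
    · exact ⟨sj, by rw [n_mul, one_mul]; exact sj_si⟩
  let g : C(S, S) := invC * f.comp invC * ContinuousMap.const S u
  have hg : ∀ x, g x = x⁻¹ * f x⁻¹ * u := fun x => rfl
  have hec : ∀ y : S, y * e = e * y := by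
    intro y
    rcases he with rfl | rfl
    · rw [mul_one, one_mul]
    · rw [m_neg, n_mul, mul_one, one_mul]
  have hgp : ∀ x, g x * si = p2 x * g x := by
    intro x
    rw [hg]
    change x⁻¹ * f x⁻¹ * u * si = e * (x⁻¹ * q (dbl x⁻¹) * x) * (x⁻¹ * f x⁻¹ * u)
    have h2 := hf x⁻¹
    calc x⁻¹ * f x⁻¹ * u * si = x⁻¹ * f x⁻¹ * (u * si) := by group
      _ = x⁻¹ * f x⁻¹ * (e * (si * u)) := by rw [hu]
      _ = (x⁻¹ * f x⁻¹ * e) * (si * u) := by group
      _ = (e * (x⁻¹ * f x⁻¹)) * (si * u) := by rw [hec]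
      _ = e * x⁻¹ * (f x⁻¹ * si) * u := by group
      _ = e * x⁻¹ * (q (dbl x⁻¹) * f x⁻¹) * u := by rw [h2]
      _ = e * (x⁻¹ * q (dbl x⁻¹) * x) * (x⁻¹ * f x⁻¹ * u) := by group
  let c : C(S, S) := g⁻¹ * M * f
  have hc : ∀ x, c x = (g x)⁻¹ * M x * f x := fun x => rfl
  have hcc : ∀ x, si * c x = c x * si := by
    intro x
    rw [hc]
    have h3 : si * (g x)⁻¹ = (g x)⁻¹ * p2 x := by
      have h4 := hgp x
      calc si * (g x)⁻¹ = (g x)⁻¹ * (g x * si) * (g x)⁻¹ := by group
        _ = (g x)⁻¹ * (p2 x * g x) * (g x)⁻¹ := by rw [h4]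
        _ = (g x)⁻¹ * p2 x := by group
    have h5 : M x * q (dbl x) = p2 x * M x := hM x
    calc si * ((g x)⁻¹ * M x * f x) = (si * (g x)⁻¹) * M x * f x := by group
      _ = (g x)⁻¹ * p2 x * M x * f x := by rw [h3]
      _ = (g x)⁻¹ * (p2 x * M x) * f x := by group
      _ = (g x)⁻¹ * (M x * q (dbl x)) * f x := by rw [h5]
      _ = (g x)⁻¹ * M x * (q (dbl x) * f x) := by group
      _ = (g x)⁻¹ * M x * (f x * si) := by rw [hf x]
      _ = (g x)⁻¹ * M x * f x * si := by group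
  have hcne : ∀ x, c x ≠ sj := by
    intro x hx
    have h6 : H72R.qi * (c x).1 = (c x).1 * H72R.qi := congrArg Subtype.val (hcc x)
    have h7 := (H72R.comm_qi h6).1
    rw [hx] at h7
    have h8 : (sj.1).imJ = 1 := rfl
    rw [h8] at h7
    exact one_ne_zero h7
  have hc1 : c.Homotopic 1 := by
    have h9 : c.Homotopic (ContinuousMap.const S (-sj)) := by
      refine nonanti _ _ fun x hx => hcne x ?_
      rw [hx]
      exact n_neg sj
    exact h9.trans (const_hom _)
  have hfe : f = M⁻¹ * g * c := by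
    ext1 x
    change f x = (M x)⁻¹ * g x * ((g x)⁻¹ * M x * f x)
    group
  have hfg : f.Homotopic g := by
    have h10 : (M⁻¹ * g * c).Homotopic ((1 : C(S, S))⁻¹ * g * 1) :=
      hom_mul (hom_mul (hom_inv hM1) (ContinuousMap.Homotopic.refl g)) hc1
    rw [inv_one, one_mul, mul_one, ← hfe] at h10
    exact h10
  have hgg : g.Homotopic (invC * f.comp invC) := by
    have h11 : (invC * f.comp invC * ContinuousMap.const S u).Homotopic
        (invC * f.comp invC * 1) :=
      hom_mul (ContinuousMap.Homotopic.refl _) (const_hom u)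
    rw [mul_one] at h11
    exact h11
  exact ⟨f, hfg.trans hgg⟩

end H72V
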