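import Mathlib
import Pool.Agent.Lib.H72V.P1
import Pool.Agent.Lib.H72V.N5
import Pool.Agent.Lib.H72V.G3

/-! # H72V, part P2: the topological theorem -/

set_option autoImplicit false

open scoped Quaternion unitInterval

noncomputable section

namespace H72V

/-- Proof. `susp (f.comp negC)`: `(f.comp negC) * ((f.comp negC).comp rho)` is homotopic to `1`, and
`(f.comp negC).comp rho = f.comp invC` (`-(-x⁻¹) = x⁻¹`). With `hom_mul`, `hom_inv` (multiply by
inverses) `f.comp invC` is homotopic to `(f.comp negC)⁻¹`, so `f` to `invC * (f.comp negC)⁻¹` and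
`f * f.comp negC` to `invC`. `even_form` gives `e` even, homotopic to `invC`. Then
`u = ContinuousMap.id S * e` is odd and homotopic to `id * invC = 1`; `odd_not_null`. -/
theorem top2 (f : C(S, S)) (h : f.Homotopic (invC * f.comp invC)) : False := by
  have hs : (f.comp negC * (f.comp negC).comp rho).Homotopic 1 := susp (f.comp negC)
  have e1 : (f.comp negC).comp rho = f.comp invC := by
    ext1 x
    show f (-(-x⁻¹)) = f x⁻¹
    rw [neg_neg]
  rw [e1] at hs
  have h1 : (f.comp invC).Homotopic ((f.comp negC)⁻¹) := by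
    have h2 := hom_mul (ContinuousMap.Homotopic.refl ((f.comp negC)⁻¹)) hs
    rwa [inv_mul_cancel_left, mul_one] at h2
  have h3 : f.Homotopic (invC * (f.comp negC)⁻¹) :=
    h.trans (hom_mul (ContinuousMap.Homotopic.refl invC) h1)
  have h4 : (f * f.comp negC).Homotopic invC := by
    have h5 := hom_mul h3 (ContinuousMap.Homotopic.refl (f.comp negC))
    rwa [inv_mul_cancel_right] at h5
  obtain ⟨e, he, h6⟩ := even_form f
  have h7 : e.Homotopic invC := h6.symm.trans h4
  refine odd_not_null (ContinuousMap.id S * e) (fun x => ?_) ?_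
  · show -x * e (-x) = -(x * e x)
    rw [he x]
    apply Subtype.ext
    show -x.1 * (e x).1 = -(x.1 * (e x).1)
    rw [neg_mul]
  · have h8 := hom_mul (ContinuousMap.Homotopic.refl (ContinuousMap.id S)) h7
    have e2 : ContinuousMap.id S * invC = 1 := by
      ext1 x
      show x * x⁻¹ = 1
      exact mul_inv_cancel x
    rwa [e2] at h8

theorem top (q p1 : C(S, S)) (hq : ∀ x, q x * q x = -1) (e : S) (he : e = 1 ∨ e = -1)
    (h1 : ∀ x, p1 x = e * (x⁻¹ * q x⁻¹ * x)) (h : PH q p1) : False := by
  obtain ⟨f, hf⟩ := top1 q p1 hq e he h1 h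
  exact top2 f hf

end H72V
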