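import Mathlib
import Pool.Agent.Lib.H72V.D

/-! # H72V, part R1: directions -/

set_option autoImplicit false

open scoped Quaternion unitInterval

noncomputable section

namespace H72V

/-- The direction from `b` to `a` at `x`, for maps `a, b` near `x` which never agree. Proof: the imaginary
part is not zero by `H72R.im_ne`, its normalisation `H72R.nrm` is continuous, of norm `1` and has square
`-1` by `H72R.nrm_sq` (compare `H72R.qq_facts`). -/
theorem dir_exists {Y : Type*} [TopologicalSpace Y] (a b x : C(Y, S))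
    (ha : ∀ y, ‖(a y).1 - (x y).1‖ < 1) (hb : ∀ y, ‖(b y).1 - (x y).1‖ < 1)
    (hab : ∀ y, a y ≠ b y) : ∃ d : C(Y, S), (∀ y, d y * d y = -1) ∧
      ∀ y, (d y).1 = H72R.nrm (star (x y).1 * ((a y).1 - (b y).1)).im := by
  have hp : ∀ y, (star (x y).1 * ((a y).1 - (b y).1)).im ≠ 0 := fun y =>
    H72R.im_ne (S_norm (x y)) (S_norm (a y)) (S_norm (b y)) (ha y) (hb y) fun h => hab y (Subtype.ext h)
  have hca : ∀ f : C(Y, S), Continuous fun y => (f y).1 := fun f => continuous_subtype_val.comp f.continuous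
  have h2 : Continuous fun y => (star (x y).1 * ((a y).1 - (b y).1)).im :=
    Quaternion.continuous_im.comp ((continuous_star.comp (hca x)).mul ((hca a).sub (hca b)))
  have h3 : Continuous fun y => ‖(star (x y).1 * ((a y).1 - (b y).1)).im‖⁻¹ :=
    h2.norm.inv₀ fun y => norm_ne_zero_iff.2 (hp y)
  have hn : ∀ y, H72R.nrm (star (x y).1 * ((a y).1 - (b y).1)).im ∈ Metric.sphere (0 : ℍ[ℝ]) 1 := by
    intro y
    rw [mem_sphere_zero_iff_norm]
    unfold H72R.nrm
    rw [norm_smul, norm_inv, norm_norm, inv_mul_cancel₀ (norm_ne_zero_iff.2 (hp y))]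
  refine ⟨⟨fun y => ⟨_, hn y⟩, Continuous.subtype_mk (h3.smul h2) _⟩, fun y => ?_, fun y => rfl⟩
  apply Subtype.ext
  refine H72R.nrm_sq ?_ (hp y)
  ext <;> simp

end H72V
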