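import Mathlib
import Pool.Agent.Lib.H72V.R1
import Pool.Agent.Lib.H72V.P0

/-! # H72V, part R2: homotopies of directions -/

set_option autoImplicit false

open scoped Quaternion unitInterval

noncomputable section

namespace H72V

/-- A map which is nowhere the identity and near the identity. -/
def NearId (a : C(S, S)) : Prop := ∀ x, ‖(a x).1 - x.1‖ < 1

/-- `d` is the direction from `b` to `a`. -/
def IsDir (a b d : C(S, S)) : Prop :=
  ∀ x, (d x).1 = H72R.nrm (star x.1 * ((a x).1 - (b x).1)).im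

/-- `dir_exists` with `Y = S`, `x` the identity. -/
theorem isDir_exists (a b : C(S, S)) (ha : NearId a) (hb : NearId b) (hab : ∀ x, a x ≠ b x) :
    ∃ d, IsDir a b d ∧ ∀ x, d x * d x = -1 := by
  obtain ⟨d, h1, h2⟩ := dir_exists a b (ContinuousMap.id S) ha hb hab
  exact ⟨d, h2, h1⟩

/-- Moving `a` and `b` without a coincidence. Proof: `dir_exists` with `Y = I × S` and `x` the second
projection gives the homotopy, then `PH.of_homotopy`. -/
theorem dir_move (a b : C(I × S, S)) (ha : ∀ s x, ‖(a (s, x)).1 - x.1‖ < 1)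
    (hb : ∀ s x, ‖(b (s, x)).1 - x.1‖ < 1) (hab : ∀ s x, a (s, x) ≠ b (s, x))
    (a0 b0 a1 b1 d0 d1 : C(S, S)) (ha0 : ∀ x, a (0, x) = a0 x) (hb0 : ∀ x, b (0, x) = b0 x)
    (ha1 : ∀ x, a (1, x) = a1 x) (hb1 : ∀ x, b (1, x) = b1 x) (h0 : IsDir a0 b0 d0)
    (h1 : IsDir a1 b1 d1) : PH d0 d1 := by
  obtain ⟨d, hsq, hd⟩ := dir_exists a b (⟨Prod.snd, continuous_snd⟩ : C(I × S, S))
    (fun z => ha z.1 z.2) (fun z => hb z.1 z.2) (fun z => hab z.1 z.2)
  refine PH.of_homotopy d hsq d0 d1 (fun x => ?_) (fun x => ?_)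
  · apply Subtype.ext
    rw [hd (0, x), h0 x, ha0 x, hb0 x]
    rfl
  · apply Subtype.ext
    rw [hd (1, x), h1 x, ha1 x, hb1 x]
    rfl

/-- `nrm (-z) = -nrm z` (`H72R.nrm_neg`), `im (-z) = -im z`. -/
theorem isDir_swap (a b d : C(S, S)) (h : IsDir a b d) : IsDir b a (negC.comp d) := by
  intro x
  have e : star x.1 * ((b x).1 - (a x).1) = -(star x.1 * ((a x).1 - (b x).1)) := by
    rw [← mul_neg, neg_sub]
  have e2 : ((negC.comp d) x).1 = -(d x).1 := rfl
  rw [e2, e, H72R.im_neg', H72R.nrm_neg, h x]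

/-- The direction of the mirror image `x ↦ (F (x⁻¹))⁻¹`. Proof. With `y = x⁻¹ = star x`:
`star x * (star (F y) - x) = star ((F y) * x) - 1 = star (x⁻¹ * (x * F y) * x) - 1`, its imaginary
part is `-(x⁻¹ * im (x * F y) * x)` (`H72R.im_star'`, `H72R.im_conj`) and
`im (x * F y) = im (star y * (F y - y))`; normalise with `H72R.nrm_neg`, `H72R.nrm_conj`. -/
theorem isDir_mirror (F J d dJ : C(S, S)) (hJ : ∀ x, J x = (F x⁻¹)⁻¹)
    (hd : IsDir F (ContinuousMap.id S) d) (hdJ : IsDir J (ContinuousMap.id S) dJ) :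
    ∀ x, dJ x = (-1) * (x⁻¹ * d x⁻¹ * x) := by
  intro x
  have hx : star x.1 * x.1 = 1 := H72R.star_mul_one (S_norm x)
  have hxs : ‖star x.1‖ = 1 := by rw [norm_star]; exact S_norm x
  -- the left hand side
  have e1 : (dJ x).1 = H72R.nrm (star x.1 * (star (F x⁻¹).1 - x.1)).im := by
    rw [hdJ x, hJ x, coe_inv (F x⁻¹)]
    rfl
  have e2 : star x.1 * (star (F x⁻¹).1 - x.1) = star (((F x⁻¹).1 - star x.1) * x.1) := by
    rw [star_mul, star_sub, star_star]
  -- the right hand side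
  have e3 : (d x⁻¹).1 = H72R.nrm (x.1 * ((F x⁻¹).1 - star x.1)).im := by
    rw [hd x⁻¹]
    have h1 : (ContinuousMap.id S) x⁻¹ = x⁻¹ := rfl
    rw [h1, coe_inv x, star_star]
  have e4 : star x.1 * (d x⁻¹).1 * x.1 = H72R.nrm (((F x⁻¹).1 - star x.1) * x.1).im := by
    have h2 := H72R.nrm_conj hxs (x.1 * ((F x⁻¹).1 - star x.1)).im
    rw [star_star] at h2
    have h3 := H72R.im_conj hxs (x.1 * ((F x⁻¹).1 - star x.1))
    rw [star_star] at h3
    rw [e3, ← h2, ← h3, ← mul_assoc, hx, one_mul]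
  apply Subtype.ext
  have e5 : ((-1 : S) * (x⁻¹ * d x⁻¹ * x)).1 = -(star x.1 * (d x⁻¹).1 * x.1) := by
    rw [coe_mul, coe_mul, coe_mul, coe_inv, coe_neg, coe_one, neg_mul, one_mul]
  rw [e5, e4, e1, e2, H72R.im_star', H72R.nrm_neg]

end H72V
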