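import Mathlib
import Pool.Agent.Lib.H72V.R2
import Pool.Agent.Lib.H72V.P2

/-! # H72V, part R3: three families without coincidences -/

set_option autoImplicit false

open scoped Quaternion unitInterval

noncomputable section

namespace H72V

private def sl (F : C(I × S, S)) (s : I) : C(S, S) :=
  ⟨fun x => F (s, x), F.continuous.comp (continuous_const.prodMk continuous_id)⟩

private def cst (a : C(S, S)) : C(I × S, S) := ⟨fun z => a z.2, a.continuous.comp continuous_snd⟩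

private theorem near_id : NearId (ContinuousMap.id S) := by
  intro x
  rw [ContinuousMap.id_apply, sub_self, norm_zero]
  exact one_pos

private theorem near_sl {F : C(I × S, S)} (hF : ∀ s x, ‖(F (s, x)).1 - x.1‖ < 1) (s : I) :
    NearId (sl F s) := fun x => hF s x

/-- `F` near the identity is conjugate to itself by a map isotopic to the conjugation: impossible.
Proof. `q` = direction of `F`, `q1` = direction of `J (1, ·) = F`, so `q1 = q`, and the homotopy `J` gives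
`PH` from the direction `dJ` of `J (0, ·)` to `q`. By `isDir_mirror`, `dJ x = -(x⁻¹ q(x⁻¹) x)`.
`top` with `p1 = dJ`, `e = -1` (`PH.symm`). -/
theorem no_comm (F : C(S, S)) (J : C(I × S, S)) (hF : NearId F)
    (hJ : ∀ s x, ‖(J (s, x)).1 - x.1‖ < 1) (hJx : ∀ s x, J (s, x) ≠ x)
    (hJ0 : ∀ x, J (0, x) = (F x⁻¹)⁻¹) (hJ1 : ∀ x, J (1, x) = F x) : False := by
  obtain ⟨q, hq, hq2⟩ := isDir_exists F (ContinuousMap.id S) hF near_id
    (fun x => by rw [← hJ1 x]; exact hJx 1 x)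
  obtain ⟨dJ, hdJ, -⟩ := isDir_exists (sl J 0) (ContinuousMap.id S) (near_sl hJ 0) near_id
    (fun x => hJx 0 x)
  have h1 : PH dJ q := dir_move J (cst (ContinuousMap.id S)) hJ (fun _ x => near_id x) hJx
    (sl J 0) (ContinuousMap.id S) F (ContinuousMap.id S) dJ q (fun _ => rfl) (fun _ => rfl) hJ1
    (fun _ => rfl) hdJ hq
  exact top q dJ hq2 (-1) (Or.inr rfl) (isDir_mirror F (sl J 0) q dJ hJ0 hq hdJ) h1.symm

/-- Reversing case. `F (0, ·) = G (0, ·) = id`, `F (1, ·)` is the map, `G (1, ·) = J (1, ·)` its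
conjugate. Proof. With `dir a b` the direction from `b` to `a`: `q = dir F₁ id`; `PH q (dir F₁ G₁)` by
moving `G` from `0` to `1`; `PH (dir F₁ G₁) (dir id G₁)` by moving `F` from `1` to `0`;
`dir id G₁ = -dir G₁ id` (`isDir_swap`), and `PH (dir J₁ id) (dir J₀ id)` by moving `J`, `PH.neg`;
`dir J₀ id = -(x⁻¹ q(x⁻¹) x)` (`isDir_mirror`). So `PH q (x⁻¹ q(x⁻¹) x)`: `top` with `e = 1`. -/
theorem no_rev (F G J : C(I × S, S)) (hF : ∀ s x, ‖(F (s, x)).1 - x.1‖ < 1)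
    (hG : ∀ s x, ‖(G (s, x)).1 - x.1‖ < 1) (hJ : ∀ s x, ‖(J (s, x)).1 - x.1‖ < 1)
    (hF0 : ∀ x, F (0, x) = x) (hG0 : ∀ x, G (0, x) = x) (hGJ : ∀ x, G (1, x) = J (1, x))
    (hJ0 : ∀ x, J (0, x) = (F (1, x⁻¹))⁻¹) (hJx : ∀ s x, J (s, x) ≠ x)
    (h1 : ∀ s x, F (1, x) ≠ G (s, x)) (h2 : ∀ s x, F (s, x) ≠ G (1, x)) : False := by
  have nF := near_sl hF 1
  have nG := near_sl hG 1
  obtain ⟨q, hq, hq2⟩ := isDir_exists (sl F 1) (ContinuousMap.id S) nF near_id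
    (fun x h => h1 0 x (by rw [hG0 x]; exact h))
  obtain ⟨d1, hd1, -⟩ := isDir_exists (sl F 1) (sl G 1) nF nG (fun x => h1 1 x)
  obtain ⟨d2, hd2, -⟩ := isDir_exists (sl G 1) (ContinuousMap.id S) nG near_id
    (fun x h => h2 0 x (by rw [hF0 x]; exact h.symm))
  obtain ⟨dJ, hdJ, -⟩ := isDir_exists (sl J 0) (ContinuousMap.id S) (near_sl hJ 0) near_id
    (fun x => hJx 0 x)
  have p1 : PH q d1 := dir_move (cst (sl F 1)) G (fun _ x => nF x) hG (fun s x => h1 s x)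
    (sl F 1) (ContinuousMap.id S) (sl F 1) (sl G 1) q d1 (fun _ => rfl) hG0 (fun _ => rfl)
    (fun _ => rfl) hq hd1
  have p2 : PH (negC.comp d2) d1 := dir_move F (cst (sl G 1)) hF (fun _ x => nG x)
    (fun s x => h2 s x) (ContinuousMap.id S) (sl G 1) (sl F 1) (sl G 1) (negC.comp d2) d1 hF0
    (fun _ => rfl) (fun _ => rfl) (fun _ => rfl) (isDir_swap _ _ _ hd2) hd1
  have p3 : PH dJ d2 := dir_move J (cst (ContinuousMap.id S)) hJ (fun _ x => near_id x) hJx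
    (sl J 0) (ContinuousMap.id S) (sl G 1) (ContinuousMap.id S) dJ d2 (fun _ => rfl)
    (fun _ => rfl) (fun x => (hGJ x).symm) (fun _ => rfl) hdJ hd2
  have hm := isDir_mirror (sl F 1) (sl J 0) q dJ hJ0 hq hdJ
  refine top q (negC.comp dJ) hq2 1 (Or.inl rfl) (fun x => ?_) ((p1.trans p2.symm).trans p3.neg.symm)
  show -(dJ x) = 1 * (x⁻¹ * q x⁻¹ * x)
  rw [hm x, neg_one_mul, neg_neg, one_mul]

/-- Preserving case. `B` is the family of the backward maps. Proof. `q = dir F₁ id`,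
`PH q (dir F₁ B₁)`, `PH (dir F₁ B₁) (dir id B₁)`, `PH (dir id B₁) (dir G₁ B₁)`,
`PH (dir G₁ B₁) (dir G₁ id)`, `PH (dir J₁ id) (dir J₀ id)`, `dir J₀ id = -(x⁻¹ q(x⁻¹) x)`: `top` with
`e = -1`. -/
theorem no_pres (F B G J : C(I × S, S)) (hF : ∀ s x, ‖(F (s, x)).1 - x.1‖ < 1)
    (hB : ∀ s x, ‖(B (s, x)).1 - x.1‖ < 1)
    (hG : ∀ s x, ‖(G (s, x)).1 - x.1‖ < 1) (hJ : ∀ s x, ‖(J (s, x)).1 - x.1‖ < 1)
    (hF0 : ∀ x, F (0, x) = x) (hB0 : ∀ x, B (0, x) = x) (hG0 : ∀ x, G (0, x) = x)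
    (hGJ : ∀ x, G (1, x) = J (1, x)) (hJ0 : ∀ x, J (0, x) = (F (1, x⁻¹))⁻¹)
    (hJx : ∀ s x, J (s, x) ≠ x) (h1 : ∀ s x, F (1, x) ≠ B (s, x))
    (h2 : ∀ s x, F (s, x) ≠ B (1, x)) (h3 : ∀ s x, G (s, x) ≠ B (1, x))
    (h4 : ∀ s x, G (1, x) ≠ B (s, x)) : False := by
  have nF := near_sl hF 1
  have nB := near_sl hB 1
  have nG := near_sl hG 1
  obtain ⟨q, hq, hq2⟩ := isDir_exists (sl F 1) (ContinuousMap.id S) nF near_id
    (fun x h => h1 0 x (by rw [hB0 x]; exact h))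
  obtain ⟨d1, hd1, -⟩ := isDir_exists (sl F 1) (sl B 1) nF nB (fun x => h1 1 x)
  obtain ⟨d2, hd2, -⟩ := isDir_exists (ContinuousMap.id S) (sl B 1) near_id nB
    (fun x h => h2 0 x (by rw [hF0 x]; exact h))
  obtain ⟨d3, hd3, -⟩ := isDir_exists (sl G 1) (sl B 1) nG nB (fun x => h4 1 x)
  obtain ⟨d4, hd4, -⟩ := isDir_exists (sl G 1) (ContinuousMap.id S) nG near_id
    (fun x h => h4 0 x (by rw [hB0 x]; exact h))
  obtain ⟨dJ, hdJ, -⟩ := isDir_exists (sl J 0) (ContinuousMap.id S) (near_sl hJ 0) near_id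
    (fun x => hJx 0 x)
  have p1 : PH q d1 := dir_move (cst (sl F 1)) B (fun _ x => nF x) hB (fun s x => h1 s x)
    (sl F 1) (ContinuousMap.id S) (sl F 1) (sl B 1) q d1 (fun _ => rfl) hB0 (fun _ => rfl)
    (fun _ => rfl) hq hd1
  have p2 : PH d2 d1 := dir_move F (cst (sl B 1)) hF (fun _ x => nB x)
    (fun s x => h2 s x) (ContinuousMap.id S) (sl B 1) (sl F 1) (sl B 1) d2 d1 hF0
    (fun _ => rfl) (fun _ => rfl) (fun _ => rfl) hd2 hd1
  have p3 : PH d2 d3 := dir_move G (cst (sl B 1)) hG (fun _ x => nB x)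
    (fun s x => h3 s x) (ContinuousMap.id S) (sl B 1) (sl G 1) (sl B 1) d2 d3 hG0
    (fun _ => rfl) (fun _ => rfl) (fun _ => rfl) hd2 hd3
  have p4 : PH d4 d3 := dir_move (cst (sl G 1)) B (fun _ x => nG x) hB (fun s x => h4 s x)
    (sl G 1) (ContinuousMap.id S) (sl G 1) (sl B 1) d4 d3 (fun _ => rfl) hB0 (fun _ => rfl)
    (fun _ => rfl) hd4 hd3
  have p5 : PH dJ d4 := dir_move J (cst (ContinuousMap.id S)) hJ (fun _ x => near_id x) hJx
    (sl J 0) (ContinuousMap.id S) (sl G 1) (ContinuousMap.id S) dJ d4 (fun _ => rfl)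
    (fun _ => rfl) (fun x => (hGJ x).symm) (fun _ => rfl) hdJ hd4
  exact top q dJ hq2 (-1) (Or.inr rfl) (isDir_mirror (sl F 1) (sl J 0) q dJ hJ0 hq hdJ)
    ((((p1.trans p2.symm).trans p3).trans p4.symm).trans p5.symm)

end H72V
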