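import Mathlib
import Pool.Agent.Lib.H72V.D

/-! # H72V, part R4: flows: small times, small periods -/

set_option autoImplicit false

open scoped Quaternion unitInterval

noncomputable section

namespace H72V

/-- Proof. `(T, (s, x)) ↦ ‖H (s, ψ T (K (s, x))) - x‖` is continuous and `0` for `T = 0`; the space `I × S` is
compact: `IsCompact.eventually_forall_of_forall_eventually` (compare `H72R.small_time` in
Lib/H72R/F.lean). -/
theorem small_time (ψ : Flow ℝ S) (H K : C(I × S, S)) (hHK : ∀ s x, H (s, K (s, x)) = x) :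
    ∃ ε > 0, ∀ T : ℝ, |T| < ε → ∀ s x, ‖(H (s, ψ T (K (s, x)))).1 - x.1‖ < 1 := by
  have hc : Continuous fun z : ℝ × (I × S) => ‖(H (z.2.1, ψ z.1 (K z.2))).1 - z.2.2.1‖ := by
    have h1 : Continuous fun z : ℝ × (I × S) => ψ z.1 (K z.2) :=
      ψ.continuous continuous_fst (K.continuous.comp continuous_snd)
    have h2 : Continuous fun z : ℝ × (I × S) => H (z.2.1, ψ z.1 (K z.2)) :=
      H.continuous.comp ((continuous_fst.comp continuous_snd).prodMk h1)
    exact ((continuous_subtype_val.comp h2).sub
      (continuous_subtype_val.comp (continuous_snd.comp continuous_snd))).norm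
  have key := (isCompact_univ (X := I × S)).eventually_forall_of_forall_eventually (x₀ := (0 : ℝ))
    (P := fun T p => ‖(H (p.1, ψ T (K p))).1 - p.2.1‖ < 1) (by
      intro y _
      have h2 : ‖(H (y.1, ψ (0 : ℝ) (K y))).1 - y.2.1‖ < 1 := by
        rw [Flow.map_zero_apply]
        have h3 : H (y.1, K y) = y.2 := hHK y.1 y.2
        rw [h3, sub_self, norm_zero]
        exact one_pos
      exact (hc.tendsto ((0 : ℝ), y)).eventually (gt_mem_nhds h2))
  rw [Metric.eventually_nhds_iff] at key
  obtain ⟨ε, hε, hk⟩ := key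
  refine ⟨ε, hε, fun T hT s x => hk ?_ (s, x) trivial⟩
  rw [Real.dist_eq, sub_zero]
  exact hT

end H72V
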