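import Mathlib

/-! # H72V, part R4b: flows, small periods -/

set_option autoImplicit false

noncomputable section

namespace H72V

open Filter Topology in
/-- If there are points of arbitrarily small period then there is a rest point. Proof. Otherwise for every
`n` there are `T n` in `(0, 1/(n+1))` and `x n` with `ψ (T n) (x n) = x n`. A subsequence of `x n` converges to
some `x`. For a real `t` let `m = ⌊t / T n⌋`; then `ψ t (x n) = ψ (t - m T n) (x n)` and
`t - m T n` tends to `0`, so by continuity `ψ t x = x`. -/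
theorem period_bound {X : Type*} [MetricSpace X] [CompactSpace X] (ψ : Flow ℝ X)
    (h : ∀ x, ∃ t, ψ t x ≠ x) : ∃ ε > 0, ∀ T : ℝ, 0 < T → T < ε → ∀ x, ψ T x ≠ x := by
  by_contra hcon
  push Not at hcon
  have hch : ∀ n : ℕ, ∃ T : ℝ, 0 < T ∧ T < 1 / ((n : ℝ) + 1) ∧ ∃ x, ψ T x = x := by
    intro n
    exact hcon _ (by positivity)
  choose T hT0 hT1 x hx using hch
  obtain ⟨a, φ, hφ, hlim⟩ := CompactSpace.tendsto_subseq x
  obtain ⟨t, ht⟩ := h a
  apply ht
  -- integer multiples of the period
  have hmul : ∀ (n : ℕ) (k : ℤ), ψ ((k : ℝ) * T n) (x n) = x n := by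
    intro n k
    induction k using Int.induction_on with
    | zero => simp
    | succ i ih =>
      have : (((i : ℤ) + 1 : ℤ) : ℝ) * T n = T n + ((i : ℤ) : ℝ) * T n := by push_cast; ring
      rw [this, Flow.map_add, ih, hx]
    | pred i ih =>
      have e : ((-(i : ℤ) - 1 : ℤ) : ℝ) * T n = -T n + ((-(i : ℤ) : ℤ) : ℝ) * T n := by push_cast; ring
      rw [e, Flow.map_add, ih]
      have h2 : ψ (-T n) (ψ (T n) (x n)) = x n := by
        rw [← Flow.map_add, neg_add_cancel, Flow.map_zero_apply]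
      rwa [hx] at h2
  have hred : ∀ n : ℕ, ψ t (x n) = ψ (Int.fract (t / T n) * T n) (x n) := by
    intro n
    have e : t = Int.fract (t / T n) * T n + ((⌊t / T n⌋ : ℤ) : ℝ) * T n := by
      rw [← add_mul, Int.fract_add_floor, div_mul_cancel₀ _ (hT0 n).ne']
    conv_lhs => rw [e]
    rw [Flow.map_add, hmul]
  have hT : Tendsto T atTop (𝓝 0) :=
    squeeze_zero (fun n => (hT0 n).le) (fun n => (hT1 n).le) tendsto_one_div_add_atTop_nhds_zero_nat
  have hs : Tendsto (fun n => Int.fract (t / T n) * T n) atTop (𝓝 0) := by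
    refine squeeze_zero (fun n => mul_nonneg (Int.fract_nonneg _) (hT0 n).le) (fun n => ?_) hT
    calc Int.fract (t / T n) * T n ≤ 1 * T n :=
          mul_le_mul_of_nonneg_right (Int.fract_lt_one _).le (hT0 n).le
      _ = T n := one_mul _
  have hs' : Tendsto (fun n => Int.fract (t / T (φ n)) * T (φ n)) atTop (𝓝 0) :=
    hs.comp hφ.tendsto_atTop
  have l1 : Tendsto (fun n => ψ t (x (φ n))) atTop (𝓝 (ψ t a)) :=
    ((ψ.continuous continuous_const continuous_id).tendsto a).comp hlim
  have l2 : Tendsto (fun n => ψ (Int.fract (t / T (φ n)) * T (φ n)) (x (φ n))) atTop (𝓝 (ψ 0 a)) :=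
    (ψ.cont'.tendsto (0, a)).comp (hs'.prodMk_nhds hlim)
  have l3 : Tendsto (fun n => ψ t (x (φ n))) atTop (𝓝 (ψ 0 a)) := by
    refine l2.congr fun n => ?_
    rw [hred (φ n)]
  have := tendsto_nhds_unique l1 l3
  rw [this, Flow.map_zero_apply]

end H72V
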