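import Mathlib
import Pool.Agent.Lib.H72V.R3
import Pool.Agent.Lib.H72V.R4
import Pool.Agent.Lib.H72V.R4b

/-! # H72V, part R5: flows on the group of unit quaternions -/

set_option autoImplicit false

open scoped Quaternion unitInterval

noncomputable section

namespace H72V

private theorem r5_per {ψ : Flow ℝ S} {a b : ℝ} {x : S} (h : ψ a x = ψ (-b) x) : ψ (a + b) x = x := by
  rw [add_comm, Flow.map_add, h, ← Flow.map_add, add_neg_cancel, Flow.map_zero_apply]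

private theorem r5_data (ψ : Flow ℝ S) (H K : C(I × S, S)) (hHK : ∀ s x, H (s, K (s, x)) = x)
    (hKH : ∀ s x, K (s, H (s, x)) = x) (h0 : ∀ x, H (0, x) = x⁻¹) :
    ∃ ε > 0, ∀ T : ℝ, 0 < T → T < ε → ∃ F B G J : C(I × S, S),
      ((∀ (s : I) x, F (s, x) = ψ (s * T) x) ∧ (∀ (s : I) x, B (s, x) = ψ (-(s * T)) x) ∧
        (∀ (s : I) x, G (s, x) = H (1, ψ (s * T) (K (1, x)))) ∧
        (∀ s x, J (s, x) = H (s, ψ T (K (s, x))))) ∧
      ((∀ s x, ‖(F (s, x)).1 - x.1‖ < 1) ∧ (∀ s x, ‖(B (s, x)).1 - x.1‖ < 1) ∧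
        (∀ s x, ‖(G (s, x)).1 - x.1‖ < 1) ∧ (∀ s x, ‖(J (s, x)).1 - x.1‖ < 1)) ∧
      ((∀ x, F (0, x) = x) ∧ (∀ x, B (0, x) = x) ∧ (∀ x, G (0, x) = x)) ∧
      (∀ x, G (1, x) = J (1, x)) ∧ (∀ x, J (0, x) = (F (1, x⁻¹))⁻¹) ∧ (∀ x, F (1, x) = ψ T x) ∧
      (∀ s x, J (s, x) = x → ψ T (K (s, x)) = K (s, x)) := by
  obtain ⟨ε1, hε1, h1⟩ := small_time ψ H K hHK
  obtain ⟨ε2, hε2, h2⟩ := small_time ψ (⟨fun z => z.2, continuous_snd⟩ : C(I × S, S))
    (⟨fun z => z.2, continuous_snd⟩ : C(I × S, S)) (fun _ _ => rfl)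
  have h2' : ∀ T : ℝ, |T| < ε2 → ∀ x : S, ‖(ψ T x).1 - x.1‖ < 1 := fun T hT x => h2 T hT 0 x
  refine ⟨min ε1 ε2, lt_min hε1 hε2, fun T hT0 hT => ?_⟩
  have hT1 : T < ε1 := hT.trans_le (min_le_left _ _)
  have hT2 : T < ε2 := hT.trans_le (min_le_right _ _)
  have hsT : ∀ s : I, |(s : ℝ) * T| ≤ T := by
    intro s
    rw [abs_of_nonneg (mul_nonneg s.2.1 hT0.le)]
    calc (s : ℝ) * T ≤ 1 * T := mul_le_mul_of_nonneg_right s.2.2 hT0.le
      _ = T := one_mul T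
  have cI : Continuous fun z : I × S => (z.1 : ℝ) := continuous_subtype_val.comp continuous_fst
  have cF : Continuous fun z : I × S => ψ ((z.1 : ℝ) * T) z.2 :=
    ψ.continuous (cI.mul continuous_const) continuous_snd
  have cB : Continuous fun z : I × S => ψ (-((z.1 : ℝ) * T)) z.2 :=
    ψ.continuous (cI.mul continuous_const).neg continuous_snd
  have cG : Continuous fun z : I × S => H (1, ψ ((z.1 : ℝ) * T) (K (1, z.2))) :=
    H.continuous.comp (continuous_const.prodMk (ψ.continuous (cI.mul continuous_const)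
      (K.continuous.comp (continuous_const.prodMk continuous_snd))))
  have cJ : Continuous fun z : I × S => H (z.1, ψ T (K (z.1, z.2))) :=
    H.continuous.comp (continuous_fst.prodMk (ψ.continuous continuous_const
      (K.continuous.comp (continuous_fst.prodMk continuous_snd))))
  have hK0 : ∀ x : S, K (0, x) = x⁻¹ := by
    intro x
    have e : H (0, x⁻¹) = x := by rw [h0, inv_inv]
    calc K (0, x) = K (0, H (0, x⁻¹)) := by rw [e]
      _ = x⁻¹ := hKH 0 x⁻¹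
  refine ⟨⟨_, cF⟩, ⟨_, cB⟩, ⟨_, cG⟩, ⟨_, cJ⟩, ⟨fun _ _ => rfl, fun _ _ => rfl, fun _ _ => rfl,
    fun _ _ => rfl⟩, ⟨?_, ?_, ?_, ?_⟩, ⟨?_, ?_, ?_⟩, ?_, ?_, ?_, ?_⟩
  · intro s x
    exact h2' _ ((hsT s).trans_lt hT2) x
  · intro s x
    refine h2' _ ?_ x
    rw [abs_neg]
    exact (hsT s).trans_lt hT2
  · intro s x
    exact h1 _ ((hsT s).trans_lt hT1) 1 x
  · intro s x
    exact h1 T (by rw [abs_of_pos hT0]; exact hT1) s x
  · intro x
    show ψ (((0 : I) : ℝ) * T) x = x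
    rw [Set.Icc.coe_zero, zero_mul, Flow.map_zero_apply]
  · intro x
    show ψ (-(((0 : I) : ℝ) * T)) x = x
    rw [Set.Icc.coe_zero, zero_mul, neg_zero, Flow.map_zero_apply]
  · intro x
    show H (1, ψ (((0 : I) : ℝ) * T) (K (1, x))) = x
    rw [Set.Icc.coe_zero, zero_mul, Flow.map_zero_apply]
    exact hHK 1 x
  · intro x
    show H (1, ψ (((1 : I) : ℝ) * T) (K (1, x))) = H (1, ψ T (K (1, x)))
    rw [Set.Icc.coe_one, one_mul]
  · intro x
    show H (0, ψ T (K (0, x))) = (ψ (((1 : I) : ℝ) * T) x⁻¹)⁻¹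
    rw [Set.Icc.coe_one, one_mul, h0, hK0]
  · intro x
    show ψ (((1 : I) : ℝ) * T) x = ψ T x
    rw [Set.Icc.coe_one, one_mul]
  · intro s x h
    have h' : H (s, ψ T (K (s, x))) = x := h
    have e := hKH s (ψ T (K (s, x)))
    rw [h'] at e
    exact e.symm

/-- The four statements for flows on `S`. Here `R x = H (1, x)`, `H` is an isotopy from the conjugation
`x ↦ x⁻¹` to `R` with inverse `K`. Proof. Suppose there is no rest point (a, b) or no point with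
`ψ t x = x`, `t > 0` (c, d). Let `ε₁` be from `small_time` for `H, K`, `ε₂` from `small_time` for the constant
isotopy (both projections), `ε₃` from `period_bound` (a, b) or any number (c, d), and
`T > 0` smaller than `ε₁`, `ε₂`, `ε₃ / 2`. Put `F (s, x) = ψ (s T) x`, `B (s, x) = ψ (-(s T)) x`,
`G (s, x) = H (1, ψ (s T) (K (1, x)))`, `J (s, x) = H (s, ψ T (K (s, x)))`. `J (s, x) ≠ x` because
`ψ T y ≠ y` for `y = K (s, x)`. `K (0, x) = x⁻¹`. (a) `J (1, x) = ψ T (H (1, K (1, x))) = ψ T x`: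
`no_comm`. (b) `G (s, x) = ψ (-(s T)) x`, so `F (1, x) = G (s, x)` would give period `T + s T`:
`no_rev`. (c) `G (s, x) = ψ r x` with `r ≥ 0` (`r > 0` for `s > 0`), `no_pres`. (d) `G (s, x) = ψ (-r) x` with
`r ≥ 0`, `no_rev`. -/
theorem flow_S (ψ : Flow ℝ S) (H K : C(I × S, S)) (hHK : ∀ s x, H (s, K (s, x)) = x)
    (hKH : ∀ s x, K (s, H (s, x)) = x) (h0 : ∀ x, H (0, x) = x⁻¹) :
    ((∀ x (t : ℝ), H (1, ψ t x) = ψ t (H (1, x))) → ∃ x, ∀ t, ψ t x = x) ∧
    ((∀ x (t : ℝ), H (1, ψ t x) = ψ (-t) (H (1, x))) → ∃ x, ∀ t, ψ t x = x) ∧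
    ((∀ x, ∀ t > (0 : ℝ), ∃ s > (0 : ℝ), H (1, ψ t x) = ψ s (H (1, x))) →
      ∃ x, ∃ t > (0 : ℝ), ψ t x = x) ∧
    ((∀ x, ∀ t > (0 : ℝ), ∃ s > (0 : ℝ), H (1, ψ t x) = ψ (-s) (H (1, x))) →
      ∃ x, ∃ t > (0 : ℝ), ψ t x = x) := by
  obtain ⟨ε, hε, hdata⟩ := r5_data ψ H K hHK hKH h0
  have hs0 : ∀ (s : I) (T : ℝ), 0 < T → 0 ≤ (s : ℝ) * T := fun s T hT => mul_nonneg s.2.1 hT.le
  have hs1 : ∀ (s : I) (T : ℝ), 0 < T → (s : ℝ) * T ≤ T := by
    intro s T hT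
    calc (s : ℝ) * T ≤ 1 * T := mul_le_mul_of_nonneg_right s.2.2 hT.le
      _ = T := one_mul T
  refine ⟨?_, ?_, ?_, ?_⟩
  · intro hc
    by_contra hno
    push Not at hno
    obtain ⟨ε3, hε3, h3⟩ := period_bound ψ hno
    have hT0 : 0 < min ε ε3 / 2 := half_pos (lt_min hε hε3)
    have hT : min ε ε3 / 2 < ε := (half_lt_self (lt_min hε hε3)).trans_le (min_le_left _ _)
    have hT3 : min ε ε3 / 2 < ε3 := (half_lt_self (lt_min hε hε3)).trans_le (min_le_right _ _)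
    generalize min ε ε3 / 2 = T at hT0 hT hT3
    obtain ⟨F, B, G, J, ⟨eF, eB, eG, eJ⟩, ⟨nF, nB, nG, nJ⟩, ⟨F0, B0, G0⟩, hGJ, hJ0, hF1, hJx⟩ :=
      hdata T hT0 hT
    have cF1 : Continuous fun x : S => ψ T x := ψ.continuous continuous_const continuous_id
    refine no_comm ⟨_, cF1⟩ J ?_ nJ (fun s x h => h3 T hT0 hT3 _ (hJx s x h)) ?_ ?_
    · intro x
      have := nF 1 x
      rw [hF1] at this
      exact this
    · intro x
      rw [hJ0, hF1]
      rfl
    · intro x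
      show J (1, x) = ψ T x
      rw [eJ, hc, hHK]
  · intro hc
    by_contra hno
    push Not at hno
    obtain ⟨ε3, hε3, h3⟩ := period_bound ψ hno
    have hT0 : 0 < min ε (ε3 / 2) / 2 := half_pos (lt_min hε (half_pos hε3))
    have hT : min ε (ε3 / 2) / 2 < ε :=
      (half_lt_self (lt_min hε (half_pos hε3))).trans_le (min_le_left _ _)
    have hT3 : min ε (ε3 / 2) / 2 < ε3 / 2 :=
      (half_lt_self (lt_min hε (half_pos hε3))).trans_le (min_le_right _ _)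
    generalize min ε (ε3 / 2) / 2 = T at hT0 hT hT3
    obtain ⟨F, B, G, J, ⟨eF, eB, eG, eJ⟩, ⟨nF, nB, nG, nJ⟩, ⟨F0, B0, G0⟩, hGJ, hJ0, hF1, hJx⟩ :=
      hdata T hT0 hT
    have eG' : ∀ (s : I) x, G (s, x) = ψ (-(s * T)) x := by
      intro s x
      rw [eG, hc, hHK]
    refine no_rev F G J nF nG nJ F0 G0 hGJ hJ0
      (fun s x h => h3 T hT0 (by linarith) _ (hJx s x h)) ?_ ?_
    · intro s x h
      rw [hF1, eG'] at h
      have h1 := hs0 s T hT0
      have h2 := hs1 s T hT0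
      exact h3 (T + s * T) (by linarith) (by linarith) x (r5_per h)
    · intro s x h
      rw [eF, eG', Set.Icc.coe_one, one_mul] at h
      have h1 := hs0 s T hT0
      have h2 := hs1 s T hT0
      exact h3 (s * T + T) (by linarith) (by linarith) x (r5_per h)
  · intro hc
    by_contra hno
    push Not at hno
    have hT0 : 0 < ε / 2 := half_pos hε
    have hT : ε / 2 < ε := half_lt_self hε
    generalize ε / 2 = T at hT0 hT
    obtain ⟨F, B, G, J, ⟨eF, eB, eG, eJ⟩, ⟨nF, nB, nG, nJ⟩, ⟨F0, B0, G0⟩, hGJ, hJ0, hF1, hJx⟩ :=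
      hdata T hT0 hT
    have eG' : ∀ (s : I) x, ∃ r : ℝ, 0 ≤ r ∧ (0 < (s : ℝ) → 0 < r) ∧ G (s, x) = ψ r x := by
      intro s x
      rcases eq_or_lt_of_le s.2.1 with h | h
      · refine ⟨0, le_rfl, fun h' => absurd h' (by rw [← h]; exact lt_irrefl _), ?_⟩
        rw [eG, ← h, zero_mul, Flow.map_zero_apply, Flow.map_zero_apply, hHK]
      · obtain ⟨r, hr, hr'⟩ := hc (K (1, x)) (s * T) (mul_pos h hT0)
        refine ⟨r, le_of_lt hr, fun _ => hr, ?_⟩
        rw [eG, hr', hHK]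
    refine no_pres F B G J nF nB nG nJ F0 B0 G0 hGJ hJ0
      (fun s x h => hno _ T hT0 (hJx s x h)) ?_ ?_ ?_ ?_
    · intro s x h
      rw [hF1, eB] at h
      have h1 := hs0 s T hT0
      exact hno x (T + s * T) (by linarith) (r5_per h)
    · intro s x h
      rw [eF, eB, Set.Icc.coe_one, one_mul] at h
      have h1 := hs0 s T hT0
      exact hno x (s * T + T) (by linarith) (r5_per h)
    · intro s x h
      obtain ⟨r, hr, -, e⟩ := eG' s x
      rw [e, eB, Set.Icc.coe_one, one_mul] at h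
      exact hno x (r + T) (by linarith) (r5_per h)
    · intro s x h
      obtain ⟨r, -, hr, e⟩ := eG' 1 x
      have hr' := hr (by rw [Set.Icc.coe_one]; exact one_pos)
      rw [e, eB] at h
      have h1 := hs0 s T hT0
      exact hno x (r + s * T) (by linarith) (r5_per h)
  · intro hc
    by_contra hno
    push Not at hno
    have hT0 : 0 < ε / 2 := half_pos hε
    have hT : ε / 2 < ε := half_lt_self hε
    generalize ε / 2 = T at hT0 hT
    obtain ⟨F, B, G, J, ⟨eF, eB, eG, eJ⟩, ⟨nF, nB, nG, nJ⟩, ⟨F0, B0, G0⟩, hGJ, hJ0, hF1, hJx⟩ :=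
      hdata T hT0 hT
    have eG' : ∀ (s : I) x, ∃ r : ℝ, 0 ≤ r ∧ (0 < (s : ℝ) → 0 < r) ∧ G (s, x) = ψ (-r) x := by
      intro s x
      rcases eq_or_lt_of_le s.2.1 with h | h
      · refine ⟨0, le_rfl, fun h' => absurd h' (by rw [← h]; exact lt_irrefl _), ?_⟩
        rw [eG, ← h, zero_mul, neg_zero, Flow.map_zero_apply, Flow.map_zero_apply, hHK]
      · obtain ⟨r, hr, hr'⟩ := hc (K (1, x)) (s * T) (mul_pos h hT0)
        refine ⟨r, le_of_lt hr, fun _ => hr, ?_⟩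
        rw [eG, hr', hHK]
    refine no_rev F G J nF nG nJ F0 G0 hGJ hJ0
      (fun s x h => hno _ T hT0 (hJx s x h)) ?_ ?_
    · intro s x h
      obtain ⟨r, hr, -, e⟩ := eG' s x
      rw [hF1, e] at h
      exact hno x (T + r) (by linarith) (r5_per h)
    · intro s x h
      obtain ⟨r, -, hr, e⟩ := eG' 1 x
      have hr' := hr (by rw [Set.Icc.coe_one]; exact one_pos)
      rw [eF, e] at h
      have h1 := hs0 s T hT0
      exact hno x (s * T + r) (by linarith) (r5_per h)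

end H72V
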