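import Mathlib
import Pool.Agent.Lib.H72V.R5
import Pool.Agent.Lib.H72R.N

/-! # H72V, part R6: the chirality theorem -/

set_option autoImplicit false

open scoped Quaternion unitInterval

noncomputable section

namespace H72V

open H72R (S3)

/-- The homeomorphism of the unit sphere of `ℝ⁴` with the group of unit quaternions (`H72R.emb`,
`H72R.prj`, `H72R.emb_prj`, `H72R.prj_emb`). -/
theorem exists_T : ∃ T : S3 ≃ₜ S, ∀ x, (T x).1 = H72R.emb x := by
  refine ⟨{ toFun := fun x => ⟨H72R.emb x, mem_sphere_zero_iff_norm.2 (H72R.emb_norm x)⟩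
            invFun := fun q => H72R.prj q.1
            left_inv := fun x => H72R.prj_emb x
            right_inv := fun q =>
              Subtype.ext (H72R.emb_prj (mem_sphere_zero_iff_norm.1 q.2))
            continuous_toFun := H72R.emb_continuous.subtype_mk _
            continuous_invFun := ?_ }, fun x => rfl⟩
  exact H72R.prj_continuousOn.comp_continuous continuous_subtype_val (fun q => q.2)

/-- `R` is isotopic to the point reflection `(x₀, x₁, x₂, x₃) ↦ (x₀, -x₁, -x₂, -x₃)`: there are continuous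
families `H s`, `K s`, `0 ≤ s ≤ 1`, of inverse homeomorphisms with `H 0` the point reflection and
`H 1 = R`. -/
def IsotopicToMirror (R : S3 → S3) : Prop :=
  ∃ H K : I × S3 → S3, Continuous H ∧ Continuous K ∧ (∀ s x, H (s, K (s, x)) = x) ∧
    (∀ s x, K (s, H (s, x)) = x) ∧ (∀ x, (H (0, x)).1 0 = x.1 0 ∧
      ∀ i, i ≠ 0 → (H (0, x)).1 i = -x.1 i) ∧ ∀ x, H (1, x) = R x

/-- The flow `ψ t y = T (φ t (T⁻¹ y))`. -/
private def conjFlow (T : S3 ≃ₜ S) (φ : Flow ℝ S3) : Flow ℝ S where
  toFun t y := T (φ t (T.symm y))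
  cont' := T.continuous.comp
    (φ.continuous continuous_fst (T.symm.continuous.comp continuous_snd))
  map_add' t₁ t₂ y := by
    rw [Homeomorph.symm_apply_apply, Flow.map_add]
  map_zero' y := by
    rw [Flow.map_zero_apply, Homeomorph.apply_symm_apply]

private theorem conjFlow_apply (T : S3 ≃ₜ S) (φ : Flow ℝ S3) (t : ℝ) (y : S) :
    conjFlow T φ t y = T (φ t (T.symm y)) := rfl

/-- The family of maps `(s, y) ↦ T (H (s, T⁻¹ y))`. -/
private def conjMap (T : S3 ≃ₜ S) {H : I × S3 → S3} (hH : Continuous H) : C(I × S, S) :=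
  ⟨fun z => T (H (z.1, T.symm z.2)), T.continuous.comp
    (hH.comp (continuous_fst.prodMk (T.symm.continuous.comp continuous_snd)))⟩

private theorem conjMap_apply (T : S3 ≃ₜ S) {H : I × S3 → S3} (hH : Continuous H) (s : I)
    (y : S) : conjMap T hH (s, y) = T (H (s, T.symm y)) := rfl

private theorem mirror_eq {T : S3 ≃ₜ S} (hT : ∀ x, (T x).1 = H72R.emb x) {a x : S3}
    (h0 : a.1 0 = x.1 0) (h1 : ∀ i, i ≠ 0 → a.1 i = -x.1 i) : T a = (T x)⁻¹ := by
  apply Subtype.ext
  rw [coe_inv, hT, hT]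
  ext
  · rw [H72R.emb_re, h0, Quaternion.re_star, H72R.emb_re]
  · rw [H72R.emb_i, h1 1 (by decide), Quaternion.imI_star, H72R.emb_i]
  · rw [H72R.emb_j, h1 2 (by decide), Quaternion.imJ_star, H72R.emb_j]
  · rw [H72R.emb_k, h1 3 (by decide), Quaternion.imK_star, H72R.emb_k]

/-- Transfer `flow_S` with `T`: `ψ t y = T (φ t (T⁻¹ y))` (a `Flow ℝ S`), `H' (s, y) = T (H (s, T⁻¹ y))`; the
point reflection becomes the conjugation, which is the inverse in `S` (`coe_inv`, `H72R.emb_re`,
`emb_i`, `emb_j`, `emb_k`). -/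
theorem chirality (φ : Flow ℝ S3) (R : S3 → S3) (hR : IsotopicToMirror R) :
    (H72R.Preserves φ R ∨ H72R.ReversesTime φ R → H72R.HasRestPoint φ) ∧
    (H72R.PreservesOrbits φ R ∨ H72R.ReversesOrbits φ R →
      H72R.HasPeriodicPoint φ ∧ ¬ H72R.MinimalFlow φ) := by
  obtain ⟨T, hT⟩ := exists_T
  obtain ⟨H, K, cH, cK, hHK, hKH, h0, h1⟩ := hR
  have e1 : ∀ s y, conjMap T cH (s, conjMap T cK (s, y)) = y := by
    intro s y
    rw [conjMap_apply, conjMap_apply, Homeomorph.symm_apply_apply, hHK,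
      Homeomorph.apply_symm_apply]
  have e2 : ∀ s y, conjMap T cK (s, conjMap T cH (s, y)) = y := by
    intro s y
    rw [conjMap_apply, conjMap_apply, Homeomorph.symm_apply_apply, hKH,
      Homeomorph.apply_symm_apply]
  have e3 : ∀ y, conjMap T cH (0, y) = y⁻¹ := by
    intro y
    obtain ⟨g0, g1⟩ := h0 (T.symm y)
    rw [conjMap_apply, mirror_eq hT g0 g1, Homeomorph.apply_symm_apply]
  have e4 : ∀ y, conjMap T cH (1, y) = T (R (T.symm y)) := by
    intro y
    rw [conjMap_apply, h1]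
  obtain ⟨a, b, c, d⟩ := flow_S (conjFlow T φ) (conjMap T cH) (conjMap T cK) e1 e2 e3
  have tr : ∀ (y : S) (t s : ℝ), R (φ t (T.symm y)) = φ s (R (T.symm y)) →
      conjMap T cH (1, conjFlow T φ t y) = conjFlow T φ s (conjMap T cH (1, y)) := by
    intro y t s h
    rw [e4, e4, conjFlow_apply, conjFlow_apply, Homeomorph.symm_apply_apply,
      Homeomorph.symm_apply_apply, h]
  have rest : (∃ y, ∀ t, conjFlow T φ t y = y) → H72R.HasRestPoint φ := by
    rintro ⟨y, hy⟩
    refine ⟨T.symm y, fun t => T.injective ?_⟩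
    rw [← conjFlow_apply, hy, Homeomorph.apply_symm_apply]
  have per : (∃ y, ∃ t > (0 : ℝ), conjFlow T φ t y = y) →
      H72R.HasPeriodicPoint φ ∧ ¬ H72R.MinimalFlow φ := by
    rintro ⟨y, t, ht, hy⟩
    have hx : φ t (T.symm y) = T.symm y := T.injective (by
      rw [← conjFlow_apply, hy, Homeomorph.apply_symm_apply])
    refine ⟨⟨T.symm y, t, ht, hx⟩, fun hmin => ?_⟩
    obtain ⟨A, hA1, hA2, hA3, hA4⟩ := H72R.orbit_ne_univ φ (T.symm y) t ht hx
    exact hA4 (hmin A hA1 hA2 hA3)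
  refine ⟨?_, ?_⟩
  · rintro (hp | hp)
    · exact rest (a fun y t => tr y t t (hp _ _))
    · exact rest (b fun y t => tr y t (-t) (hp _ _))
  · rintro (hp | hp)
    · refine per (c fun y t ht => ?_)
      obtain ⟨s, hs, h⟩ := hp (T.symm y) t ht
      exact ⟨s, hs, tr y t s h⟩
    · refine per (d fun y t ht => ?_)
      obtain ⟨s, hs, h⟩ := hp (T.symm y) t ht
      exact ⟨s, hs, tr y t (-s) h⟩

end H72V
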