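import Mathlib
import Pool.Agent.Lib.H72V.R6

/-! # H72V, part R7: the chirality theorem, with the definitions of the hand-in -/

set_option autoImplicit false

open scoped Quaternion unitInterval

noncomputable section

namespace H72V

open H72R (S3)

/-- `H s` and `K s` are inverse to each other for every `s` in the unit interval. -/
def InverseFamilies (H K : I × S3 → S3) : Prop :=
  (∀ s x, H (s, K (s, x)) = x) ∧ ∀ s x, K (s, H (s, x)) = x

/-- `f` is the point reflection `(x₀, x₁, x₂, x₃) ↦ (x₀, -x₁, -x₂, -x₃)`. -/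
def IsPointReflection (f : S3 → S3) : Prop :=
  ∀ x, (f x).1 0 = x.1 0 ∧ ∀ i, i ≠ 0 → (f x).1 i = -x.1 i

/-- `R` is isotopic to the point reflection: there are continuous families `H s`, `K s`,
`0 ≤ s ≤ 1`, of inverse homeomorphisms, `H 0` is the point reflection and `H 1 = R`. -/
def Mirror (R : S3 → S3) : Prop :=
  ∃ H K : I × S3 → S3, Continuous H ∧ Continuous K ∧ InverseFamilies H K ∧
    IsPointReflection (fun x => H (0, x)) ∧ ∀ x, H (1, x) = R x

theorem Mirror.isotopic {R : S3 → S3} (h : Mirror R) : IsotopicToMirror R := by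
  obtain ⟨H, K, h1, h2, h3, h4, h5⟩ := h
  exact ⟨H, K, h1, h2, h3.1, h3.2, h4, h5⟩

end H72V
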